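import Pool.Agent.WPF.Defs
set_option autoImplicit false

/-!
# Module FinRed.  Reduction to finite groups.

The subgroup `G₀` generated by `A` is `≃+ (Fin n →₀ ℤ) × ⨁ i, ZMod (p i ^ e i)`
(`AddCommGroup.equiv_free_prod_directSum_zmod`, as in `H72/CE/Reduce.lean`, `model_of_depth`): write it `Z × T`, `T` finite.
Let `r` be a prime not dividing `|T|` and larger than `4 M`, where `M` bounds all absolute values of the coordinates in `Z` of
the elements of `A`.  `G' = (Fin n → ZMod r) × T`, and `f` = reduction of the coordinates.  `f` is (the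
restriction of) a homomorphism on `G₀` which is injective on `A + A - A - A`.
`PDepth m t G'`: let `p ∤ m`.  If `p = r`: an element `(z, τ) = r • y` with `r • (z, τ) = 0` has `z = 0` and `r • τ = 0`, so
`τ = 0` as `r ∤ |T|`: the set is `{0}`, one element `≤ r ^ t`.  If `p ≠ r`: `p • z = 0` gives `z = 0`, so the set is `{0} × {τ :
∃ τ', p • τ' = τ ∧ p • τ = 0}` (for `(0, τ) = p • (z', τ')`), which injects into the same set for `G` (through `T → G₀ → G`).
-/
namespace Pool.Agent.WPF

/-- subgroups -/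
theorem PDepth.of_injective {G G' : Type} [AddCommGroup G] [AddCommGroup G'] (i : G' →+ G)
    (hi : Function.Injective i) {m t : ℕ} (h : PDepth m t G) : PDepth m t G' := by
  intro p hp hpm
  obtain ⟨h1, h2⟩ := h p hp hpm
  have hmap : ∀ x ∈ {x : G' | ∃ y : G', p • y = x ∧ p • x = 0},
      i x ∈ {x : G | ∃ y : G, p • y = x ∧ p • x = 0} := by
    rintro x ⟨y, hy, hx⟩
    refine ⟨i y, ?_, ?_⟩
    · rw [← map_nsmul, hy]
    · rw [← map_nsmul, hx, map_zero]
  constructor
  · exact Set.Finite.of_injOn hmap hi.injOn h1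
  · exact (Set.ncard_le_ncard_of_injOn i hmap hi.injOn h1).trans h2

private theorem FinRed_core {G : Type} [AddCommGroup G] (m t : ℕ) (hG : PDepth m t G)
    {T : Type} [AddCommGroup T] [Finite T] (n : ℕ) (j : ((Fin n →₀ ℤ) × T) →+ G)
    (hj : Function.Injective j) (B : Set ((Fin n →₀ ℤ) × T)) (hB : B.Finite) :
    ∃ (G' : Type) (_ : AddCommGroup G') (_ : Fintype G') (g : ((Fin n →₀ ℤ) × T) →+ G'),
      PDepth m t G' ∧
      ∀ x ∈ B, ∀ y ∈ B, ∀ z ∈ B, ∀ w ∈ B, (x + y = z + w ↔ g x + g y = g z + g w) := by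
  classical
  -- bound of the coordinates of the differences
  obtain ⟨M, hM⟩ : ∃ M : ℕ, ∀ x ∈ B, ∀ i, (x.1 i).natAbs ≤ M := by
    refine ⟨hB.toFinset.sup (fun x => Finset.univ.sup (fun i => (x.1 i).natAbs)), ?_⟩
    intro x hx i
    have h1 : (x.1 i).natAbs ≤ Finset.univ.sup (fun i => (x.1 i).natAbs) :=
      Finset.le_sup (f := fun i => (x.1 i).natAbs) (Finset.mem_univ i)
    refine h1.trans ?_
    exact Finset.le_sup (f := fun x : (Fin n →₀ ℤ) × T => Finset.univ.sup (fun i => (x.1 i).natAbs))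
      (hB.mem_toFinset.mpr hx)
  obtain ⟨r, hr1, hr⟩ := Nat.exists_infinite_primes (4 * M + Nat.card T + 1)
  have : Fact r.Prime := ⟨hr⟩
  have : NeZero r := ⟨hr.ne_zero⟩
  have hcard : 0 < Nat.card T := Nat.card_pos
  let g : ((Fin n →₀ ℤ) × T) →+ (Fin n → ZMod r) × T :=
    AddMonoidHom.mk' (fun x => ((fun i => ((x.1 i : ℤ) : ZMod r)), x.2)) (by
      intro x y
      refine Prod.ext ?_ rfl
      funext i
      change (((x.1 + y.1) i : ℤ) : ZMod r) = ((x.1 i : ℤ) : ZMod r) + ((y.1 i : ℤ) : ZMod r)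
      rw [Finsupp.add_apply]
      push_cast
      rfl)
  have : Finite ((Fin n → ZMod r) × T) := inferInstance
  refine ⟨(Fin n → ZMod r) × T, inferInstance, Fintype.ofFinite _, g, ?_, ?_⟩
  · intro p hp hpm
    refine ⟨Set.toFinite _, ?_⟩
    by_cases hpr : p = r
    · subst hpr
      have hsub : {x : (Fin n → ZMod p) × T | ∃ y, p • y = x ∧ p • x = 0} ⊆ {0} := by
        rintro x ⟨y, hy, hx⟩
        rw [Set.mem_singleton_iff]
        refine Prod.ext ?_ ?_
        · have h1 := congrArg Prod.fst hy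
          rw [← h1]
          funext i
          change p • (y.1 i) = 0
          rw [nsmul_eq_mul, CharP.cast_eq_zero, zero_mul]
        · have h1 : p • x.2 = 0 := congrArg Prod.snd hx
          have h2 : addOrderOf x.2 ∣ p := addOrderOf_dvd_of_nsmul_eq_zero h1
          have h3 : addOrderOf x.2 ∣ Nat.card T := addOrderOf_dvd_natCard x.2
          have h4 : Nat.Coprime p (Nat.card T) := by
            rw [Nat.Prime.coprime_iff_not_dvd hr]
            intro h
            have := Nat.le_of_dvd hcard h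
            omega
          have h5 : addOrderOf x.2 = 1 := Nat.eq_one_of_dvd_coprimes h4 h2 h3
          exact AddMonoid.addOrderOf_eq_one_iff.mp h5
      calc _ ≤ ({0} : Set ((Fin n → ZMod p) × T)).ncard := Set.ncard_le_ncard hsub
        _ = 1 := Set.ncard_singleton _
        _ ≤ p ^ t := Nat.one_le_pow _ _ hp.pos
    · obtain ⟨h1, h2⟩ := hG p hp hpm
      refine le_trans ?_ h2
      have hz : ∀ z : Fin n → ZMod r, p • z = 0 → z = 0 := by
        intro z hz
        funext i
        have h3 := congrFun hz i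
        have h4 : (p : ZMod r) * z i = 0 := by
          rw [← nsmul_eq_mul]; exact h3
        rcases mul_eq_zero.mp h4 with h5 | h5
        · exfalso
          rw [ZMod.natCast_eq_zero_iff] at h5
          exact hpr ((Nat.prime_dvd_prime_iff_eq hr hp).mp h5).symm
        · exact h5
      apply Set.ncard_le_ncard_of_injOn (fun x : (Fin n → ZMod r) × T => j (0, x.2)) _ _ h1
      · rintro x ⟨y, hy, hx⟩
        refine ⟨j (0, y.2), ?_, ?_⟩
        · rw [← map_nsmul]
          have : p • ((0 : Fin n →₀ ℤ), y.2) = (0, x.2) :=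
            Prod.ext (smul_zero _)
              (congrArg (fun v : (Fin n → ZMod r) × T => v.2) hy)
          rw [this]
        · rw [← map_nsmul]
          have : p • ((0 : Fin n →₀ ℤ), x.2) = 0 :=
            Prod.ext (smul_zero _)
              (congrArg (fun v : (Fin n → ZMod r) × T => v.2) hx)
          rw [this, map_zero]
      · rintro x ⟨y, hy, hx⟩ x' ⟨y', hy', hx'⟩ hxx
        have h3 := hj hxx
        have h4 : x.2 = x'.2 := congrArg (fun v : (Fin n →₀ ℤ) × T => v.2) h3
        have h5 : x.1 = 0 := hz _ (congrArg Prod.fst hx)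
        have h6 : x'.1 = 0 := hz _ (congrArg Prod.fst hx')
        exact Prod.ext (h5.trans h6.symm) h4
  · intro x hx y hy z hz w hw
    constructor
    · intro h
      rw [← map_add, h, map_add]
    · intro h
      have h1 : g (x + y - (z + w)) = 0 := by
        rw [map_sub, map_add, map_add, h, sub_self]
      have h2 : x + y - (z + w) = 0 := by
        refine Prod.ext ?_ (congrArg (fun v : (Fin n → ZMod r) × T => v.2) h1)
        ext i
        have h3 : (((x + y - (z + w)).1 i : ℤ) : ZMod r) = 0 := congrFun (congrArg Prod.fst h1) i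
        rw [ZMod.intCast_zmod_eq_zero_iff_dvd] at h3
        have h4 : (x + y - (z + w)).1 i = x.1 i + y.1 i - (z.1 i + w.1 i) := rfl
        have e1 := hM x hx i
        have e2 := hM y hy i
        have e3 := hM z hz i
        have e4 := hM w hw i
        rw [h4] at h3
        change (x + y - (z + w)).1 i = 0
        rw [h4]
        apply Int.eq_zero_of_abs_lt_dvd h3
        rw [Int.abs_eq_natAbs]
        omega
      exact sub_eq_zero.mp h2

theorem finRed {G : Type} [AddCommGroup G] (m t : ℕ) (hG : PDepth m t G) (A : Set G)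
    (hA : A.Finite) :
    ∃ (G' : Type) (_ : AddCommGroup G') (_ : Fintype G') (f : G → G'), PDepth m t G' ∧
      ∀ x ∈ A, ∀ y ∈ A, ∀ z ∈ A, ∀ w ∈ A, (x + y = z + w ↔ f x + f y = f z + f w) := by
  classical
  set G₀ := AddSubgroup.closure A with hG₀
  have hfg : AddGroup.FG G₀ := by
    rw [AddGroup.fg_iff_addSubgroup_fg]
    exact ⟨hA.toFinset, by simp [hG₀]⟩
  obtain ⟨n, κ, _, p, hp, e, ⟨ε₀⟩⟩ := AddCommGroup.equiv_free_prod_directSum_zmod G₀
  let ε : G₀ ≃+ (Fin n →₀ ℤ) × ∀ i, ZMod (p i ^ e i) :=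
    ε₀.trans ((AddEquiv.refl _).prodCongr (DirectSum.addEquivProd fun i => ZMod (p i ^ e i)))
  let j : ((Fin n →₀ ℤ) × ∀ i, ZMod (p i ^ e i)) →+ G := G₀.subtype.comp ε.symm.toAddMonoidHom
  have hj : Function.Injective j := Subtype.val_injective.comp ε.symm.injective
  let f : G → (Fin n →₀ ℤ) × ∀ i, ZMod (p i ^ e i) := fun x =>
    if h : x ∈ G₀ then ε ⟨x, h⟩ else 0
  have hmem : ∀ x ∈ A, x ∈ G₀ := fun x hx => AddSubgroup.subset_closure hx
  have hjf : ∀ x ∈ A, j (f x) = x := by
    intro x hx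
    have h1 : f x = ε ⟨x, hmem x hx⟩ := dif_pos (hmem x hx)
    rw [h1]
    change ((ε.symm (ε ⟨x, hmem x hx⟩) : G₀) : G) = x
    rw [AddEquiv.symm_apply_apply]
  have : Finite (∀ i, ZMod (p i ^ e i)) := by
    have : ∀ i, NeZero (p i ^ e i) := fun i => ⟨pow_ne_zero _ (hp i).ne_zero⟩
    exact Pi.finite
  obtain ⟨G', i1, i2, g, hd, hg⟩ := FinRed_core m t hG n j hj (f '' A) (hA.image _)
  refine ⟨G', i1, i2, fun x => g (f x), hd, ?_⟩
  intro x hx y hy z hz w hw
  rw [← hg (f x) ⟨x, hx, rfl⟩ (f y) ⟨y, hy, rfl⟩ (f z) ⟨z, hz, rfl⟩ (f w) ⟨w, hw, rfl⟩]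
  constructor
  · intro h
    apply hj
    rw [map_add, map_add, hjf x hx, hjf y hy, hjf z hz, hjf w hw, h]
  · intro h
    rw [← hjf x hx, ← hjf y hy, ← hjf z hz, ← hjf w hw, ← map_add, ← map_add, h]

end Pool.Agent.WPF
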