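import Pool.Agent.WPF.Defs
set_option autoImplicit false

/-!
# Module Split.  A finite abelian group is the product of its `m'`-part and its `m`-part.

Write `|T| = a * b` with `a` coprime to `m` and `b ∣ m ^ k` for some `k` (e.g. `b = gcd (|T|, m ^ |T|)`; then
`a = |T| / b` is coprime to `m`, as in `Nat.Coprime` lemmas, or by induction).  `R = {g : a • g = 0}`, `S = {g : b • g = 0}`
(subgroups); Bézout for the coprime `a, b` makes `R × S → T`, `(r, s) ↦ r + s` bijective.  `a • R = 0` with `a` coprime to `m`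
gives `|R|` coprime to `m` (Cauchy: a prime `p ∣ |R|` has an element of order `p`, so `p ∣ a`).
(Alternative: `AddCommGroup.equiv_directSum_zmod_of_finite` and splitting the index set.)
-/
namespace Pool.Agent.WPF

theorem Split_nat (m : ℕ) (n : ℕ) : 0 < n →
    ∃ a b k : ℕ, n = a * b ∧ a.Coprime m ∧ b ∣ m ^ k := by
  induction n using Nat.strong_induction_on with
  | _ n ih =>
    intro hn
    by_cases h : n.Coprime m
    · exact ⟨n, 1, 0, by simp, h, by simp⟩
    · have hg : 1 < n.gcd m := by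
        rcases Nat.lt_or_ge 1 (n.gcd m) with h1 | h1
        · exact h1
        · have h2 : 0 < n.gcd m := Nat.gcd_pos_of_pos_left m hn
          exact absurd (by unfold Nat.Coprime; omega) h
      obtain ⟨n', hn'⟩ := Nat.gcd_dvd_left n m
      have hn'0 : 0 < n' := by
        rcases Nat.eq_zero_or_pos n' with h0 | h0
        · rw [h0, mul_zero] at hn'
          omega
        · exact h0
      have hlt : n' < n := by
        calc n' = 1 * n' := (one_mul _).symm
          _ < n.gcd m * n' := Nat.mul_lt_mul_of_pos_right hg hn'0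
          _ = n := hn'.symm
      obtain ⟨a, b, k, h1, h2, h3⟩ := ih n' hlt hn'0
      refine ⟨a, n.gcd m * b, k + 1, ?_, h2, ?_⟩
      · calc n = n.gcd m * n' := hn'
          _ = n.gcd m * (a * b) := by rw [h1]
          _ = a * (n.gcd m * b) := by ring
      · rw [pow_succ, mul_comm (m ^ k)]
        exact mul_dvd_mul (Nat.gcd_dvd_right n m) h3

theorem split (T : Type) [AddCommGroup T] [Finite T] (m : ℕ) (hm : 1 ≤ m) :
    ∃ (R S : Type) (_ : AddCommGroup R) (_ : AddCommGroup S) (_ : Finite R) (_ : Finite S),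
      Nonempty (T ≃+ R × S) ∧ (Nat.card R).Coprime m ∧ ∃ k : ℕ, ∀ s : S, m ^ k • s = 0 := by
  obtain ⟨a, b, k, hab, ham, hbk⟩ := Split_nat m (Nat.card T) Nat.card_pos
  have hcop : Nat.Coprime a b := Nat.Coprime.coprime_dvd_right hbk (ham.pow_right k)
  have hkill : ∀ t : T, (a * b) • t = 0 := by
    intro t
    rw [← hab]
    exact card_nsmul_eq_zero'
  set R : AddSubgroup T := (nsmulAddMonoidHom (α := T) a).ker with hR
  set S : AddSubgroup T := (nsmulAddMonoidHom (α := T) b).ker with hS
  have hRm : ∀ t : T, t ∈ R ↔ a • t = 0 := fun t => by rw [hR, AddMonoidHom.mem_ker]; rfl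
  have hSm : ∀ t : T, t ∈ S ↔ b • t = 0 := fun t => by rw [hS, AddMonoidHom.mem_ker]; rfl
  have hbez : (1 : ℤ) = (a : ℤ) * Nat.gcdA a b + (b : ℤ) * Nat.gcdB a b := by
    have := Nat.gcd_eq_gcd_ab a b
    rw [hcop] at this
    exact_mod_cast this
  set u : ℤ := Nat.gcdA a b with hu
  set v : ℤ := Nat.gcdB a b with hv
  have hone : ∀ t : T, ((b : ℤ) * v) • t + ((a : ℤ) * u) • t = t := by
    intro t
    rw [← add_zsmul, add_comm, ← hbez, one_zsmul]
  have hRmem : ∀ t : T, ((b : ℤ) * v) • t ∈ R := by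
    intro t
    rw [hRm, ← natCast_zsmul, ← mul_zsmul, show (a : ℤ) * ((b : ℤ) * v) = v * ((a * b : ℕ) : ℤ) by
      push_cast; ring, mul_zsmul, natCast_zsmul, hkill, zsmul_zero]
  have hSmem : ∀ t : T, ((a : ℤ) * u) • t ∈ S := by
    intro t
    rw [hSm, ← natCast_zsmul, ← mul_zsmul, show (b : ℤ) * ((a : ℤ) * u) = u * ((a * b : ℕ) : ℤ) by
      push_cast; ring, mul_zsmul, natCast_zsmul, hkill, zsmul_zero]
  refine ⟨R, S, inferInstance, inferInstance, inferInstance, inferInstance, ⟨?_⟩, ?_, k, ?_⟩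
  · refine
      { toFun := fun t => (⟨((b : ℤ) * v) • t, hRmem t⟩, ⟨((a : ℤ) * u) • t, hSmem t⟩)
        invFun := fun p => (p.1 : T) + (p.2 : T)
        left_inv := fun t => hone t
        right_inv := ?_
        map_add' := ?_ }
    · rintro ⟨⟨r, hr⟩, ⟨s, hs⟩⟩
      rw [hRm] at hr
      rw [hSm] at hs
      have h1 : ((a : ℤ) * u) • r = 0 := by
        rw [mul_comm, mul_zsmul, natCast_zsmul, hr, zsmul_zero]
      have h2 : ((b : ℤ) * v) • s = 0 := by
        rw [mul_comm, mul_zsmul, natCast_zsmul, hs, zsmul_zero]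
      have h3 := hone r
      have h4 := hone s
      rw [h1, add_zero] at h3
      rw [h2, zero_add] at h4
      ext
      · simp only [zsmul_add, h2, h3, add_zero]
      · simp only [zsmul_add, h1, h4, zero_add]
    · intro x y
      ext
      · simp
      · simp
  · by_contra hcon
    obtain ⟨p, hp, hp1, hp2⟩ := Nat.Prime.not_coprime_iff_dvd.1 hcon
    have := Fact.mk hp
    obtain ⟨r, hr⟩ := exists_prime_addOrderOf_dvd_card' p hp1
    have h1 : a • r = 0 := by
      ext
      exact (hRm _).1 r.2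
    have h2 : p ∣ a := by
      rw [← hr]
      exact addOrderOf_dvd_of_nsmul_eq_zero h1
    exact Nat.Prime.not_coprime_iff_dvd.2 ⟨p, hp, h2, hp2⟩ ham
  · intro s
    obtain ⟨c, hc⟩ := hbk
    ext
    have h1 := (hSm _).1 s.2
    rw [AddSubgroup.coe_nsmul, hc, mul_comm, mul_nsmul', h1]
    simp

end Pool.Agent.WPF
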