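import Pool.Agent.WPF.Lift
import Pool.Agent.WPF.Split
import Pool.Agent.WPF.FinRed
import Pool.Agent.H72.CE.Reduce
set_option autoImplicit false

/-!
# Module Chart.  Splitting off `F`.

`split`: `e : G ≃+ R₀ × S`.  An element `f ∈ F` has `m ^ k • f = 0`, so its component in `R₀` vanishes (`|R₀|` coprime to `m`);
let `F_S = {s : e.symm (0, s) ∈ F}`, `F_S ≃+ F`.  `lift` for `S`, `F_S`: `ι, ω, φ, β`.  `R = R₀ × (ι → ℤ)`,
`ω' g = ((e g).1, ω (e g).2)`, `φ' g = e.symm (0, φ (e g).2)`, `β' g = β (e g).2`.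
`Nat.card (divS m F_S) ≤ Nat.card (divS m F)`, `Nat.card F_S = Nat.card F`.
`Depth R t`: if `p ∣ m` then `p • (r, n) = 0` gives `r = 0` and `n = 0`: one element.  If `p ∤ m`, the set for `R` is
`{(r, 0) : ...}` and injects into that for `G` by `(r, n) ↦ e.symm (r, 0)`.
-/
namespace Pool.Agent.WPF
open Pool.Agent.H72.CE

private theorem Chart_zero {R₀ : Type} [AddCommGroup R₀] [Finite R₀] {N : ℕ} {r : R₀}
    (hc : (Nat.card R₀).Coprime N) (h : N • r = 0) : r = 0 := by
  have h2 : addOrderOf r ∣ N := addOrderOf_dvd_of_nsmul_eq_zero h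
  have h3 : addOrderOf r ∣ Nat.card R₀ := addOrderOf_dvd_natCard r
  have h5 : addOrderOf r = 1 := Nat.eq_one_of_dvd_coprimes hc h3 h2
  exact AddMonoid.addOrderOf_eq_one_iff.mp h5

theorem chart (G : Type) [AddCommGroup G] [Finite G] (m t k : ℕ) (hm : 1 ≤ m) (hG : PDepth m t G)
    (F : AddSubgroup G) (hF : ∀ f ∈ F, m ^ k • f = 0) :
    ∃ (R : Type) (_ : AddCommGroup R) (ι : Type) (_ : Fintype ι) (ω : G → R) (φ : G → F)
      (β : G → ι → Bool), Depth R t ∧ 2 ^ Fintype.card ι * Nat.card F ≤ Nat.card (divS m F) ∧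
      (∀ a b, ω a = ω b ↔ a - b ∈ F) ∧ (∀ a b, a - b ∈ F → β a = β b) ∧
      (∀ a b c d, β a = β b → β b = β c → β c = β d →
        (a + b = c + d ↔ ω a + ω b = ω c + ω d ∧ φ a + φ b = φ c + φ d)) := by
  classical
  obtain ⟨R₀, S, i1, i2, i3, i4, ⟨e⟩, hcop, k', hk'⟩ := split G m hm
  let inj : S →+ G := e.symm.toAddMonoidHom.comp (AddMonoidHom.inr R₀ S)
  have inj_def : ∀ s, inj s = e.symm (0, s) := fun s => rfl
  have inj_inj : Function.Injective inj := by
    intro s s' h
    rw [inj_def, inj_def] at h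
    exact congrArg (fun v : R₀ × S => v.2) (e.symm.injective h)
  let FS : AddSubgroup S := F.comap inj
  have hFS : ∀ s, s ∈ FS ↔ e.symm (0, s) ∈ F := fun s => Iff.rfl
  have hF1 : ∀ f ∈ F, (e f).1 = 0 := by
    intro f hf
    apply Chart_zero (N := m ^ k) (hcop.pow_right k)
    have h1 : e (m ^ k • f) = m ^ k • e f := map_nsmul e _ _
    rw [hF f hf, map_zero] at h1
    exact (congrArg (fun v : R₀ × S => v.1) h1).symm
  have hF2 : ∀ f ∈ F, e.symm (0, (e f).2) = f := by
    intro f hf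
    have h1 : ((0 : R₀), (e f).2) = e f := Prod.ext (hF1 f hf).symm rfl
    rw [h1, AddEquiv.symm_apply_apply]
  have hsub : ∀ a b, a - b ∈ F ↔ (e a).1 = (e b).1 ∧ (e a).2 - (e b).2 ∈ FS := by
    intro a b
    have h0 : e (a - b) = e a - e b := map_sub e a b
    constructor
    · intro h
      have h1 := hF1 _ h
      have h2 := hF2 _ h
      rw [h0] at h1 h2
      refine ⟨sub_eq_zero.mp h1, ?_⟩
      rw [hFS]
      change e.symm (0, (e a - e b).2) ∈ F
      rw [h2]
      exact h
    · rintro ⟨h1, h2⟩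
      rw [hFS] at h2
      have h3 : ((0 : R₀), (e a).2 - (e b).2) = e (a - b) := by
        rw [h0]
        exact Prod.ext (sub_eq_zero.mpr h1).symm rfl
      rw [h3, AddEquiv.symm_apply_apply] at h2
      exact h2
  obtain ⟨ι, iι, ω, φ, β, hcard, hω, hβ, hadd⟩ := lift S m k' hm hk' FS
  let ψ : FS → F := fun s => ⟨e.symm (0, (s : S)), s.2⟩
  have hψadd : ∀ a b c d : FS, ψ a + ψ b = ψ c + ψ d ↔ a + b = c + d := by
    intro a b c d
    have h1 : ((ψ a + ψ b : F) : G) = inj ((a + b : FS) : S) := by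
      change e.symm (0, (a : S)) + e.symm (0, (b : S)) = inj ((a : S) + (b : S))
      rw [map_add]
      rfl
    have h2 : ((ψ c + ψ d : F) : G) = inj ((c + d : FS) : S) := by
      change e.symm (0, (c : S)) + e.symm (0, (d : S)) = inj ((c : S) + (d : S))
      rw [map_add]
      rfl
    constructor
    · intro h
      apply Subtype.ext
      apply inj_inj
      rw [← h1, ← h2, h]
    · intro h
      apply Subtype.ext
      rw [h1, h2, h]
  have hψbij : Function.Bijective ψ := by
    constructor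
    · intro a b h
      apply Subtype.ext
      apply inj_inj
      exact congrArg (fun v : F => (v : G)) h
    · rintro ⟨f, hf⟩
      refine ⟨⟨(e f).2, ?_⟩, ?_⟩
      · rw [hFS, hF2 f hf]
        exact hf
      · apply Subtype.ext
        exact hF2 f hf
  have hcF : Nat.card FS = Nat.card F := Nat.card_congr (Equiv.ofBijective ψ hψbij)
  have hcD : Nat.card (divS m FS) ≤ Nat.card (divS m F) := by
    have hmem : ∀ s : divS m FS, inj (s : S) ∈ divS m F := by
      rintro ⟨s, hs⟩
      change m • inj s ∈ F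
      rw [← map_nsmul]
      exact hs
    apply Nat.card_le_card_of_injective (fun s : divS m FS => (⟨inj s, hmem s⟩ : divS m F))
    intro s s' h
    apply Subtype.ext
    apply inj_inj
    exact congrArg (fun v : divS m F => (v : G)) h
  refine ⟨R₀ × (ι → ℤ), inferInstance, ι, iι, fun g => ((e g).1, ω (e g).2),
    fun g => ψ (φ (e g).2), fun g => β (e g).2, ?_, ?_, ?_, ?_, ?_⟩
  · intro p hp
    have hz : ∀ x : R₀ × (ι → ℤ), p • x = 0 → x.2 = 0 := by
      intro x hx
      funext i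
      have h1 : p • (x.2 i) = 0 := congrFun (congrArg (fun v : R₀ × (ι → ℤ) => v.2) hx) i
      rcases smul_eq_zero.1 h1 with h | h
      · exact absurd h hp.ne_zero
      · exact h
    have hfin : {x : R₀ × (ι → ℤ) | ∃ y, p • y = x ∧ p • x = 0}.Finite := by
      apply Set.Finite.subset (Set.finite_range (fun r : R₀ => (r, (0 : ι → ℤ))))
      rintro x ⟨y, hy, hx⟩
      exact ⟨x.1, Prod.ext rfl (hz x hx).symm⟩
    refine ⟨hfin, ?_⟩
    by_cases hpm : p ∣ m
    · have hsub0 : {x : R₀ × (ι → ℤ) | ∃ y, p • y = x ∧ p • x = 0} ⊆ {0} := by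
        rintro x ⟨y, hy, hx⟩
        rw [Set.mem_singleton_iff]
        refine Prod.ext ?_ (hz x hx)
        apply Chart_zero (N := p) (Nat.Coprime.coprime_dvd_right hpm hcop)
        exact congrArg (fun v : R₀ × (ι → ℤ) => v.1) hx
      calc _ ≤ ({0} : Set (R₀ × (ι → ℤ))).ncard := Set.ncard_le_ncard hsub0
        _ = 1 := Set.ncard_singleton _
        _ ≤ p ^ t := Nat.one_le_pow _ _ hp.pos
    · obtain ⟨h1, h2⟩ := hG p hp hpm
      refine le_trans ?_ h2
      apply Set.ncard_le_ncard_of_injOn (fun x : R₀ × (ι → ℤ) => e.symm (x.1, 0)) _ _ h1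
      · rintro x ⟨y, hy, hx⟩
        have hs : p • (0 : S) = 0 := smul_zero p
        refine ⟨e.symm (y.1, 0), ?_, ?_⟩
        · rw [← map_nsmul]
          congr 1
          exact Prod.ext (congrArg (fun v : R₀ × (ι → ℤ) => v.1) hy) hs
        · rw [← map_nsmul]
          have h3 : p • (x.1, (0 : S)) = 0 :=
            Prod.ext (congrArg (fun v : R₀ × (ι → ℤ) => v.1) hx) hs
          rw [h3, map_zero]
      · rintro x ⟨y, hy, hx⟩ x' ⟨y', hy', hx'⟩ hxx
        have h3 : ((x.1, (0 : S)) : R₀ × S) = (x'.1, 0) := e.symm.injective hxx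
        exact Prod.ext (congrArg (fun v : R₀ × S => v.1) h3) ((hz x hx).trans (hz x' hx').symm)
  · rw [← hcF]
    exact hcard.trans hcD
  · intro a b
    rw [hsub, ← hω]
    constructor
    · intro h
      exact ⟨congrArg (fun v : R₀ × (ι → ℤ) => v.1) h, congrArg (fun v : R₀ × (ι → ℤ) => v.2) h⟩
    · rintro ⟨h1, h2⟩
      exact Prod.ext h1 h2
  · intro a b h
    exact hβ _ _ ((hsub a b).1 h).2
  · intro a b c d h1 h2 h3
    have h4 := hadd _ _ _ _ h1 h2 h3
    rw [hψadd]
    constructor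
    · intro h
      have h5 : e a + e b = e c + e d := by rw [← map_add, h, map_add]
      have h6 : (e a).1 + (e b).1 = (e c).1 + (e d).1 := congrArg (fun v : R₀ × S => v.1) h5
      have h7 : (e a).2 + (e b).2 = (e c).2 + (e d).2 := congrArg (fun v : R₀ × S => v.2) h5
      obtain ⟨h8, h9⟩ := h4.1 h7
      exact ⟨Prod.ext h6 h8, h9⟩
    · rintro ⟨h5, h6⟩
      have h7 : (e a).1 + (e b).1 = (e c).1 + (e d).1 :=
        congrArg (fun v : R₀ × (ι → ℤ) => v.1) h5
      have h8 : ω (e a).2 + ω (e b).2 = ω (e c).2 + ω (e d).2 :=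
        congrArg (fun v : R₀ × (ι → ℤ) => v.2) h5
      have h9 := h4.2 ⟨h8, h6⟩
      apply e.injective
      rw [map_add, map_add]
      exact Prod.ext h7 h9

end Pool.Agent.WPF
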