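import Pool.Agent.WPF.Defs
set_option autoImplicit false

/-!
# Module PfrW.  Entropic PFR for a law supported on a coset of an `m`-torsion subgroup.

Put `z₁ : W → ℝ`, `z₁ w = z (g₀ + w)`; `IsP z₁`.  `W` is a `ZMod m`-module
(`AddCommGroup.zmodModule`, from `m • w = 0`), so `ent_pfr` gives `V₁ ≤ W` with
`rd z₁ (uS V₁) ≤ 1201 m⁸ rd z₁ z₁`.  Put `V = V₁.map W.subtype`.  `rd z (uS V) = rd z₁ (uS V₁)` and
`rd z z = rd z₁ z₁`: `z = pr z₁ (fun w => g₀ + w)`, `uS V = pr (uS V₁) (fun w => (w : G))`, and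
`rd_translate`; or: for an injective homomorphism `i` and laws `p`, `q` on `W`,
`rd (pr p i) (pr q i) = rd p q` (`H_law`-type statements for `pp`: `pr (pp p q) (i × i) =
pp (pr p i) (pr q i)`, cf. `pr_pair_of_indep`, `H_fun_of_indep`, `H_congr`).
-/
namespace Pool.Agent.WPF
open Finset Pool.Agent.Ldc
variable {G : Type} [AddCommGroup G] [Fintype G] {x y : G → ℝ}

theorem PfrW_pr_inj {Ω α : Type} [Fintype Ω] (p : Ω → ℝ) (f : Ω → α)
    (hf : Function.Injective f) (ω : Ω) : pr p f (f ω) = p ω := by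
  classical
  unfold pr pe
  rw [Finset.sum_eq_single ω]
  · simp
  · intro b _ hb
    rw [if_neg (fun h => hb (hf h))]
  · intro h
    exact absurd (Finset.mem_univ _) h

theorem PfrW_pr_out {Ω α : Type} [Fintype Ω] (p : Ω → ℝ) (f : Ω → α) (a : α)
    (ha : ∀ ω, f ω ≠ a) : pr p f a = 0 := by
  classical
  unfold pr pe
  apply Finset.sum_eq_zero
  intro b _
  rw [if_neg (ha b)]

theorem PfrW_ent {G' : Type} [Fintype G'] {p : G' → ℝ} (hp : IsP p) (f : G' → G)
    (hf : Function.Injective f) : ent (pr p f) = ent p := by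
  classical
  rw [← H_eq_ent, ent_eq_H]
  obtain ⟨g0⟩ : Nonempty G' := by
    by_contra h
    rw [not_nonempty_iff] at h
    have := hp.2
    simp at this
  exact (H_congr hp (fun a => a) f f (fun b => if h : ∃ a, f a = b then h.choose else g0)
    (fun _ => rfl) (fun ω => by
      have h : ∃ a, f a = f ω := ⟨ω, rfl⟩
      simp only [dif_pos h]
      exact (hf h.choose_spec).symm)).symm

/-- the entropic Ruzsa distance of push-forwards under injective maps `a₀ + i`, `b₀ + i` -/
theorem rd_pr_inj {G' : Type} [AddCommGroup G'] [Fintype G'] {p q : G' → ℝ} (hp : IsP p)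
    (hq1 : IsP q) (i : G' →+ G) (hi : Function.Injective i) (a₀ b₀ : G) :
    rd (pr p (fun g => a₀ + i g)) (pr q (fun g => b₀ + i g)) = rd p q := by
  classical
  unfold rd
  have hf : ∀ c : G, Function.Injective (fun g : G' => c + i g) := fun c a b h =>
    hi (add_left_cancel h)
  rw [PfrW_ent hp _ (hf a₀), PfrW_ent hq1 _ (hf b₀)]
  congr 2
  have hI := indep_pp hp hq1 (fun g => a₀ + i g) (fun g => b₀ + i g)
  have h1 := H_fun_of_indep hI (fun u : G × G => u.1 - u.2)
  have e1 := pr_pp_fst (p := p) hq1 (fun g => a₀ + i g)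
  have e2 := pr_pp_snd (q := q) hp (fun g => b₀ + i g)
  rw [e1, e2] at h1
  rw [← h1]
  refine (H_congr (pp_isP hp hq1) (fun u => u.1 - u.2)
    (fun ω => (a₀ + i ω.1) - (b₀ + i ω.2)) (fun z => (a₀ - b₀) + i z)
    (fun b => if h : ∃ a, (a₀ - b₀) + i a = b then h.choose else 0) ?_ ?_).symm
  · intro ω
    rw [map_sub]
    abel
  · intro ω
    have e : (a₀ + i ω.1) - (b₀ + i ω.2) = (a₀ - b₀) + i (ω.1 - ω.2) := by
      rw [map_sub]
      abel
    have h : ∃ a, (a₀ - b₀) + i a = (a₀ + i ω.1) - (b₀ + i ω.2) := ⟨ω.1 - ω.2, e.symm⟩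
    simp only [dif_pos h]
    exact (hi (add_left_cancel (h.choose_spec.trans e))).symm

theorem PfrW_card (V : AddSubgroup G) (S : Finset G) (hS : ∀ g, g ∈ S ↔ g ∈ V) :
    S.card = Nat.card V := by
  classical
  rw [Nat.card_eq_fintype_card, Fintype.card_subtype]
  congr 1
  ext g
  simp [hS]

theorem PfrW_uS_in (V : AddSubgroup G) {g : G} (h : g ∈ V) : uS V g = 1 / (Nat.card V : ℝ) := by
  unfold uS unif
  rw [if_pos (by simpa using h)]
  rw [PfrW_card V _ (by simp)]

theorem PfrW_uS_out (V : AddSubgroup G) {g : G} (h : g ∉ V) : uS V g = 0 := by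
  unfold uS unif
  rw [if_neg (by simpa using h)]

theorem PfrW_isP (V : AddSubgroup G) : IsP (uS V) := by
  unfold uS
  apply unif_isP
  exact ⟨0, by simp⟩

theorem pfr_coset {m : ℕ} (hm : 3 ≤ m) (W : AddSubgroup G) (hW : ∀ w ∈ W, m • w = 0) {z : G → ℝ}
    (hz : IsP z) (g₀ : G) (hs : ∀ g, z g ≠ 0 → g - g₀ ∈ W) :
    ∃ V ≤ W, rd z (uS V) ≤ 1201 * (m : ℝ) ^ 8 * rd z z := by
  classical
  have : NeZero m := ⟨by omega⟩
  let _ : Fintype W := Fintype.ofFinite _
  let _ : Module (ZMod m) W := AddCommGroup.zmodModule (n := m) (fun w => by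
    apply Subtype.ext
    have := hW w w.2
    simpa using this)
  let z₁ : W → ℝ := fun w => z (g₀ + w)
  have hinj : Function.Injective (W.subtype) := Subtype.val_injective
  have hfi : Function.Injective (fun w : W => g₀ + W.subtype w) := fun a b h =>
    hinj (add_left_cancel h)
  have hz1 : z = pr z₁ (fun w => g₀ + W.subtype w) := by
    funext g
    by_cases hg : g - g₀ ∈ W
    · have h1 := PfrW_pr_inj z₁ (fun w => g₀ + W.subtype w) hfi ⟨g - g₀, hg⟩
      have h2 : g₀ + W.subtype ⟨g - g₀, hg⟩ = g := by simp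
      simp only [h2] at h1
      rw [h1]
      show z g = z (g₀ + (g - g₀))
      rw [add_sub_cancel]
    · rw [PfrW_pr_out]
      · by_contra h
        exact hg (hs g h)
      · intro w h
        apply hg
        rw [← h]
        simp
  have hP : IsP z₁ := by
    refine ⟨fun w => hz.1 _, ?_⟩
    have h := sum_pr_mul z₁ (fun w => g₀ + W.subtype w) (fun _ => 1)
    simp only [mul_one] at h
    rw [← h, ← hz1]
    exact hz.2
  obtain ⟨V₁, hV₁⟩ := ent_pfr (m := m) (G := W) hm z₁ hP
  refine ⟨V₁.map W.subtype, ?_, ?_⟩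
  · rintro _ ⟨w, _, rfl⟩
    exact w.2
  · have hu : uS (V₁.map W.subtype) = pr (uS V₁) (fun w => 0 + W.subtype w) := by
      funext g
      have h0 : (fun w : W => 0 + W.subtype w) = W.subtype := by
        funext w
        simp
      rw [h0]
      have hcard : Nat.card (V₁.map W.subtype) = Nat.card V₁ :=
        (Nat.card_congr (V₁.equivMapOfInjective W.subtype hinj).toEquiv).symm
      by_cases hg : g ∈ W
      · have h1 := PfrW_pr_inj (uS V₁) W.subtype hinj ⟨g, hg⟩
        have h2 : W.subtype ⟨g, hg⟩ = g := rfl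
        rw [h2] at h1
        rw [h1]
        by_cases hv : (⟨g, hg⟩ : W) ∈ V₁
        · rw [PfrW_uS_in _ hv, PfrW_uS_in _
            (show g ∈ V₁.map W.subtype from AddSubgroup.mem_map.2 ⟨⟨g, hg⟩, hv, rfl⟩), hcard]
        · rw [PfrW_uS_out _ hv, PfrW_uS_out]
          intro h
          obtain ⟨w, hw, hwg⟩ := AddSubgroup.mem_map.1 h
          apply hv
          have : w = ⟨g, hg⟩ := Subtype.ext hwg
          rwa [← this]
      · rw [PfrW_pr_out, PfrW_uS_out]
        · intro h
          obtain ⟨w, hw, hwg⟩ := AddSubgroup.mem_map.1 h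
          apply hg
          rw [← hwg]
          exact w.2
        · intro w h
          apply hg
          rw [← h]
          exact w.2
    have e1 : rd z (uS (V₁.map W.subtype)) = rd z₁ (uS V₁) := by
      rw [hu]
      conv_lhs => rw [hz1]
      exact rd_pr_inj hP (PfrW_isP V₁) W.subtype hinj g₀ 0
    have e2 : rd z z = rd z₁ z₁ := by
      conv_lhs => rw [hz1]
      exact rd_pr_inj hP hP W.subtype hinj g₀ g₀
    rw [e1, e2]
    exact hV₁

end Pool.Agent.WPF
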