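import Pool.Agent.WPF.Hq

/-!
# Module Unis.  Distance to the uniform law of a subgroup.

* `rd_uS`: `H(Z - U_V) = H(Z - U_V, qm V Z)` (the coset of `Z - U_V` is that of `Z`)
  `= hq z V + lc V`: given the coset `Z - U_V` is uniform on it.  One way: `≤` by `H_cond_sum`/
  `H_le_fiber` (fibres of `qm V` have `|V|` elements); `≥`: `H(Z - U) ≥ hq z V + H(Z - U | Z)`
  by `H_cond_anti`, and `H(Z - U, Z) = H(U, Z) = ent z + lc V` (`H_congr`, `H_indep`).
  `ent (uS V) = lc V` by `H_unif`.  Then unfold `rd`, `Dq`.
* averages over the cosets of `W ⊇ V`: `hq (cnd x (qm W) a) V` averages to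
  `H(qm V X, qm W X) - hq x W = hq x V - hq x W` (`H_cond_sum`, `H_congr`: `qm W` is a function of
  `qm V`), and `ent (cnd x (qm W) a)` averages to `ent x - hq x W` (`H_cond_sum` with `f = id`).
  For `a` with `pr x (qm W) a = 0` the term is `0`; otherwise `cnd_isP` and `rd_uS` apply.
-/
set_option autoImplicit false

namespace Pool.Agent.WPF
open Finset Pool.Agent.Ldc
variable {G : Type} [AddCommGroup G] [Fintype G] {x y : G → ℝ}

theorem Unis_ae {Ω α : Type} [Fintype Ω] {p : Ω → ℝ} (hp : IsP p) (f g : Ω → α)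
    (h : ∀ ω, 0 < p ω → f ω = g ω) : H p f = H p g := by
  have h1 : ∀ a, pr p f a = pr p g a := by
    intro a
    unfold pr pe
    refine Finset.sum_congr rfl fun ω _ => ?_
    rcases (hp.1 ω).lt_or_eq with h0 | h0
    · by_cases hf : f ω = a
      · have hg : g ω = a := by rw [← h ω h0]; exact hf
        simp [hf, hg]
      · have hg : ¬ g ω = a := by rw [← h ω h0]; exact hf
        simp [hf, hg]
    · rw [← h0]
      simp
  unfold H
  congr 1
  refine Finset.sum_congr rfl fun ω _ => ?_
  rcases (hp.1 ω).lt_or_eq with h0 | h0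
  · rw [h1, h ω h0]
  · rw [← h0]
    simp

theorem Unis_nonempty (V : AddSubgroup G) [DecidablePred (fun g : G => g ∈ V)] :
    (univ.filter (fun g : G => g ∈ V)).Nonempty :=
  ⟨0, by simp [V.zero_mem]⟩

theorem Unis_card (V : AddSubgroup G) [DecidablePred (fun g : G => g ∈ V)] :
    (univ.filter (fun g : G => g ∈ V)).card = Nat.card V := by
  rw [← Fintype.card_subtype, Nat.card_eq_fintype_card]

theorem uS_isP (V : AddSubgroup G) : IsP (uS V) := by
  classical
  unfold uS
  exact unif_isP _ (Unis_nonempty V)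

theorem Unis_ent (V : AddSubgroup G) : ent (uS V) = lc V := by
  classical
  rw [ent_eq_H]
  unfold uS lc
  rw [H_unif _ (Unis_nonempty V) (fun a => a) (Set.injOn_id _), Unis_card]

theorem Unis_pos (V : AddSubgroup G) {g : G} (h : 0 < uS V g) : g ∈ V := by
  classical
  unfold uS unif at h
  by_contra hg
  rw [if_neg (by simpa using hg)] at h
  exact lt_irrefl _ h

omit [Fintype G] in
theorem Unis_qm {V : AddSubgroup G} {a b : G} : qm V a = qm V b ↔ a - b ∈ V := by
  unfold qm
  rw [QuotientAddGroup.eq]
  constructor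
  · intro h
    have := V.neg_mem h
    rwa [neg_add, neg_neg, ← sub_eq_add_neg] at this
  · intro h
    have := V.neg_mem h
    rwa [neg_sub, sub_eq_add_neg, add_comm] at this

theorem Unis_H {z : G → ℝ} (hz : IsP z) (V : AddSubgroup G) :
    H (pp z (uS V)) (fun u => u.1 - u.2) = hq z V + lc V := by
  classical
  have hU := uS_isP V
  have hp := pp_isP hz hU
  have hpos : ∀ u : G × G, 0 < pp z (uS V) u → u.2 ∈ V := by
    intro u hu
    apply Unis_pos V
    unfold pp at hu
    rcases (hU.1 u.2).lt_or_eq with h | h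
    · exact h
    · rw [← h, mul_zero] at hu
      exact absurd hu (lt_irrefl _)
  have hfst : H (pp z (uS V)) (fun u : G × G => qm V u.1) = hq z V := H_pp_fst hU (qm V)
  apply le_antisymm
  · have h1 := H_le_fiber hp (fun u : G × G => u.1 - u.2) (qm V) univ (fun _ _ => mem_univ _)
      (lc V) (by
        intro ω _ u _ hu
        unfold lc
        rcases u.eq_empty_or_nonempty with h0 | h0
        · rw [h0, card_empty, Nat.cast_zero, Real.log_zero]
          exact Real.log_nonneg (by exact_mod_cast Nat.card_pos)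
        · apply Real.log_le_log (by exact_mod_cast Finset.card_pos.2 h0)
          have : u.card ≤ Nat.card V := by
            rw [← Unis_card V]
            apply Finset.card_le_card_of_injOn (fun a => a - (ω.1 - ω.2))
            · intro a ha
              simp only [coe_filter, mem_univ, true_and, Set.mem_ofPred_eq]
              exact Unis_qm.1 (hu a ha)
            · intro a _ b _ hab
              exact sub_left_injective hab
          exact_mod_cast this)
    have h2 : H (pp z (uS V)) (fun u : G × G => qm V (u.1 - u.2)) = hq z V := by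
      rw [← hfst]
      apply Unis_ae hp
      intro u hu
      rw [Unis_qm]
      have e : u.1 - u.2 - u.1 = -u.2 := by abel
      rw [e]
      exact V.neg_mem (hpos u hu)
    rw [h2] at h1
    exact h1
  · have h1 := H_cond_anti hp (fun u : G × G => u.1 - u.2) (fun u => u.1) (qm V)
    have h2 : H (pp z (uS V)) (fun u : G × G => (u.1 - u.2, u.1)) = ent z + lc V := by
      rw [H_congr hp (fun u : G × G => (u.1 - u.2, u.1)) (fun u : G × G => (u.1, u.2))
        (fun v => (v.2, v.2 - v.1)) (fun v => (v.1 - v.2, v.1))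
        (fun u => by ext <;> simp) (fun u => rfl)]
      rw [H_indep hp (fun u : G × G => u.1) (fun u => u.2)
        (indep_pp hz hU (fun a => a) (fun a => a)), H_pp_fst hU (fun a => a),
        H_pp_snd hz (fun a => a), ← ent_eq_H, ← ent_eq_H, Unis_ent]
    have h3 : H (pp z (uS V)) (fun u : G × G => u.1) = ent z := by
      rw [H_pp_fst hU (fun a => a), ← ent_eq_H]
    have h4 : H (pp z (uS V)) (fun u : G × G => (u.1 - u.2, qm V u.1)) =
        H (pp z (uS V)) (fun u : G × G => u.1 - u.2) := by
      have h5 : H (pp z (uS V)) (fun u : G × G => (u.1 - u.2, qm V u.1)) =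
          H (pp z (uS V)) (fun u : G × G => (u.1 - u.2, qm V (u.1 - u.2))) := by
        apply Unis_ae hp
        intro u hu
        have : qm V u.1 = qm V (u.1 - u.2) := by
          rw [Unis_qm]
          have e : u.1 - (u.1 - u.2) = u.2 := by abel
          rw [e]
          exact hpos u hu
        rw [this]
      rw [h5]
      exact (H_congr hp (fun u : G × G => u.1 - u.2) (fun u : G × G => (u.1 - u.2, qm V (u.1 - u.2)))
        (fun g => (g, qm V g)) Prod.fst (fun _ => rfl) (fun _ => rfl)).symm
    rw [h2, h3, h4, hfst] at h1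
    linarith

theorem rd_uS {z : G → ℝ} (hz : IsP z) (V : AddSubgroup G) :
    rd z (uS V) = (hq z V + Dq z V) / 2 := by
  unfold rd
  rw [Unis_H hz V, Unis_ent]
  unfold Dq
  ring

theorem avg_rd_uS (hx : IsP x) {V W : AddSubgroup G} (h : V ≤ W) [Fintype (G ⧸ W)] :
    ∑ a, pr x (qm W) a * rd (cnd x (qm W) a) (uS V) = (hq x V - hq x W + Dq x V) / 2 := by
  have hx1 := (pr_isP hx (qm W)).2
  have h1 := H_cond_sum hx (fun g : G => g) (qm W)
  have h2 : H x (fun g : G => (g, qm W g)) = ent x := by
    rw [ent_eq_H]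
    exact (H_congr hx (fun g : G => g) (fun g : G => (g, qm W g)) (fun g => (g, qm W g)) Prod.fst
      (fun _ => rfl) (fun _ => rfl)).symm
  rw [h2] at h1
  have h3 := H_cond_sum hx (qm V) (qm W)
  have h4 : H x (fun g : G => (qm V g, qm W g)) = hq x V := by
    refine (H_congr hx (qm V) (fun g : G => (qm V g, qm W g)) (fun c => (c, qm W c.out)) Prod.fst
      (fun g => ?_) (fun _ => rfl)).symm
    have h5 : qm W g = qm W (qm V g).out := by
      rw [Unis_qm]
      apply h
      rw [← Unis_qm]
      exact (QuotientAddGroup.out_eq' _).symm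
    rw [h5]
  rw [h4] at h3
  have e1 : ∀ a, pr x (qm W) a * rd (cnd x (qm W) a) (uS V) =
      pr x (qm W) a * H (cnd x (qm W) a) (qm V) + pr x (qm W) a * (lc V / 2)
      - pr x (qm W) a * H (cnd x (qm W) a) (fun g => g) / 2 := by
    intro a
    rcases (pr_nonneg hx (qm W) a).lt_or_eq with ha | ha
    · rw [rd_uS (cnd_isP hx _ _ ha) V]
      unfold Dq hq
      rw [ent_eq_H]
      ring
    · rw [← ha]
      ring
  simp only [e1, Finset.sum_sub_distrib, Finset.sum_add_distrib]
  rw [← Finset.sum_div, ← Finset.sum_mul, hx1]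
  have h6 : ∑ b, pr x (qm W) b * H (cnd x (qm W) b) (qm V) = hq x V - hq x W := by
    rw [h3]; unfold hq; ring
  have h7 : ∑ b, pr x (qm W) b * H (cnd x (qm W) b) (fun g => g) = ent x - hq x W := by
    rw [h1]; unfold hq; ring
  rw [h6, h7]
  unfold Dq
  ring

end Pool.Agent.WPF
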