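import Pool.Agent.WPF.Fib
import Pool.Agent.WPF.Unis
import Pool.Agent.WPF.PfrW
set_option autoImplicit false

/-!
# Module CondPfr.  Conditional entropic PFR.

Write `x_a = cnd x (qm W) a`, `y_b = cnd y (qm W) b`, `B = 1201 m⁸`, `c = cq x y W`.
By `cq_eq_sum` and `exists_le_avg` there is `b₀` with `0 < pr y (qm W) b₀` and
`R := ∑ a, pr x (qm W) a * rd x_a y_{b₀} ≤ c`.  Put `z = y_{b₀}` (supported on a coset of `W`) and
take `V` from `pfr_coset`.  Then for `pr x (qm W) a > 0`: `rd z z ≤ 2 rd x_a z` (`rd_self_le`), so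
`rd z z ≤ 2 R ≤ 2 c`, and `rd x_a (uS V) ≤ rd x_a z + B rd z z`, so
`∑ a, P(a) rd x_a (uS V) ≤ (1 + 2 B) c`.  Also `rd y_b (uS V) ≤ rd y_b x_a + rd x_a (uS V)`, so
`∑ b, P(b) rd y_b (uS V) ≤ c + (1 + 2 B) c`.  By `avg_rd_uS` the sum of the two averages is half of
the left hand side: it is at most `(3 + 4 B) c`, and `cP m = 2 (3 + 4 B)`.
-/
namespace Pool.Agent.WPF
open Finset Pool.Agent.Ldc
variable {G : Type} [AddCommGroup G] [Fintype G] {x y : G → ℝ}

theorem cond_pfr {m : ℕ} (hm : 3 ≤ m) (hx : IsP x) (hy : IsP y) (W : AddSubgroup G)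
    (hW : ∀ w ∈ W, m • w = 0) :
    ∃ V ≤ W, Dq x V + Dq y V + (hq x V - hq x W) + (hq y V - hq y W) ≤ (cP m : ℝ) * cq x y W := by
  classical
  let _ : Fintype (G ⧸ W) := Fintype.ofFinite _
  set P : G ⧸ W → ℝ := fun a => pr x (qm W) a with hP
  set Q : G ⧸ W → ℝ := fun b => pr y (qm W) b with hQ
  set xa : G ⧸ W → G → ℝ := fun a => cnd x (qm W) a with hxa
  set yb : G ⧸ W → G → ℝ := fun b => cnd y (qm W) b with hyb
  have hP0 : ∀ a, 0 ≤ P a := fun a => pr_nonneg hx _ _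
  have hQ0 : ∀ b, 0 ≤ Q b := fun b => pr_nonneg hy _ _
  have hP1 : ∑ a, P a = 1 := (pr_isP hx (qm W)).2
  have hQ1 : ∑ b, Q b = 1 := (pr_isP hy (qm W)).2
  have hxaP : ∀ a, 0 < P a → IsP (xa a) := fun a ha => cnd_isP hx _ _ ha
  have hybP : ∀ b, 0 < Q b → IsP (yb b) := fun b hb => cnd_isP hy _ _ hb
  set c : ℝ := cq x y W with hc
  have hcs : c = ∑ a, ∑ b, P a * Q b * rd (xa a) (yb b) := cq_eq_sum hx hy W
  have hcs' : ∑ b, Q b * (∑ a, P a * rd (xa a) (yb b)) = c := by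
    rw [hcs, sum_comm]
    refine sum_congr rfl fun b _ => ?_
    rw [mul_sum]
    refine sum_congr rfl fun a _ => ?_
    ring
  obtain ⟨b₀, hb₀, hR⟩ := exists_le_avg hy (qm W) (fun b => ∑ a, P a * rd (xa a) (yb b)) c
    (le_of_eq hcs')
  have hz : IsP (yb b₀) := hybP b₀ hb₀
  obtain ⟨g₀, hg₀, hg₀'⟩ := exists_of_pr_pos hy (qm W) hb₀
  obtain ⟨V, hVW, hV⟩ := pfr_coset hm W hW hz g₀ (fun g hg => by
    have h1 : qm W g = b₀ := by
      by_contra h
      exact hg (by simp only [hyb, cnd, if_neg h])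
    rw [← hg₀'] at h1
    exact (QuotientAddGroup.eq_iff_sub_mem (N := W)).1 h1)
  refine ⟨V, hVW, ?_⟩
  set B : ℝ := 1201 * (m : ℝ) ^ 8 with hB
  have hB0 : 0 ≤ B := by positivity
  set z := yb b₀ with hzd
  have hU : IsP (uS V) := uS_isP V
  have hzz0 : 0 ≤ rd z z := rd_nonneg hz hz
  have hzz : rd z z ≤ 2 * c := by
    have h1 : rd z z = ∑ a, P a * rd z z := by rw [← sum_mul, hP1, one_mul]
    have h2 : ∑ a, P a * rd z z ≤ ∑ a, P a * (2 * rd (xa a) z) := by
      refine sum_le_sum fun a _ => ?_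
      rcases (hP0 a).eq_or_lt with h0 | h0
      · rw [← h0]; simp
      · refine mul_le_mul_of_nonneg_left ?_ (hP0 a)
        have := rd_self_le hz (hxaP a h0)
        rwa [rd_comm z (xa a)] at this
    have h3 : ∑ a, P a * (2 * rd (xa a) z) = 2 * ∑ a, P a * rd (xa a) z := by
      rw [mul_sum]
      refine sum_congr rfl fun a _ => ?_
      ring
    rw [h1]
    refine h2.trans ?_
    rw [h3]
    linarith
  have hX : ∑ a, P a * rd (xa a) (uS V) ≤ c + 2 * B * c := by
    have h2 : ∑ a, P a * rd (xa a) (uS V) ≤ ∑ a, (P a * rd (xa a) z + P a * (B * rd z z)) := by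
      refine sum_le_sum fun a _ => ?_
      rcases (hP0 a).eq_or_lt with h0 | h0
      · rw [← h0]; simp
      · rw [← mul_add]
        refine mul_le_mul_of_nonneg_left ?_ (hP0 a)
        exact (rd_triangle (hxaP a h0) hz hU).trans (by linarith)
    refine h2.trans ?_
    rw [sum_add_distrib, ← sum_mul, hP1, one_mul]
    have h3 : B * rd z z ≤ B * (2 * c) := mul_le_mul_of_nonneg_left hzz hB0
    have h4 : ∑ a, P a * rd (xa a) z ≤ c := hR
    linarith
  have hY : ∑ b, Q b * rd (yb b) (uS V) ≤ c + (c + 2 * B * c) := by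
    have h2 : ∀ b, Q b * rd (yb b) (uS V) ≤
        Q b * (∑ a, P a * rd (xa a) (yb b)) + Q b * ∑ a, P a * rd (xa a) (uS V) := by
      intro b
      rcases (hQ0 b).eq_or_lt with h0 | h0
      · rw [← h0]; simp
      · rw [← mul_add]
        refine mul_le_mul_of_nonneg_left ?_ (hQ0 b)
        rw [← sum_add_distrib]
        have h3 : rd (yb b) (uS V) = ∑ a, P a * rd (yb b) (uS V) := by rw [← sum_mul, hP1, one_mul]
        rw [h3]
        refine sum_le_sum fun a _ => ?_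
        rcases (hP0 a).eq_or_lt with h0' | h0'
        · rw [← h0']; simp
        · rw [← mul_add]
          refine mul_le_mul_of_nonneg_left ?_ (hP0 a)
          rw [rd_comm (xa a) (yb b)]
          exact rd_triangle (hybP b h0) (hxaP a h0') hU
    refine (sum_le_sum fun b _ => h2 b).trans ?_
    rw [sum_add_distrib, hcs', ← sum_mul, hQ1, one_mul]
    linarith
  have eX := avg_rd_uS hx hVW
  have eY := avg_rd_uS hy hVW
  have eX' : ∑ a, P a * rd (xa a) (uS V) = (hq x V - hq x W + Dq x V) / 2 := eX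
  have eY' : ∑ b, Q b * rd (yb b) (uS V) = (hq y V - hq y W + Dq y V) / 2 := eY
  rw [eX'] at hX
  rw [eY'] at hY
  have hcP : (cP m : ℝ) = 6 + 8 * B := by
    rw [cP, hB]
    push_cast
    ring
  rw [hcP]
  linarith

end Pool.Agent.WPF
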