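import Pool.Agent.WPF.Defs
set_option autoImplicit false

/-!
# Module Cyc.  Cyclic factors of a finite group killed by a power of `m`.

`AddCommGroup.equiv_directSum_zmod_of_finite'`: `Q ≃+ ⨁ i, ZMod (N i)` with `1 < N i`, `ι` a fintype
(`DirectSum.addEquivProd`).  Since `m ^ k • Q = 0`, `N i ∣ m ^ k`, so a prime `p i ∣ N i` divides `m`; the element `N i / p i`
of `ZMod (N i)` is nonzero and is killed by `m`.  For `c : ι → Bool` the element with coordinates `N i / p i` or `0`
is in `torG m Q`; this is injective in `c`.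
-/
namespace Pool.Agent.WPF

theorem cyc (Q : Type) [AddCommGroup Q] [Finite Q] (m k : ℕ) (hm : 1 ≤ m)
    (hQ : ∀ q : Q, m ^ k • q = 0) :
    ∃ (ι : Type) (_ : Fintype ι) (N : ι → ℕ), (∀ i, 1 < N i) ∧
      Nonempty (Q ≃+ (∀ i, ZMod (N i))) ∧ 2 ^ Fintype.card ι ≤ Nat.card (torG m Q) := by
  classical
  obtain ⟨ι, hι, N, hN, ⟨e⟩⟩ := AddCommGroup.equiv_directSum_zmod_of_finite' Q
  let e' : Q ≃+ ∀ i, ZMod (N i) := e.trans (DirectSum.addEquivProd _)
  refine ⟨ι, hι, N, hN, ⟨e'⟩, ?_⟩
  have hdvd : ∀ i, N i ∣ m ^ k := by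
    intro i
    have h1 := hQ (e'.symm (Pi.single i 1))
    have h2 : e' (m ^ k • e'.symm (Pi.single i 1)) = 0 := by rw [h1, map_zero]
    rw [map_nsmul, AddEquiv.apply_symm_apply] at h2
    have h3 := congrFun h2 i
    rw [Pi.smul_apply, Pi.single_eq_same, Pi.zero_apply, nsmul_eq_mul, mul_one] at h3
    exact (ZMod.natCast_eq_zero_iff _ _).mp h3
  have hp : ∀ i, ∃ p : ℕ, p.Prime ∧ p ∣ N i ∧ p ∣ m := by
    intro i
    obtain ⟨p, hp1, hp2⟩ := Nat.exists_prime_and_dvd (hN i).ne'
    exact ⟨p, hp1, hp2, hp1.dvd_of_dvd_pow (hp2.trans (hdvd i))⟩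
  choose p hp1 hp2 hp3 using hp
  let u : ∀ i, ZMod (N i) := fun i => ((N i / p i : ℕ) : ZMod (N i))
  have hu0 : ∀ i, u i ≠ 0 := by
    intro i h
    have h1 := (ZMod.natCast_eq_zero_iff _ _).mp h
    have hNi : 0 < N i := by have := hN i; omega
    have h2 : 0 < N i / p i := Nat.div_pos (Nat.le_of_dvd hNi (hp2 i)) (hp1 i).pos
    have h3 : N i / p i < N i := Nat.div_lt_self hNi (hp1 i).one_lt
    exact absurd (Nat.le_of_dvd h2 h1) (by omega)
  have hum : ∀ i, m • u i = 0 := by
    intro i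
    obtain ⟨r, hr⟩ := hp3 i
    have h1 : ((p i * (N i / p i) : ℕ) : ZMod (N i)) = 0 := by
      rw [Nat.mul_div_cancel' (hp2 i)]
      exact ZMod.natCast_self _
    show m • ((N i / p i : ℕ) : ZMod (N i)) = 0
    rw [nsmul_eq_mul, hr]
    push_cast at h1 ⊢
    calc ((p i : ZMod (N i)) * r) * ((N i / p i : ℕ) : ZMod (N i))
        = r * ((p i : ZMod (N i)) * ((N i / p i : ℕ) : ZMod (N i))) := by ring
      _ = 0 := by rw [h1, mul_zero]
  have hmem : ∀ c : ι → Bool, e'.symm (fun i => if c i then u i else 0) ∈ torG m Q := by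
    intro c
    show nsmulAddMonoidHom (α := Q) m _ = 0
    show m • e'.symm (fun i => if c i then u i else 0) = 0
    rw [← map_nsmul]
    have : (m • fun i => if c i then u i else 0) = (0 : ∀ i, ZMod (N i)) := by
      funext i
      rw [Pi.smul_apply, Pi.zero_apply]
      by_cases h : c i
      · rw [if_pos h, hum]
      · rw [if_neg h, smul_zero]
    rw [this, map_zero]
  let φ : (ι → Bool) → torG m Q := fun c => ⟨_, hmem c⟩
  have hφ : Function.Injective φ := by
    intro c c' h
    have h1 : e'.symm (fun i => if c i then u i else 0) =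
        e'.symm (fun i => if c' i then u i else 0) := congrArg Subtype.val h
    have h2 := e'.symm.injective h1
    funext i
    have h3 := congrFun h2 i
    cases h4 : c i <;> cases h5 : c' i <;> simp [h4, h5] at h3 ⊢
    · exact hu0 i h3.symm
    · exact hu0 i h3
  have h := Nat.card_le_card_of_injective φ hφ
  have h2 : Nat.card (ι → Bool) = 2 ^ Fintype.card ι := by
    rw [Nat.card_eq_fintype_card]
    simp
  rw [h2] at h
  exact h

end Pool.Agent.WPF
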