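import Pool.Agent.Ldc.P7
set_option autoImplicit false

/-!
# Squad WPF (MP_ce784b_co), owner helper33.  Definitions.

Entropies modulo subgroups.  `x`, `y` are laws (`IsP`) on a finite abelian group `G`; `X`, `Y` are
independent random variables with these laws.

* `qm W g`    the coset `g + W`;
* `lc W`      `log |W|`;
* `hq x W`    `H[X mod W]`;
* `Dq x W`    `log |W| - H[X | X mod W] ≥ 0`;
* `dq x y W`  the entropic Ruzsa distance of `X mod W` and `Y mod W`;
* `cq x y W`  the conditional distance `Σ_{a,b} P(X ∈ a) P(Y ∈ b) d[X | X ∈ a ; Y | Y ∈ b]`;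
* `mulG m G`  `m G`, `torG m G` `= G[m]`, `divS m F` `= {g : m g ∈ F}`;
* `df m x`    `log |G / m G| - H[X mod m G] ≥ 0`;
* `cP m`      the constant of the conditional entropic PFR.
-/
namespace Pool.Agent.WPF
open Finset Pool.Agent.Ldc

/-- the coset of `g`, as a function of `g` -/
def qm {G : Type} [AddCommGroup G] (W : AddSubgroup G) : G → G ⧸ W :=
  fun g => (QuotientAddGroup.mk g : G ⧸ W)

/-- logarithm of the order of a subgroup -/
noncomputable def lc {G : Type} [AddCommGroup G] (W : AddSubgroup G) : ℝ := Real.log (Nat.card W)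

/-- `m G` -/
def mulG (m : ℕ) (G : Type) [AddCommGroup G] : AddSubgroup G := (nsmulAddMonoidHom (α := G) m).range

/-- `G[m]` -/
def torG (m : ℕ) (G : Type) [AddCommGroup G] : AddSubgroup G := (nsmulAddMonoidHom (α := G) m).ker

/-- `{g : m g ∈ F}` -/
def divS {G : Type} [AddCommGroup G] (m : ℕ) (F : AddSubgroup G) : AddSubgroup G :=
  F.comap (nsmulAddMonoidHom (α := G) m)

/-- the constant of the conditional entropic PFR -/
def cP (m : ℕ) : ℕ := 9608 * m ^ 8 + 6

section
variable {G : Type} [AddCommGroup G] [Fintype G]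

/-- entropy of `X` modulo `W` -/
noncomputable def hq (x : G → ℝ) (W : AddSubgroup G) : ℝ := H x (qm W)

/-- deficit of `X` on the cosets of `W`: `log |W| - H[X | X mod W]` -/
noncomputable def Dq (x : G → ℝ) (W : AddSubgroup G) : ℝ := lc W - (ent x - hq x W)

/-- entropic Ruzsa distance of `X mod W` and `Y mod W` -/
noncomputable def dq (x y : G → ℝ) (W : AddSubgroup G) : ℝ :=
  H (pp x y) (fun u => qm W (u.1 - u.2)) - hq x W / 2 - hq y W / 2

/-- conditional entropic Ruzsa distance of `X` given `X mod W` and `Y` given `Y mod W` -/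
noncomputable def cq (x y : G → ℝ) (W : AddSubgroup G) : ℝ :=
  (H (pp x y) (fun u => (u.1 - u.2, (qm W u.1, qm W u.2))) - hq x W - hq y W)
    - (ent x - hq x W) / 2 - (ent y - hq y W) / 2

/-- `log |G / m G| - H[X mod m G]` -/
noncomputable def df (m : ℕ) (x : G → ℝ) : ℝ :=
  lc (⊤ : AddSubgroup G) - lc (mulG m G) - hq x (mulG m G)

end

/-- at most `p ^ t` elements of the form `p y` with `p² y = 0`, for the primes `p` not dividing `m` -/
def PDepth (m t : ℕ) (G : Type) [AddCommGroup G] : Prop :=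
  ∀ p : ℕ, p.Prime → ¬ p ∣ m → {x : G | ∃ y : G, p • y = x ∧ p • x = 0}.Finite ∧
    {x : G | ∃ y : G, p • y = x ∧ p • x = 0}.ncard ≤ p ^ t

end Pool.Agent.WPF
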