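import Pool.Agent.WPF.Tor
set_option autoImplicit false

/-!
# Module Dil.  The dilate inequality.

`X - m Y` is congruent to `X` modulo `m G`, so (`H_cond_anti`, condition on `X` instead of `qm (mulG m G) X`)
`H(X - m Y) ≥ hq x (mulG m G) + H(X - m Y, X) - ent x`, and
`H(X - m Y, X) = H(m Y, X) = ent x + H(m Y)` (independence), `H(m Y) = hq y (torG m G)` (`m • g` and the
coset of `g` modulo `G[m]` determine one another, `H_congr`).  So
`hq x (mulG m G) + hq y (torG m G) ≤ H(X - m Y)`.
`H_dilate` for the laws `x` and `y' = fun g => y (-g)`, `c = m`: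
`H(X - m Y) ≤ ent x + m (H(X - Y) + H(X - X') - 2 ent x)`, `H(X - Y) = rd x y + ent x / 2 + ent y / 2`,
`H(X - X') = rd x x + ent x`, `rd x x ≤ 2 rd x y` (`rd_self_le`), `ent y - ent x ≤ 2 rd x y`
(`abs_ent_sub_le`): `H(X - m Y) ≤ ent x + 4 m rd x y ≤ ent y + (4 m + 2) rd x y`.
Conclude with `lc_tor`: `Dq y (torG m G) = lc (torG m G) - (ent y - hq y (torG m G))` and
`df m x = lc (torG m G) - hq x (mulG m G)`.
(change of variables `y ↦ y(-·)` in `H (pp x y) F`: reindex the sum, or `rd_neg_right`/`E6` lemmas;
`pp x y'` is the push-forward of `pp x y` under `(u, v) ↦ (u, -v)`.)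
-/
namespace Pool.Agent.WPF
open Finset Pool.Agent.Ldc
variable {G : Type} [AddCommGroup G] [Fintype G] {x y : G → ℝ}

/-- multiplication by `m` and the coset modulo the `m`-torsion determine one another -/
theorem Dil_tor (m : ℕ) (hy : IsP y) : H y (fun g => m • g) = hq y (torG m G) := by
  unfold hq
  have hinj : Function.Injective (QuotientAddGroup.kerLift (nsmulAddMonoidHom (α := G) m)) :=
    QuotientAddGroup.kerLift_injective _
  refine H_congr hy _ _ (Function.invFun (QuotientAddGroup.kerLift (nsmulAddMonoidHom (α := G) m)))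
    (QuotientAddGroup.kerLift (nsmulAddMonoidHom (α := G) m)) ?_ ?_
  · intro g
    exact ((Function.leftInverse_invFun hinj) (qm (torG m G) g)).symm
  · intro g
    rfl

/-- negation does not change the entropy modulo a subgroup -/
theorem Dil_neg (hy : IsP y) (W : AddSubgroup G) : hq (fun g => y (-g)) W = hq y W := by
  have h1 : (fun g => y (-g)) = pr y (fun g => -g) := by
    funext g
    unfold pr pe
    rw [Finset.sum_eq_single (-g)]
    · simp
    · intro b _ hb
      rw [if_neg]
      intro h
      exact hb (by rw [← h, neg_neg])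
    · intro h
      exact absurd (mem_univ _) h
  unfold hq
  rw [h1, H_law]
  refine H_congr hy _ _ (fun c => -c) (fun c => -c) ?_ ?_
  · intro g
    show qm W g = -(qm W (-g))
    unfold qm
    simp
  · intro g
    show qm W (-g) = -(qm W g)
    unfold qm
    simp

theorem Dil_isP (hy : IsP y) : IsP (fun g => y (-g)) := by
  refine ⟨fun g => hy.1 _, ?_⟩
  exact (Equiv.sum_comp (Equiv.neg G) y).trans hy.2

/-- lower bound for the entropy of `X + m Y` -/
theorem Dil_lower (m : ℕ) (hx : IsP x) (hy : IsP y) :
    hq x (mulG m G) + hq y (torG m G) ≤ H (pp x y) (fun u => u.1 + m • u.2) := by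
  have hp := pp_isP hx hy
  have h := H_cond_anti hp (fun u : G × G => u.1 + m • u.2) (fun u : G × G => u.1)
    (qm (mulG m G))
  have h1 : H (pp x y) (fun u : G × G => qm (mulG m G) u.1) = hq x (mulG m G) :=
    H_pp_fst hy (qm (mulG m G))
  have h2 : H (pp x y) (fun u : G × G => (u.1 + m • u.2, qm (mulG m G) u.1))
      = H (pp x y) (fun u => u.1 + m • u.2) := by
    refine H_congr hp _ _ (fun c => c.1) (fun c => (c, qm (mulG m G) c)) ?_ ?_
    · intro u
      rfl
    · intro u
      have : qm (mulG m G) u.1 = qm (mulG m G) (u.1 + m • u.2) := by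
        unfold qm
        rw [QuotientAddGroup.eq]
        refine ⟨u.2, ?_⟩
        simp
      show (u.1 + m • u.2, qm (mulG m G) u.1)
        = (u.1 + m • u.2, qm (mulG m G) (u.1 + m • u.2))
      rw [this]
  have h3 : H (pp x y) (fun u : G × G => (u.1 + m • u.2, u.1))
      = ent x + hq y (torG m G) := by
    have h4 : H (pp x y) (fun u : G × G => (u.1 + m • u.2, u.1))
        = H (pp x y) (fun u : G × G => (u.1, m • u.2)) := by
      refine H_congr hp _ _ (fun c => (c.2, c.1 - c.2)) (fun c => (c.1 + c.2, c.1)) ?_ ?_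
      · intro u
        simp
      · intro u
        rfl
    rw [h4, H_indep hp (fun u : G × G => u.1) (fun u : G × G => m • u.2)
      (indep_pp hx hy (fun g => g) (fun g => m • g))]
    rw [show H (pp x y) (fun u : G × G => u.1) = H x (fun g => g) from H_pp_fst hy (fun g => g),
      ← ent_eq_H, show H (pp x y) (fun u : G × G => m • u.2) = H y (fun g => m • g) from
        H_pp_snd hx (fun g => m • g), Dil_tor m hy]
  have h5 : H (pp x y) (fun u : G × G => u.1) = ent x := by
    rw [show H (pp x y) (fun u : G × G => u.1) = H x (fun g => g) from H_pp_fst hy (fun g => g),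
      ← ent_eq_H]
  rw [h1, h2, h3, h5] at h
  linarith

theorem dilate {m : ℕ} (hm : 1 ≤ m) (hx : IsP x) (hy : IsP y) :
    Dq y (torG m G) ≤ df m x + (4 * (m : ℝ) + 2) * rd x y := by
  have hy' := Dil_isP hy
  have h1 := Dil_lower m hx hy'
  rw [Dil_neg hy] at h1
  have h2 := H_dilate hx hy' m
  have h3 := rd_neg_right x (fun g => y (-g))
  simp only [neg_neg] at h3
  rw [ent_neg] at h3
  have h4 : H (pp x x) (fun u => u.1 - u.2) = rd x x + ent x := by
    unfold rd
    ring
  have h5 := rd_self_le hx hy
  have h6 := abs_le.1 (abs_ent_sub_le hx hy)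
  have h7 := rd_nonneg hx hy
  have h8 := lc_tor (G := G) m
  have hm' : (1 : ℝ) ≤ m := by exact_mod_cast hm
  unfold Dq df
  have h9 : H (pp x fun g => y (-g)) (fun u => u.1 + u.2) = rd x y + ent x / 2 + ent y / 2 := by
    have : rd x (fun g => y g) = rd x y := rfl
    rw [this] at h3
    linarith
  rw [h9, h4] at h2
  have h10 : (m : ℝ) * (rd x y + ent x / 2 + ent y / 2 + (rd x x + ent x) - 2 * ent x)
      ≤ m * (4 * rd x y) := by
    apply mul_le_mul_of_nonneg_left _ (by linarith)
    linarith [h6.1, h6.2]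
  linarith [h6.1, h6.2]

end Pool.Agent.WPF
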