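import Pool.Agent.H72.CE.Reduce
set_option autoImplicit false

/-!
# Module Emb.  Transfer of models from a subset in a coset of a subgroup.

`A₁' = (a₀ + i ·) '' A₁ ⊆ A`, where `A₁ ⊆ A₂` is the set from `ModelR A₂ c C`; model map `ψ' g = ψ (the preimage of g - a₀)`
(`Function.invFun i (g - a₀)`).  `a₀ + i g₁ + a₀ + i g₂ = ...` iff `g₁ + g₂ = ...`.
-/
namespace Pool.Agent.WPF
open Pool.Agent.H72.CE

theorem ModelR.of_emb {G G₂ : Type} [AddCommGroup G] [AddCommGroup G₂] (i : G₂ →+ G)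
    (hi : Function.Injective i) (a₀ : G) (A : Set G) (A₂ : Set G₂)
    (hsub : ∀ g ∈ A₂, a₀ + i g ∈ A) {c' c C : ℝ} (hc' : 0 ≤ c')
    (hcard : (A.ncard : ℝ) ≤ c' * (A₂.ncard : ℝ))
    (h : ModelR A₂ c C) : ModelR A (c' * c) C := by
  obtain ⟨A₁, hA₁, hc, H, iH, iF, ψ, hψ, hH⟩ := h
  have hinj : Function.Injective (fun g : G₂ => a₀ + i g) := fun x y hxy =>
    hi (add_left_cancel hxy)
  have hn : ((fun g : G₂ => a₀ + i g) '' A₁).ncard = A₁.ncard := Set.ncard_image_of_injective _ hinj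
  have hinv : ∀ x : G₂, Function.invFun i (a₀ + i x - a₀) = x := by
    intro x
    rw [add_sub_cancel_left]
    exact Function.leftInverse_invFun hi x
  refine ⟨(fun g : G₂ => a₀ + i g) '' A₁, ?_, ?_, H, iH, iF,
    fun g => ψ (Function.invFun i (g - a₀)), ?_, ?_⟩
  · rintro _ ⟨g, hg, rfl⟩
    exact hsub g (hA₁ hg)
  · rw [hn, mul_assoc]
    exact hcard.trans (mul_le_mul_of_nonneg_left hc hc')
  · rintro _ ⟨x, hx, rfl⟩ _ ⟨y, hy, rfl⟩ _ ⟨z, hz, rfl⟩ _ ⟨t, ht, rfl⟩
    simp only [hinv]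
    rw [← hψ x hx y hy z hz t ht]
    constructor
    · intro h
      apply hi
      rw [map_add, map_add]
      have h1 : (a₀ + a₀) + (i x + i y) = (a₀ + a₀) + (i z + i t) := by
        have h2 : a₀ + i x + (a₀ + i y) = a₀ + i z + (a₀ + i t) := h
        rw [add_add_add_comm, h2, add_add_add_comm]
      exact add_left_cancel h1
    · intro h
      have h1 := congrArg i h
      rw [map_add, map_add] at h1
      rw [add_add_add_comm, h1, add_add_add_comm]
  · rw [hn]
    exact hH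

/-- monotonicity in the constants -/
theorem ModelR.mono {G : Type} [AddCommGroup G] {A : Set G} {c C c' C' : ℝ} (hc : c ≤ c')
    (hC : C ≤ C') (h : ModelR A c C) : ModelR A c' C' := by
  obtain ⟨A₁, hA₁, hc1, H, iH, iF, ψ, hψ, hH⟩ := h
  have h0 : (0 : ℝ) ≤ (A₁.ncard : ℝ) := Nat.cast_nonneg _
  exact ⟨A₁, hA₁, hc1.trans (mul_le_mul_of_nonneg_right hc h0), H, iH, iF, ψ, hψ,
    hH.trans (mul_le_mul_of_nonneg_right hC h0)⟩

open scoped Pointwise in
theorem card_add_self_le {G G₂ : Type} [AddCommGroup G] [AddCommGroup G₂] [DecidableEq G]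
    [DecidableEq G₂] (i : G₂ →+ G) (hi : Function.Injective i) (a₀ : G) (A : Finset G)
    (A₂ : Finset G₂) (hsub : ∀ g ∈ A₂, a₀ + i g ∈ A) : (A₂ + A₂).card ≤ (A + A).card := by
  refine Finset.card_le_card_of_injOn (fun s => (a₀ + a₀) + i s) ?_ ?_
  · intro s hs
    obtain ⟨x, hx, y, hy, rfl⟩ := Finset.mem_add.1 hs
    refine Finset.mem_coe.2 (Finset.mem_add.2 ⟨a₀ + i x, hsub x hx, a₀ + i y, hsub y hy, ?_⟩)
    simp only [map_add]
    rw [add_add_add_comm]
  · intro s _ t _ hst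
    exact hi (add_left_cancel hst)

open scoped Pointwise in
/-- a Freiman homomorphism of order `2` does not increase the number of sums -/
theorem card_add_image_le {G G' : Type} [AddCommGroup G] [AddCommGroup G'] [DecidableEq G]
    [DecidableEq G'] (A : Finset G) (f : G → G')
    (hf : ∀ x ∈ A, ∀ y ∈ A, ∀ z ∈ A, ∀ w ∈ A, x + y = z + w → f x + f y = f z + f w) :
    (A.image f + A.image f).card ≤ (A + A).card := by
  classical
  have hex : ∀ s : G, ∃ v : G', s ∈ A + A → ∀ x ∈ A, ∀ y ∈ A, x + y = s → f x + f y = v := by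
    intro s
    by_cases hs : s ∈ A + A
    · obtain ⟨x, hx, y, hy, hxy⟩ := Finset.mem_add.1 hs
      refine ⟨f x + f y, fun _ z hz w hw hzw => ?_⟩
      exact hf z hz w hw x hx y hy (hzw.trans hxy.symm)
    · exact ⟨0, fun h => absurd h hs⟩
  choose g hg using hex
  have hsub : A.image f + A.image f ⊆ (A + A).image g := by
    intro u hu
    obtain ⟨a, ha, b, hb, rfl⟩ := Finset.mem_add.1 hu
    obtain ⟨x, hx, rfl⟩ := Finset.mem_image.1 ha
    obtain ⟨y, hy, rfl⟩ := Finset.mem_image.1 hb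
    have hs : x + y ∈ A + A := Finset.add_mem_add hx hy
    exact Finset.mem_image.2 ⟨x + y, hs, (hg (x + y) hs x hx y hy rfl).symm⟩
  exact (Finset.card_le_card hsub).trans Finset.card_image_le

end Pool.Agent.WPF
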