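import Pool.Agent.WPF.Low
import Pool.Agent.WPF.Dil
set_option autoImplicit false

/-!
# Module ExF.  Main entropic statement.

Let `S` be the (finite) set of subgroups `F` of `G` with `m^k F = 0` for some `k`; `⊥ ∈ S`.  Put
`Θ(F) = Dq x F + Dq y F + cP m * dq x y F`; choose `F ∈ S` minimising `Θ`, and among the minimisers one
with `Nat.card F` maximal.
`Θ(F) ≤ Θ(⊥) = cP m * rd x y` (`Dq_bot`, `dq_bot`), and `dq_nonneg`: second claim.
Let `Q = G ⧸ F`, `φ` the quotient map, `p, q` the push-forwards of `x, y`.  `low` for `W = torG m Q` (`m • W = 0`)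
gives `V ≤ W` with `Dq p V + Dq q V ≤ cP m * cq p q V` and `lc W - lc V ≤ Dq p W + Dq q W`.
Let `V' = V.comap φ`; `V' ∈ S` (for `v ∈ V'`, `m v ∈ F`).  By `Dq_comap`, `dq_pr`, `rd_pr`, `dq_add_cq_le`
`Θ(V') = Dq x F + Dq y F + Dq p V + Dq q V + cP m * dq p q V
  ≤ Dq x F + Dq y F + cP m * (cq p q V + dq p q V) ≤ Dq x F + Dq y F + cP m * rd p q = Θ(F)`.
So `V'` is a minimiser, `Nat.card V' ≤ Nat.card F` and `F ≤ V'`, so `V' = F`, `V = ⊥` (`lc V = 0`; e.g. from
`lc_comap`, or directly).  Hence `lc W ≤ Dq p W + Dq q W`, and by `dilate` in `Q` (twice, `rd_comm`) this is at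
most `df m p + df m q + (8 m + 4) rd p q`; `df_pr`; `rd p q = dq x y F ≤ rd x y`.
Finally `divS m F = (torG m Q).comap φ`, `lc (divS m F) - lc F = lc W` (`lc_comap`).
-/
namespace Pool.Agent.WPF
open Finset Pool.Agent.Ldc
variable {G : Type} [AddCommGroup G] [Fintype G] {x y : G → ℝ}

theorem exists_F {m : ℕ} (hm : 3 ≤ m) (hx : IsP x) (hy : IsP y) :
    ∃ F : AddSubgroup G, (∃ k : ℕ, ∀ f ∈ F, m ^ k • f = 0) ∧
      Dq x F + Dq y F ≤ (cP m : ℝ) * rd x y ∧
      lc (divS m F) - lc F ≤ df m x + df m y + (8 * (m : ℝ) + 4) * rd x y := by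
  classical
  -- the set of admissible subgroups
  let S : Finset (AddSubgroup G) := (Set.toFinite {F : AddSubgroup G | ∃ k : ℕ, ∀ f ∈ F, m ^ k • f = 0}).toFinset
  have hS : ∀ F : AddSubgroup G, F ∈ S ↔ ∃ k : ℕ, ∀ f ∈ F, m ^ k • f = 0 := by
    intro F
    simp [S]
  have hbot : (⊥ : AddSubgroup G) ∈ S := by
    rw [hS]
    refine ⟨0, fun f hf => ?_⟩
    rw [AddSubgroup.mem_bot.1 hf, smul_zero]
  set Θ : AddSubgroup G → ℝ := fun F => Dq x F + Dq y F + (cP m : ℝ) * dq x y F with hΘ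
  obtain ⟨F₀, hF₀S, hF₀⟩ := S.exists_min_image Θ ⟨_, hbot⟩
  let S' : Finset (AddSubgroup G) := S.filter (fun F => Θ F = Θ F₀)
  have hF₀S' : F₀ ∈ S' := by simp [S', hF₀S]
  obtain ⟨F, hFS', hFmax⟩ := S'.exists_max_image (fun F => Nat.card F) ⟨_, hF₀S'⟩
  have hFS : F ∈ S := (mem_filter.1 hFS').1
  have hFΘ : Θ F = Θ F₀ := (mem_filter.1 hFS').2
  have hFmin : ∀ F' ∈ S, Θ F ≤ Θ F' := fun F' hF' => by
    rw [hFΘ]
    exact hF₀ F' hF'
  obtain ⟨k, hk⟩ := (hS F).1 hFS
  have hcP0 : (0 : ℝ) ≤ (cP m : ℝ) := Nat.cast_nonneg _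
  refine ⟨F, ⟨k, hk⟩, ?_, ?_⟩
  · have h1 := hFmin ⊥ hbot
    simp only [hΘ] at h1
    rw [Dq_bot hx, Dq_bot hy, dq_bot hx hy] at h1
    have h2 := dq_nonneg hx hy F
    have h3 : 0 ≤ (cP m : ℝ) * dq x y F := mul_nonneg hcP0 h2
    linarith
  · let _ : Fintype (G ⧸ F) := Fintype.ofFinite _
    set φ : G →+ (G ⧸ F) := QuotientAddGroup.mk' F with hφd
    have hφ : Function.Surjective φ := QuotientAddGroup.mk'_surjective F
    have hker : φ.ker = F := QuotientAddGroup.ker_mk' F
    set p : (G ⧸ F) → ℝ := pr x (fun g => φ g) with hp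
    set q : (G ⧸ F) → ℝ := pr y (fun g => φ g) with hq'
    have hpP : IsP p := pr_isP hx _
    have hqP : IsP q := pr_isP hy _
    have hWtor : ∀ w ∈ torG m (G ⧸ F), m • w = 0 := by
      intro w hw
      exact hw
    obtain ⟨V, hVW, hV1, hV2⟩ := low hm hpP hqP (torG m (G ⧸ F)) hWtor
    set V' : AddSubgroup G := V.comap φ with hV'
    have hFV' : F ≤ V' := by
      intro f hf
      rw [hV', AddSubgroup.mem_comap]
      have : φ f = 0 := by
        rw [← AddMonoidHom.mem_ker, hker]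
        exact hf
      rw [this]
      exact V.zero_mem
    have hV'S : V' ∈ S := by
      rw [hS]
      refine ⟨k + 1, fun v hv => ?_⟩
      have h1 : φ v ∈ torG m (G ⧸ F) := hVW hv
      have h2 : m • φ v = 0 := hWtor _ h1
      rw [← map_nsmul, ← AddMonoidHom.mem_ker, hker] at h2
      rw [pow_succ, mul_smul]
      exact hk _ h2
    have eDx : Dq x V' = Dq x F + Dq p V := by
      have := Dq_comap hx φ hφ V
      rwa [hker] at this
    have eDy : Dq y V' = Dq y F + Dq q V := by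
      have := Dq_comap hy φ hφ V
      rwa [hker] at this
    have edq : dq p q V = dq x y V' := dq_pr hx hy φ hφ V
    have erd : rd p q = dq x y F := by
      have := rd_pr hx hy φ hφ
      rwa [hker] at this
    have hle := dq_add_cq_le hpP hqP V
    have hΘV' : Θ V' ≤ Θ F := by
      simp only [hΘ]
      rw [eDx, eDy, ← edq, ← erd]
      have h3 : (cP m : ℝ) * (dq p q V + cq p q V) ≤ (cP m : ℝ) * rd p q :=
        mul_le_mul_of_nonneg_left hle hcP0
      linarith
    have hΘV'' : Θ V' = Θ F₀ := by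
      have := hFmin V' hV'S
      rw [← hFΘ]
      exact le_antisymm hΘV' this
    have hV'S' : V' ∈ S' := by
      simp only [S', mem_filter]
      exact ⟨hV'S, hΘV''⟩
    have hcard : Nat.card V' ≤ Nat.card F := hFmax V' hV'S'
    have hVbot : lc V = 0 := by
      have h1 : lc V' = lc F + lc V := by
        have := lc_comap φ hφ V
        rwa [hker] at this
      have h2 : lc V' ≤ lc F := by
        unfold lc
        refine Real.log_le_log ?_ (by exact_mod_cast hcard)
        exact_mod_cast Nat.card_pos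
      have h3 : 0 ≤ lc V := by
        unfold lc
        refine Real.log_nonneg ?_
        exact_mod_cast (Nat.card_pos : 0 < Nat.card V)
      linarith
    have hmul : 1 ≤ m := by omega
    have d1 := dilate hmul hpP hqP
    have d2 := dilate hmul hqP hpP
    rw [rd_comm q p] at d2
    have e1 : df m p ≤ df m x := df_pr m hx φ hφ
    have e2 : df m q ≤ df m y := df_pr m hy φ hφ
    have e3 : dq x y F ≤ rd x y := dq_le_rd hx hy F
    have e4 : lc (divS m F) = lc F + lc (torG m (G ⧸ F)) := by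
      have h1 : divS m F = (torG m (G ⧸ F)).comap φ := by
        ext g
        have h2 : g ∈ divS m F ↔ m • g ∈ F := Iff.rfl
        have h3 : g ∈ (torG m (G ⧸ F)).comap φ ↔ m • φ g = 0 := Iff.rfl
        rw [h2, h3, ← map_nsmul, ← AddMonoidHom.mem_ker, hker]
      rw [h1, lc_comap φ hφ, hker]
    rw [e4]
    rw [erd] at d1 d2
    have hm0 : (0 : ℝ) ≤ m := Nat.cast_nonneg m
    have e5 : (8 * (m : ℝ) + 4) * dq x y F ≤ (8 * (m : ℝ) + 4) * rd x y :=
      mul_le_mul_of_nonneg_left e3 (by positivity)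
    linarith

end Pool.Agent.WPF
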