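import Pool.Agent.WPF.Hq

/-!
# Module Fib.  Fibring inequality and the conditional distance as an average.

* `dq_add_cq_le`: `H(X - Y) = H(X - Y, qm W (X - Y))` and by `H_cond_anti` (condition on
  `(qm W X, qm W Y)` instead of its function `qm W (X - Y)`)
  `H(X - Y) ≥ H(qm W (X - Y)) + H(X - Y, (qm W X, qm W Y)) - H(qm W X, qm W Y)`, and
  `H(qm W X, qm W Y) = hq x W + hq y W` (`indep_pp`, `H_indep`, `H_pp_fst`, `H_pp_snd`).
* `cq_eq_sum`: `H_cond_sum` for `f = X - Y`, `g = (qm W X, qm W Y)` on `pp x y`; the conditioned law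
  `cnd (pp x y) g (a, b)` is `pp (cnd x (qm W) a) (cnd y (qm W) b)`, `pr (pp x y) g (a, b)` is
  `pr x (qm W) a * pr y (qm W) b`;  also `H_cond_sum` for `x`, `f = id`, `g = qm W` (and
  `ent_eq_H`):  `ent x - hq x W = ∑ a, pr x (qm W) a * ent (cnd x (qm W) a)`; unfold `rd`.
* `cq_nonneg` from `cq_eq_sum`, `rd_nonneg`, `cnd_isP`.
-/
set_option autoImplicit false

namespace Pool.Agent.WPF
open Finset Pool.Agent.Ldc
variable {G : Type} [AddCommGroup G] [Fintype G] {x y : G → ℝ}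

/-- `H[X | X mod W]` as an average -/
theorem ent_sub_hq (hx : IsP x) (W : AddSubgroup G) [Fintype (G ⧸ W)] :
    ent x - hq x W = ∑ a, pr x (qm W) a * ent (cnd x (qm W) a) := by
  have h1 := H_cond_sum hx (fun g : G => g) (qm W)
  have h2 : H x (fun g : G => (g, qm W g)) = ent x := by
    rw [ent_eq_H]
    exact (H_congr hx (fun g : G => g) (fun g : G => (g, qm W g)) (fun g => (g, qm W g)) Prod.fst
      (fun _ => rfl) (fun _ => rfl)).symm
  rw [h2] at h1
  unfold hq
  rw [h1, add_sub_cancel_left]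
  exact Finset.sum_congr rfl fun a _ => by rw [ent_eq_H]

theorem Fib_pr (hx : IsP x) (hy : IsP y) (W : AddSubgroup G) (a b : G ⧸ W) :
    pr (pp x y) (fun u : G × G => (qm W u.1, qm W u.2)) (a, b) =
      pr x (qm W) a * pr y (qm W) b := by
  rw [indep_pp hx hy (qm W) (qm W) a b, pr_pp_fst hy, pr_pp_snd hx]

theorem Fib_cnd (hx : IsP x) (hy : IsP y) (W : AddSubgroup G) (a b : G ⧸ W) :
    cnd (pp x y) (fun u : G × G => (qm W u.1, qm W u.2)) (a, b) =
      pp (cnd x (qm W) a) (cnd y (qm W) b) := by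
  funext u
  unfold cnd
  rw [Fib_pr hx hy W a b]
  unfold pp
  dsimp only
  by_cases h1 : qm W u.1 = a
  · by_cases h2 : qm W u.2 = b
    · rw [if_pos (by rw [h1, h2]), if_pos h1, if_pos h2, div_mul_div_comm]
    · rw [if_neg (by rintro h; exact h2 (Prod.mk.inj h).2), if_neg h2, mul_zero]
  · rw [if_neg (by rintro h; exact h1 (Prod.mk.inj h).1), if_neg h1, zero_mul]

theorem Fib_H (hx : IsP x) (hy : IsP y) (W : AddSubgroup G) :
    H (pp x y) (fun u : G × G => (qm W u.1, qm W u.2)) = hq x W + hq y W := by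
  rw [H_indep (pp_isP hx hy) (fun u : G × G => qm W u.1) (fun u => qm W u.2)
    (indep_pp hx hy (qm W) (qm W)), H_pp_fst hy, H_pp_snd hx]
  rfl

theorem cq_eq_sum (hx : IsP x) (hy : IsP y) (W : AddSubgroup G) [Fintype (G ⧸ W)] :
    cq x y W = ∑ a, ∑ b, pr x (qm W) a * pr y (qm W) b *
      rd (cnd x (qm W) a) (cnd y (qm W) b) := by
  have h1 := H_cond_sum (pp_isP hx hy) (fun u : G × G => u.1 - u.2)
    (fun u => (qm W u.1, qm W u.2))
  rw [Fib_H hx hy W, Fintype.sum_prod_type] at h1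
  have hx1 := (pr_isP hx (qm W)).2
  have hy1 := (pr_isP hy (qm W)).2
  have h2 : ∑ a, ∑ b, pr x (qm W) a * pr y (qm W) b * rd (cnd x (qm W) a) (cnd y (qm W) b) =
      (∑ a, ∑ b, pr (pp x y) (fun u : G × G => (qm W u.1, qm W u.2)) (a, b) *
        H (cnd (pp x y) (fun u : G × G => (qm W u.1, qm W u.2)) (a, b)) (fun u => u.1 - u.2))
      - (∑ a, pr x (qm W) a * ent (cnd x (qm W) a)) / 2
      - (∑ b, pr y (qm W) b * ent (cnd y (qm W) b)) / 2 := by
    have e1 : ∀ a b, pr x (qm W) a * pr y (qm W) b * rd (cnd x (qm W) a) (cnd y (qm W) b) =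
        pr (pp x y) (fun u : G × G => (qm W u.1, qm W u.2)) (a, b) *
        H (cnd (pp x y) (fun u : G × G => (qm W u.1, qm W u.2)) (a, b)) (fun u => u.1 - u.2)
        - (pr x (qm W) a * ent (cnd x (qm W) a) / 2) * pr y (qm W) b
        - pr x (qm W) a * (pr y (qm W) b * ent (cnd y (qm W) b) / 2) := by
      intro a b
      rw [Fib_pr hx hy, Fib_cnd hx hy]
      unfold rd
      ring
    simp only [e1, Finset.sum_sub_distrib]
    congr 1
    · congr 1
      simp only [← Finset.mul_sum, hy1, mul_one]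
      rw [Finset.sum_div]
    · simp only [← Finset.mul_sum, ← Finset.sum_mul, hx1, one_mul]
      rw [Finset.sum_div]
  rw [h2, ← ent_sub_hq hx W, ← ent_sub_hq hy W]
  unfold cq
  rw [h1]
  ring

theorem cq_nonneg (hx : IsP x) (hy : IsP y) (W : AddSubgroup G) : 0 ≤ cq x y W := by
  classical
  have : Fintype (G ⧸ W) := Fintype.ofFinite _
  rw [cq_eq_sum hx hy W]
  refine Finset.sum_nonneg fun a _ => Finset.sum_nonneg fun b _ => ?_
  rcases (pr_nonneg hx (qm W) a).lt_or_eq with ha | ha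
  · rcases (pr_nonneg hy (qm W) b).lt_or_eq with hb | hb
    · exact mul_nonneg (mul_nonneg ha.le hb.le) (rd_nonneg (cnd_isP hx _ _ ha) (cnd_isP hy _ _ hb))
    · rw [← hb, mul_zero, zero_mul]
  · rw [← ha, zero_mul, zero_mul]

theorem dq_add_cq_le (hx : IsP x) (hy : IsP y) (W : AddSubgroup G) :
    dq x y W + cq x y W ≤ rd x y := by
  have hp := pp_isP hx hy
  have h1 := H_cond_anti hp (fun u : G × G => u.1 - u.2) (fun u => (qm W u.1, qm W u.2))
    (fun v : (G ⧸ W) × (G ⧸ W) => v.1 - v.2)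
  have h2 : ∀ u : G × G, qm W u.1 - qm W u.2 = qm W (u.1 - u.2) := fun u => rfl
  simp only [h2] at h1
  have h3 : H (pp x y) (fun u : G × G => (u.1 - u.2, qm W (u.1 - u.2))) =
      H (pp x y) (fun u : G × G => u.1 - u.2) :=
    (H_congr hp (fun u : G × G => u.1 - u.2) (fun u : G × G => (u.1 - u.2, qm W (u.1 - u.2)))
      (fun g => (g, qm W g)) Prod.fst (fun _ => rfl) (fun _ => rfl)).symm
  rw [h3, Fib_H hx hy W] at h1
  unfold dq cq rd
  linarith

theorem dq_le_rd (hx : IsP x) (hy : IsP y) (W : AddSubgroup G) : dq x y W ≤ rd x y := by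
  have h1 := dq_add_cq_le hx hy W
  have h2 := cq_nonneg hx hy W
  linarith

end Pool.Agent.WPF
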