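import Pool.Agent.WPF.Chart
set_option autoImplicit false

/-!
# Module FinModel.  Models for sets with full fibres.

Take `R, ι, ω, φ, β` from `chart`.  Pigeonhole: some value `β₀` of `β` has
`A* = {a ∈ A : β a = β₀}`, `|A| ≤ 2 ^ |ι| |A*| ≤ Λ |A*|` (`2 ^ |ι| ≤ Λ` from `hΛ`).  Since `β` is constant on fibres of `F`, the
fibres of `A*` are those of `A`.  `B = A*.image ω ⊆ R`.  Each fibre `{a ∈ A* : ω a = b}` has at least `|F| / μ` and at most
`|F|` elements.
`|B + B| |F| / μ ≤ |A* + A*|`: for `s = b + b' ∈ B + B` choose `a' ∈ A*` over `b'`; the elements `a + a'`, `a ∈ A*` over `b`, are at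
least `|F|/μ` distinct elements of `A* + A*`, and they are assigned to `s`: for `a₁ + a₂ = a₃ + a₄` in `A* + A*`,
`ω a₁ + ω a₂ = ω a₃ + ω a₄`, so different `s` have disjoint sets.  So `|B + B| ≤ μ L Λ |B| =: K' |B|`
(`|A* + A*| ≤ |A + A| ≤ L |A| ≤ L Λ |A*| ≤ L Λ |B| |F|`).
`dbl_of_doubling` and `model_of_depth` (for `Depth R t`) give `B₁ ⊆ B`, `H`, `ψ : R → H`.  Put `A₁ = {a ∈ A* : ω a ∈ B₁}`,
`|A₁| ≥ |B₁| |F| / μ`, and the model `a ↦ (ψ (ω a), φ a) ∈ H × F`.
-/
namespace Pool.Agent.WPF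
open Pool.Agent.H72.CE
open scoped Pointwise

theorem sum_mem_nsmul {G : Type} [AddCommGroup G] [DecidableEq G] (A : Finset G) (k : ℕ)
    (a : Fin k → G) (ha : ∀ i, a i ∈ A) : ∑ i, a i ∈ k • A := by
  induction k with
  | zero => simp
  | succ k ih =>
    rw [Fin.sum_univ_succ, succ_nsmul']
    exact Finset.add_mem_add (ha 0) (ih _ fun i => ha _)

/-- Plünnecke's inequality -/
theorem dbl_of_doubling {G : Type} [AddCommGroup G] [DecidableEq G] {A : Finset G} {K : ℝ}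
    (hne : A.Nonempty) (hK : ((A + A).card : ℝ) ≤ K * (A.card : ℝ)) : Dbl K (A : Set G) := by
  intro k
  have hApos : (0 : ℝ) < A.card := by exact_mod_cast hne.card_pos
  have h0 : (Dk k (A : Set G)).ncard ≤ (k • A - k • A).card := by
    rw [← Set.ncard_coe_finset]
    refine Set.ncard_le_ncard ?_ (Finset.finite_toSet _)
    rintro g ⟨a, b, ha, hb, rfl⟩
    rw [Finset.mem_coe]
    exact Finset.sub_mem_sub (sum_mem_nsmul A k _ fun i => Finset.mem_coe.1 (ha i))
      (sum_mem_nsmul A k _ fun i => Finset.mem_coe.1 (hb i))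
  have h1 := Finset.pluennecke_ruzsa_inequality_nsmul_sub_nsmul_add hne A k k
  have h2 : ((k • A - k • A).card : ℝ) ≤ (((A + A).card : ℝ) / A.card) ^ (k + k) * A.card := by
    have h3 := (NNRat.cast_le (K := ℝ)).2 h1
    push_cast at h3
    exact h3
  have h3 : ((A + A).card : ℝ) / A.card ≤ K := by
    rw [div_le_iff₀ hApos]
    exact hK
  rw [Set.ncard_coe_finset, two_mul]
  calc ((Dk k (A : Set G)).ncard : ℝ) ≤ ((k • A - k • A).card : ℝ) := by exact_mod_cast h0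
    _ ≤ (((A + A).card : ℝ) / A.card) ^ (k + k) * A.card := h2
    _ ≤ K ^ (k + k) * A.card := by gcongr

open Classical in
theorem finModel {G : Type} [AddCommGroup G] [Fintype G] (m t k : ℕ) (hm : 1 ≤ m)
    (hG : PDepth m t G) (F : AddSubgroup G) (hF : ∀ f ∈ F, m ^ k • f = 0) (A : Finset G)
    (hne : A.Nonempty) (Λ μ L : ℝ)
    (hΛ : (Nat.card (divS m F) : ℝ) ≤ Λ * (Nat.card F : ℝ))
    (hμ : ∀ a ∈ A, (Nat.card F : ℝ) ≤ μ * ((A.filter (fun a' => a' - a ∈ F)).card : ℝ))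
    (hL : ((A + A).card : ℝ) ≤ L * (A.card : ℝ)) :
    ModelR (A : Set G) (4 ^ t * 4096 * (μ * L * Λ) ^ 8 * μ * Λ)
      (4 ^ t * 32768 * (μ * L * Λ) ^ 12 * μ) := by
  obtain ⟨R, _, ι, _, ω, φ, β, hR, hι, hω, hβ, h4⟩ := chart G m t k hm hG F hF
  have hFpos : (0 : ℝ) < (Nat.card F : ℝ) := by exact_mod_cast Nat.card_pos
  have hApos : (0 : ℝ) < (A.card : ℝ) := by exact_mod_cast hne.card_pos
  -- `2 ^ |ι| ≤ Λ`
  have hΛ2 : (2 : ℝ) ^ Fintype.card ι ≤ Λ := by
    have h1 : ((2 ^ Fintype.card ι * Nat.card F : ℕ) : ℝ) ≤ (Nat.card (divS m F) : ℝ) := by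
      exact_mod_cast hι
    push_cast at h1
    exact le_of_mul_le_mul_right (h1.trans hΛ) hFpos
  have hΛpos : 0 < Λ := lt_of_lt_of_le (by positivity) hΛ2
  have hμpos : 0 < μ := by
    obtain ⟨a, ha⟩ := hne
    have h1 := hμ a ha
    by_contra h2
    have h3 : μ * ((A.filter (fun a' => a' - a ∈ F)).card : ℝ) ≤ 0 :=
      mul_nonpos_of_nonpos_of_nonneg (not_lt.1 h2) (Nat.cast_nonneg _)
    linarith
  have hLpos : 0 < L := by
    have h1 : (0 : ℝ) < ((A + A).card : ℝ) := by exact_mod_cast (hne.add hne).card_pos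
    by_contra h2
    have h3 : L * (A.card : ℝ) ≤ 0 :=
      mul_nonpos_of_nonpos_of_nonneg (not_lt.1 h2) (Nat.cast_nonneg _)
    linarith
  -- pigeonhole
  obtain ⟨β₀, -, hmax⟩ := Finset.exists_max_image (Finset.univ : Finset (ι → Bool))
    (fun b => (A.filter (fun a => β a = b)).card) Finset.univ_nonempty
  set As : Finset G := A.filter (fun a => β a = β₀) with hAs
  have hAs0 : (A.card : ℝ) ≤ 2 ^ Fintype.card ι * (As.card : ℝ) := by
    have h1 : A.card ≤ 2 ^ Fintype.card ι * As.card := by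
      rw [Finset.card_eq_sum_card_fiberwise (f := β) (t := (Finset.univ : Finset (ι → Bool)))
        (fun a _ => Finset.mem_coe.2 (Finset.mem_univ _))]
      refine (Finset.sum_le_card_nsmul _ _ As.card hmax).trans ?_
      rw [Finset.card_univ, smul_eq_mul]
      simp
    exact_mod_cast h1
  have hAs1 : (A.card : ℝ) ≤ Λ * (As.card : ℝ) :=
    hAs0.trans (mul_le_mul_of_nonneg_right hΛ2 (Nat.cast_nonneg _))
  have hAsne : As.Nonempty := by
    rw [← Finset.card_pos]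
    by_contra h2
    have h3 : As.card = 0 := by omega
    rw [h3, Nat.cast_zero, mul_zero] at hAs1
    linarith
  have hAsA : ∀ a ∈ As, a ∈ A := fun a ha => (Finset.mem_filter.1 ha).1
  have hAsβ : ∀ a ∈ As, β a = β₀ := fun a ha => (Finset.mem_filter.1 ha).2
  have h4' : ∀ a ∈ As, ∀ b ∈ As, ∀ c ∈ As, ∀ d ∈ As,
      (a + b = c + d ↔ ω a + ω b = ω c + ω d ∧ φ a + φ b = φ c + φ d) := by
    intro a ha b hb c hc d hd
    exact h4 a b c d (by rw [hAsβ a ha, hAsβ b hb]) (by rw [hAsβ b hb, hAsβ c hc])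
      (by rw [hAsβ c hc, hAsβ d hd])
  set B : Finset R := As.image ω with hB
  have hBne : B.Nonempty := hAsne.image ω
  have hBpos : (0 : ℝ) < (B.card : ℝ) := by exact_mod_cast hBne.card_pos
  -- lower bound for the fibres
  have hlow : ∀ b ∈ B, (Nat.card F : ℝ) ≤ μ * ((As.filter (fun a => ω a = b)).card : ℝ) := by
    intro b hb
    obtain ⟨a, ha, rfl⟩ := Finset.mem_image.1 hb
    have h1 := hμ a (hAsA a ha)
    have h2 : A.filter (fun a' => a' - a ∈ F) ⊆ As.filter (fun a' => ω a' = ω a) := by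
      intro a' ha'
      obtain ⟨h3, h5⟩ := Finset.mem_filter.1 ha'
      refine Finset.mem_filter.2 ⟨Finset.mem_filter.2 ⟨h3, ?_⟩, (hω _ _).2 h5⟩
      rw [hβ _ _ h5]
      exact hAsβ a ha
    refine h1.trans (mul_le_mul_of_nonneg_left ?_ hμpos.le)
    exact_mod_cast Finset.card_le_card h2
  -- upper bound for the fibres
  have hupp : ∀ b ∈ B, (As.filter (fun a => ω a = b)).card ≤ Nat.card F := by
    intro b hb
    obtain ⟨a, ha, rfl⟩ := Finset.mem_image.1 hb
    have h1 : (As.filter (fun a' => ω a' = ω a)).card ≤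
        ((Finset.univ : Finset F)).card := by
      refine Finset.card_le_card_of_injOn
        (fun a' => if h : a' - a ∈ F then (⟨a' - a, h⟩ : F) else 0)
        (fun a' _ => Finset.mem_coe.2 (Finset.mem_univ _)) ?_
      intro x hx y hy hxy
      have hx1 : x - a ∈ F := (hω _ _).1 (Finset.mem_filter.1 (Finset.mem_coe.1 hx)).2
      have hy1 : y - a ∈ F := (hω _ _).1 (Finset.mem_filter.1 (Finset.mem_coe.1 hy)).2
      simp only [dif_pos hx1, dif_pos hy1, Subtype.mk.injEq] at hxy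
      exact sub_left_injective hxy
    rw [Finset.card_univ, ← Nat.card_eq_fintype_card] at h1
    exact h1
  have hsum : As.card = ∑ b ∈ B, (As.filter (fun a => ω a = b)).card :=
    Finset.card_eq_sum_card_fiberwise (fun a ha => Finset.mem_coe.2
      (Finset.mem_image_of_mem ω (Finset.mem_coe.1 ha)))
  have hAsB : (As.card : ℝ) ≤ (B.card : ℝ) * (Nat.card F : ℝ) := by
    have h1 : As.card ≤ B.card * Nat.card F := by
      rw [hsum]
      refine (Finset.sum_le_card_nsmul _ _ _ hupp).trans ?_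
      rw [smul_eq_mul]
    exact_mod_cast h1
  -- the assignment of a sum
  have hσ : ∃ σ : G → R, ∀ a ∈ As, ∀ b ∈ As, σ (a + b) = ω a + ω b := by
    refine ⟨fun x => if h : ∃ p : G × G, p.1 ∈ As ∧ p.2 ∈ As ∧ p.1 + p.2 = x then
      ω h.choose.1 + ω h.choose.2 else 0, ?_⟩
    intro a ha b hb
    have h : ∃ p : G × G, p.1 ∈ As ∧ p.2 ∈ As ∧ p.1 + p.2 = a + b := ⟨(a, b), ha, hb, rfl⟩
    have h1 := h.choose_spec
    refine (dif_pos h).trans ?_
    exact ((h4' _ h1.1 _ h1.2.1 _ ha _ hb).1 h1.2.2).1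
  obtain ⟨σ, hσ⟩ := hσ
  have hBB : ((B + B).card : ℝ) * (Nat.card F : ℝ) ≤ μ * ((As + As).card : ℝ) := by
    have hmaps : Set.MapsTo σ (As + As : Finset G) (B + B : Finset R) := by
      intro x hx
      obtain ⟨a, ha, b, hb, rfl⟩ := Finset.mem_add.1 (Finset.mem_coe.1 hx)
      rw [hσ a ha b hb]
      exact Finset.mem_coe.2 (Finset.add_mem_add (Finset.mem_image_of_mem ω ha)
        (Finset.mem_image_of_mem ω hb))
    have h1 := Finset.card_eq_sum_card_fiberwise hmaps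
    have h2 : ∀ s ∈ B + B, (Nat.card F : ℝ) ≤
        μ * (((As + As).filter (fun x => σ x = s)).card : ℝ) := by
      intro s hs
      obtain ⟨b, hb, b', hb', rfl⟩ := Finset.mem_add.1 hs
      obtain ⟨a', ha', rfl⟩ := Finset.mem_image.1 hb'
      refine (hlow b hb).trans (mul_le_mul_of_nonneg_left ?_ hμpos.le)
      have h3 : (As.filter (fun a => ω a = b)).card ≤
          ((As + As).filter (fun x => σ x = b + ω a')).card := by
        refine Finset.card_le_card_of_injOn (fun a => a + a') ?_ ?_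
        · intro a ha
          obtain ⟨h5, h6⟩ := Finset.mem_filter.1 (Finset.mem_coe.1 ha)
          refine Finset.mem_coe.2 (Finset.mem_filter.2 ⟨Finset.add_mem_add h5 ha', ?_⟩)
          rw [hσ a h5 a' ha', h6]
        · intro x _ y _ hxy
          exact add_right_cancel hxy
      exact_mod_cast h3
    calc ((B + B).card : ℝ) * (Nat.card F : ℝ) = ∑ _s ∈ B + B, (Nat.card F : ℝ) := by
          rw [Finset.sum_const, nsmul_eq_mul]
      _ ≤ ∑ s ∈ B + B, μ * (((As + As).filter (fun x => σ x = s)).card : ℝ) :=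
          Finset.sum_le_sum h2
      _ = μ * ((As + As).card : ℝ) := by
          rw [← Finset.mul_sum, h1]
          push_cast
          rfl
  have hAsAs : ((As + As).card : ℝ) ≤ L * Λ * ((B.card : ℝ) * (Nat.card F : ℝ)) := by
    have h1 : ((As + As).card : ℝ) ≤ ((A + A).card : ℝ) := by
      exact_mod_cast Finset.card_le_card (Finset.add_subset_add (Finset.filter_subset _ _)
        (Finset.filter_subset _ _))
    calc ((As + As).card : ℝ) ≤ L * (A.card : ℝ) := h1.trans hL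
      _ ≤ L * (Λ * (As.card : ℝ)) := mul_le_mul_of_nonneg_left hAs1 hLpos.le
      _ = L * Λ * (As.card : ℝ) := by ring
      _ ≤ L * Λ * ((B.card : ℝ) * (Nat.card F : ℝ)) :=
          mul_le_mul_of_nonneg_left hAsB (by positivity)
  have hBB2 : ((B + B).card : ℝ) ≤ (μ * L * Λ) * (B.card : ℝ) := by
    refine le_of_mul_le_mul_right ?_ hFpos
    calc ((B + B).card : ℝ) * (Nat.card F : ℝ) ≤ μ * ((As + As).card : ℝ) := hBB
      _ ≤ μ * (L * Λ * ((B.card : ℝ) * (Nat.card F : ℝ))) :=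
          mul_le_mul_of_nonneg_left hAsAs hμpos.le
      _ = (μ * L * Λ) * (B.card : ℝ) * (Nat.card F : ℝ) := by ring
  have hK1 : 1 ≤ μ * L * Λ := by
    have h1 : (B.card : ℝ) ≤ ((B + B).card : ℝ) := by
      exact_mod_cast Finset.card_le_card_add_right hBne
    refine le_of_mul_le_mul_right ?_ hBpos
    rw [one_mul]
    exact h1.trans hBB2
  obtain ⟨B₁, hB₁, hc, H, _, _, ψ, hψ, hH⟩ := model_of_depth hR (B : Set R) (Finset.finite_toSet B)
    (Finset.coe_nonempty.2 hBne) (μ * L * Λ) hK1 (dbl_of_doubling hBne hBB2)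
  rw [Set.ncard_coe_finset] at hc
  set A₁ : Finset G := As.filter (fun a => ω a ∈ B₁) with hA₁
  set B₁' : Finset R := B.filter (fun b => b ∈ B₁) with hB₁'
  have hB₁c : (B₁' : Set R) = B₁ := by
    ext b
    simp only [hB₁', Finset.coe_filter, Set.mem_setOf_eq]
    exact ⟨fun h => h.2, fun h => ⟨Finset.mem_coe.1 (hB₁ h), h⟩⟩
  have hB₁n : B₁.ncard = B₁'.card := by rw [← hB₁c, Set.ncard_coe_finset]
  have hA₁low : (B₁.ncard : ℝ) * (Nat.card F : ℝ) ≤ μ * (A₁.card : ℝ) := by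
    rw [hB₁n]
    have h1 : A₁.card = ∑ b ∈ B₁', (A₁.filter (fun a => ω a = b)).card := by
      refine Finset.card_eq_sum_card_fiberwise (fun a ha => ?_)
      obtain ⟨h5, h6⟩ := Finset.mem_filter.1 (Finset.mem_coe.1 ha)
      exact Finset.mem_coe.2 (Finset.mem_filter.2 ⟨Finset.mem_image_of_mem ω h5, h6⟩)
    have h2 : ∀ b ∈ B₁', (Nat.card F : ℝ) ≤ μ * ((A₁.filter (fun a => ω a = b)).card : ℝ) := by
      intro b hb
      obtain ⟨h5, h6⟩ := Finset.mem_filter.1 hb
      refine (hlow b h5).trans (mul_le_mul_of_nonneg_left ?_ hμpos.le)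
      have h7 : As.filter (fun a => ω a = b) ⊆ A₁.filter (fun a => ω a = b) := by
        intro a ha
        obtain ⟨h8, h9⟩ := Finset.mem_filter.1 ha
        refine Finset.mem_filter.2 ⟨Finset.mem_filter.2 ⟨h8, ?_⟩, h9⟩
        rw [h9]
        exact h6
      exact_mod_cast Finset.card_le_card h7
    calc (B₁'.card : ℝ) * (Nat.card F : ℝ) = ∑ _b ∈ B₁', (Nat.card F : ℝ) := by
          rw [Finset.sum_const, nsmul_eq_mul]
      _ ≤ ∑ b ∈ B₁', μ * ((A₁.filter (fun a => ω a = b)).card : ℝ) := Finset.sum_le_sum h2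
      _ = μ * (A₁.card : ℝ) := by
          rw [← Finset.mul_sum, h1]
          push_cast
          rfl
  refine ⟨(A₁ : Set G), ?_, ?_, H × F, inferInstance, inferInstance,
    fun g => (ψ (ω g), φ g), ?_, ?_⟩
  · intro a ha
    exact Finset.mem_coe.2 (hAsA a (Finset.mem_filter.1 (Finset.mem_coe.1 ha)).1)
  · rw [Set.ncard_coe_finset, Set.ncard_coe_finset]
    have hc0 : (0 : ℝ) ≤ 4 ^ t * 4096 * (μ * L * Λ) ^ 8 := by positivity
    calc (A.card : ℝ) ≤ Λ * (As.card : ℝ) := hAs1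
      _ ≤ Λ * ((B.card : ℝ) * (Nat.card F : ℝ)) := mul_le_mul_of_nonneg_left hAsB hΛpos.le
      _ ≤ Λ * ((4 ^ t * 4096 * (μ * L * Λ) ^ 8 * (B₁.ncard : ℝ)) * (Nat.card F : ℝ)) := by
          gcongr
      _ = Λ * (4 ^ t * 4096 * (μ * L * Λ) ^ 8) * ((B₁.ncard : ℝ) * (Nat.card F : ℝ)) := by ring
      _ ≤ Λ * (4 ^ t * 4096 * (μ * L * Λ) ^ 8) * (μ * (A₁.card : ℝ)) := by
          gcongr
      _ = 4 ^ t * 4096 * (μ * L * Λ) ^ 8 * μ * Λ * (A₁.card : ℝ) := by ring
  · intro x hx y hy z hz w hw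
    obtain ⟨hx1, hx2⟩ := Finset.mem_filter.1 (Finset.mem_coe.1 hx)
    obtain ⟨hy1, hy2⟩ := Finset.mem_filter.1 (Finset.mem_coe.1 hy)
    obtain ⟨hz1, hz2⟩ := Finset.mem_filter.1 (Finset.mem_coe.1 hz)
    obtain ⟨hw1, hw2⟩ := Finset.mem_filter.1 (Finset.mem_coe.1 hw)
    rw [h4' x hx1 y hy1 z hz1 w hw1, hψ _ hx2 _ hy2 _ hz2 _ hw2]
    simp only [Prod.mk_add_mk, Prod.mk.injEq]
  · rw [Set.ncard_coe_finset, Nat.card_prod]
    push_cast
    calc (Nat.card H : ℝ) * (Nat.card F : ℝ)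
        ≤ (4 ^ t * 32768 * (μ * L * Λ) ^ 12 * (B₁.ncard : ℝ)) * (Nat.card F : ℝ) := by gcongr
      _ = 4 ^ t * 32768 * (μ * L * Λ) ^ 12 * ((B₁.ncard : ℝ) * (Nat.card F : ℝ)) := by ring
      _ ≤ 4 ^ t * 32768 * (μ * L * Λ) ^ 12 * (μ * (A₁.card : ℝ)) := by gcongr
      _ = 4 ^ t * 32768 * (μ * L * Λ) ^ 12 * μ * (A₁.card : ℝ) := by ring

end Pool.Agent.WPF
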