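import Pool.Agent.WPF.Weak
import Pool.Agent.WPF.FinModel
import Pool.Agent.WPF.Emb
set_option autoImplicit false

/-!
# Module Final.  Assembly.

`K ≥ 1`.  `finRed`: `G', f`; `A' = A.image f`, `|A'| = |A|` (Freiman isomorphisms are injective),
`|A' + A'| ≤ |A + A|` (`card_add_image_le`).  `weak` in `G'`: `G₂, i, a₀, A₂, F`.
`|A₂ + A₂| ≤ |A' + A'|` (`card_add_self_le`) `≤ K |A'| ≤ 2 K ^ (2 cP + 1) |A₂|`.  `PDepth m t G₂` (`PDepth.of_injective`).
`finModel` with `Λ = K ^ (2 cP + 16 m + 8)`, `μ = K ^ (4 cP)`, `L = 2 K ^ (2 cP + 1)`;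
`μ L Λ = 2 K ^ (8 cP + 16 m + 9)`.  `ModelR.of_emb` with `c' = 2 K ^ (2 cP)`; `ModelR.transfer f` (from H72/CE/Strong).
Constants: `2 K^(2cP) * 4^t * 4096 * 2^8 K^(8(8cP+16m+9)) * K^(4cP) * K^(2cP+16m+8)
  = 4^t 2^21 K^(72 cP + 144 m + 80)` and `4^t * 32768 * 2^12 K^(12(8cP+16m+9)) K^(4cP) = 4^t 2^27 K^(100 cP + 192 m + 108)`; the
exponents are at most `10^6 m^8` (`3 ≤ m`).
-/
namespace Pool.Agent.WPF
open Pool.Agent.H72.CE
open scoped Pointwise

theorem Final_exp (m : ℕ) (hm : 1 ≤ m) :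
    72 * cP m + 144 * m + 80 ≤ 10 ^ 6 * m ^ 8 ∧ 100 * cP m + 192 * m + 108 ≤ 10 ^ 6 * m ^ 8 := by
  have h1 : 1 ≤ m ^ 8 := Nat.one_le_pow _ _ hm
  have h2 : m ≤ m ^ 8 := Nat.le_self_pow (by norm_num) m
  unfold cP
  generalize m ^ 8 = M at h1 h2 ⊢
  constructor <;> omega

theorem model_all (m t : ℕ) (hm : 3 ≤ m) {G : Type} [AddCommGroup G] [DecidableEq G]
    (hG : PDepth m t G) (A : Finset G) (K : ℝ) (hne : A.Nonempty) (hK1 : 1 ≤ K)
    (hK : ((A + A).card : ℝ) ≤ K * (A.card : ℝ)) :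
    ModelR (A : Set G) (4 ^ t * 2 ^ 21 * K ^ (10 ^ 6 * m ^ 8))
      (4 ^ t * 2 ^ 27 * K ^ (10 ^ 6 * m ^ 8)) := by
  classical
  obtain ⟨G', _, _, f, hG', hf⟩ := finRed m t hG (A : Set G) A.finite_toSet
  have hinj : Set.InjOn f A := fun x hx y hy hxy =>
    add_right_cancel ((hf x hx x hx y hy x hx).2 (by rw [hxy]))
  have hcard : (A.image f).card = A.card := Finset.card_image_of_injOn hinj
  have hne' : (A.image f).Nonempty := hne.image f
  have hK' : ((A.image f + A.image f).card : ℝ) ≤ K * ((A.image f).card : ℝ) := by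
    rw [hcard]
    refine le_trans ?_ hK
    exact_mod_cast card_add_image_le A f
      (fun x hx y hy z hz w hw => (hf x hx y hy z hz w hw).1)
  obtain ⟨G₂, _, _, i, a₀, A₂, F, hi, hne2, hsub, hcA, ⟨k, hF⟩, hdiv, hfib⟩ :=
    weak hm (A.image f) hne' K hK'
  have hK0 : (0 : ℝ) < K := by linarith
  have hL : ((A₂ + A₂).card : ℝ) ≤ (2 * K ^ (2 * cP m + 1)) * (A₂.card : ℝ) := by
    calc ((A₂ + A₂).card : ℝ) ≤ ((A.image f + A.image f).card : ℝ) := by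
          exact_mod_cast card_add_self_le i hi a₀ (A.image f) A₂ hsub
      _ ≤ K * ((A.image f).card : ℝ) := hK'
      _ ≤ K * (2 * K ^ (2 * cP m) * (A₂.card : ℝ)) := by gcongr
      _ = _ := by ring
  have h1 := finModel m t k (by omega) (PDepth.of_injective i hi hG') F hF A₂ hne2 _ _ _ hdiv hfib hL
  have h2 := ModelR.of_emb i hi a₀ ((A.image f : Finset G') : Set G') (A₂ : Set G₂)
    (fun g hg => Finset.mem_coe.2 (hsub g (Finset.mem_coe.1 hg)))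
    (c' := 2 * K ^ (2 * cP m)) (by positivity)
    (by rw [Set.ncard_coe_finset, Set.ncard_coe_finset]; exact hcA) h1
  rw [Finset.coe_image] at h2
  have h3 := Pool.Agent.H72.CE.ModelR.transfer f hf h2
  obtain ⟨he1, he2⟩ := Final_exp m (by omega)
  refine ModelR.mono ?_ ?_ h3
  · calc _ = 4 ^ t * 2 ^ 21 * K ^ (72 * cP m + 144 * m + 80) := by ring
      _ ≤ _ := by gcongr
  · calc _ = 4 ^ t * 2 ^ 27 * K ^ (100 * cP m + 192 * m + 108) := by ring
      _ ≤ _ := by gcongr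

end Pool.Agent.WPF
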