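import Pool.Agent.WPF.Defs
set_option autoImplicit false

/-!
# Module Hq.  Entropy modulo a subgroup: elementary properties.

* `hq_bot`: `qm ⊥` is injective (`H_congr`/`H_comp_le`), `ent_eq_H`.  `hq_top`: `H_const`.
* `hq_anti`: `qm W` is a function of `qm V` for `V ≤ W` (`QuotientAddGroup.map` or `Quotient.map'`,
  or: `φ c = qm W c.out`), `H_comp_le`.
* `hq_sub_le`: `H_le_fiber` with `π` = the map `G ⧸ V → G ⧸ W`; a set `u ⊆ G ⧸ V` of cosets inside
  one coset of `W` has at most `|W| / |V|` elements.  (Alternative: `H_cond_sum` for the pair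
  `(qm V, qm W)` and `H_le_log_card` on every fibre.)  The number of `V`-cosets in a `W`-coset:
  `AddSubgroup.card_eq_card_quotient_mul_card_addSubgroup`-type identities, or count elements: the
  preimage in `G` of `u` has `|u| * |V|` elements and lies in a coset of `W`.
-/
namespace Pool.Agent.WPF
open Finset Pool.Agent.Ldc
variable {G : Type} [AddCommGroup G] [Fintype G] {x y : G → ℝ}

theorem Hq_eq_iff (W : AddSubgroup G) (a b : G) : qm W a = qm W b ↔ b - a ∈ W := by
  unfold qm
  rw [QuotientAddGroup.eq, neg_add_eq_sub]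

theorem Hq_out (W : AddSubgroup G) (a : G ⧸ W) : qm W a.out = a := Quotient.out_eq _

theorem Hq_out_sub (W : AddSubgroup G) (g : G) : g - (qm W g).out ∈ W :=
  (Hq_eq_iff W _ _).1 (Hq_out W _)

theorem Hq_lc_bot : lc (⊥ : AddSubgroup G) = 0 := by
  unfold lc
  simp

theorem hq_nonneg (hx : IsP x) (W : AddSubgroup G) : 0 ≤ hq x W := H_nonneg hx _

theorem Hq_bot_out (g : G) : (qm (⊥ : AddSubgroup G) g).out = g := by
  have h := Hq_out_sub (⊥ : AddSubgroup G) g
  rw [AddSubgroup.mem_bot, sub_eq_zero] at h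
  exact h.symm

theorem hq_bot (hx : IsP x) : hq x ⊥ = ent x := by
  rw [ent_eq_H]
  exact (H_congr hx (fun a => a) (qm ⊥) (qm ⊥) (fun c => c.out) (fun _ => rfl)
    (fun ω => (Hq_bot_out ω).symm)).symm

theorem hq_top (hx : IsP x) : hq x ⊤ = 0 := by
  refine H_const hx _ fun a b => ?_
  rw [Hq_eq_iff]
  exact AddSubgroup.mem_top _

theorem Hq_qm_out {V W : AddSubgroup G} (h : V ≤ W) (g : G) : qm W (qm V g).out = qm W g := by
  rw [Hq_eq_iff]
  exact h (Hq_out_sub V g)

theorem hq_anti (hx : IsP x) {V W : AddSubgroup G} (h : V ≤ W) : hq x W ≤ hq x V := by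
  have h1 := H_comp_le hx (qm V) (fun c => qm W c.out)
  have h2 : (fun ω => (fun c : G ⧸ V => qm W c.out) (qm V ω)) = qm W := by
    funext ω
    exact Hq_qm_out h ω
  rw [h2] at h1
  exact h1

theorem lc_mono {V W : AddSubgroup G} (h : V ≤ W) : lc V ≤ lc W := by
  unfold lc
  apply Real.log_le_log
  · exact_mod_cast Nat.card_pos
  · exact_mod_cast AddSubgroup.card_le_of_le h

theorem hq_sub_le (hx : IsP x) {V W : AddSubgroup G} (h : V ≤ W) : hq x V - hq x W ≤ lc W - lc V := by
  classical
  have : Fintype (G ⧸ V) := Fintype.ofFinite _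
  have h1 := H_le_fiber hx (qm V) (fun c => qm W c.out) univ (fun _ _ => mem_univ _) (lc W - lc V)
    (by
      intro ω _ u _ hu
      rcases u.eq_empty_or_nonempty with rfl | hne
      · simp only [card_empty, Nat.cast_zero, Real.log_zero]
        linarith [lc_mono h]
      have hmem : ∀ a ∈ u, a.out - ω ∈ W := by
        intro a ha
        have h2 : qm W a.out = qm W (qm V ω).out := hu a ha
        rw [Hq_qm_out h] at h2
        exact (Hq_eq_iff W _ _).1 h2.symm
      let F : u × V → W := fun p => ⟨(p.1 : G ⧸ V).out - ω + (p.2 : G),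
        W.add_mem (hmem _ p.1.2) (h p.2.2)⟩
      have hF : Function.Injective F := by
        rintro ⟨a, v⟩ ⟨b, w⟩ hab
        have h3 : (a : G ⧸ V).out - ω + (v : G) = (b : G ⧸ V).out - ω + (w : G) :=
          congrArg Subtype.val hab
        have h4 : qm V (a : G ⧸ V).out = qm V (b : G ⧸ V).out := by
          rw [Hq_eq_iff]
          have h5 : (b : G ⧸ V).out - (a : G ⧸ V).out = v - w := by
            have := congrArg (fun t => t + ω - (a : G ⧸ V).out - (w : G)) h3
            beta_reduce at this
            have e1 : (a : G ⧸ V).out - ω + (v : G) + ω - (a : G ⧸ V).out - (w : G) = v - w := by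
              abel
            have e2 : (b : G ⧸ V).out - ω + (w : G) + ω - (a : G ⧸ V).out - (w : G) =
              (b : G ⧸ V).out - (a : G ⧸ V).out := by abel
            rw [e1, e2] at this
            exact this.symm
          rw [h5]
          exact V.sub_mem v.2 w.2
        rw [Hq_out, Hq_out] at h4
        have h6 : a = b := Subtype.ext h4
        subst h6
        have h7 : (v : G) = w := add_left_cancel h3
        rw [Subtype.ext h7]
      have hc := Nat.card_le_card_of_injective F hF
      rw [Nat.card_prod, Nat.card_eq_fintype_card, Fintype.card_coe] at hc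
      have hcu : 0 < (u.card : ℝ) := by exact_mod_cast hne.card_pos
      have hcV : 0 < (Nat.card V : ℝ) := by exact_mod_cast Nat.card_pos
      have h8 : Real.log ((u.card : ℝ) * (Nat.card V : ℝ)) ≤ Real.log (Nat.card W : ℝ) := by
        apply Real.log_le_log (by positivity)
        exact_mod_cast hc
      rw [Real.log_mul hcu.ne' hcV.ne'] at h8
      unfold lc
      linarith)
  have h2 : (fun ω => (fun c : G ⧸ V => qm W c.out) (qm V ω)) = qm W := by
    funext ω
    exact Hq_qm_out h ω
  rw [h2] at h1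
  unfold hq
  linarith

theorem Dq_nonneg (hx : IsP x) (W : AddSubgroup G) : 0 ≤ Dq x W := by
  have h := hq_sub_le hx (bot_le : (⊥ : AddSubgroup G) ≤ W)
  rw [hq_bot hx, Hq_lc_bot] at h
  unfold Dq
  linarith

theorem Dq_bot (hx : IsP x) : Dq x ⊥ = 0 := by
  unfold Dq
  rw [hq_bot hx, Hq_lc_bot]
  ring

theorem dq_bot (hx : IsP x) (hy : IsP y) : dq x y ⊥ = rd x y := by
  unfold dq rd
  rw [hq_bot hx, hq_bot hy]
  congr 2
  exact (H_congr (pp_isP hx hy) (fun u => u.1 - u.2) (fun u => qm ⊥ (u.1 - u.2)) (qm ⊥)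
    (fun c => c.out) (fun _ => rfl) (fun ω => (Hq_bot_out _).symm)).symm

end Pool.Agent.WPF
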