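import Pool.Agent.WPF.Cyc
set_option autoImplicit false

/-!
# Module Lift.  Integer coordinates for `T / F`.

`e : T ⧸ F ≃+ ∀ i, ZMod (N i)` from `cyc`; `ω τ i = ((e (mk τ) i).val : ℤ)`; `β τ i = decide (2 * (e (mk τ) i).val < N i)`;
let `t i : T` be a lift of `e.symm (Pi.single i 1)`, and `φ τ = τ - ∑ i, ω τ i • t i`, which is in `F` since
`e (mk (∑ i, ω τ i • t i)) = e (mk τ)`.
`a + b = c + d → ω a + ω b = ω c + ω d`: the values are congruent modulo `N i` and, all four being in the same half,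
the difference is less than `N i` in absolute value.  The rest is immediate
(`τ = φ τ + ∑ i, ω τ i • t i`, additive in `(ω, φ)`).
`2 ^ |ι| |F| ≤ |(T/F)[m]| |F| = |divS m F|` (`divS m F` is the preimage of `torG m (T ⧸ F)`).
-/
namespace Pool.Agent.WPF

theorem Lift_card (T : Type) [AddCommGroup T] [Finite T] (m : ℕ) (F : AddSubgroup T) :
    Nat.card (torG m (T ⧸ F)) * Nat.card F ≤ Nat.card (divS m F) := by
  rw [← Nat.card_prod]
  have hmem : ∀ p : (torG m (T ⧸ F)) × F, Quotient.out (p.1 : T ⧸ F) + (p.2 : T) ∈ divS m F := by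
    rintro ⟨⟨q, hq⟩, ⟨f, hf⟩⟩
    have h1 : m • q = 0 := hq
    show m • (Quotient.out q + f) ∈ F
    rw [nsmul_add]
    refine F.add_mem ?_ (F.nsmul_mem hf m)
    rw [← QuotientAddGroup.eq_zero_iff, QuotientAddGroup.mk_nsmul, QuotientAddGroup.out_eq', h1]
  refine Nat.card_le_card_of_injective
    (fun p : (torG m (T ⧸ F)) × F => (⟨Quotient.out (p.1 : T ⧸ F) + (p.2 : T), hmem p⟩ : divS m F)) ?_
  rintro ⟨⟨q, hq⟩, ⟨f, hf⟩⟩ ⟨⟨q', hq'⟩, ⟨f', hf'⟩⟩ h
  have h1 : Quotient.out q + f = Quotient.out q' + f' := congrArg Subtype.val h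
  have h2 : q = q' := by
    have h3 : (QuotientAddGroup.mk (Quotient.out q + f) : T ⧸ F)
        = QuotientAddGroup.mk (Quotient.out q' + f') := by rw [h1]
    rw [QuotientAddGroup.mk_add, QuotientAddGroup.mk_add, QuotientAddGroup.out_eq',
      QuotientAddGroup.out_eq', (QuotientAddGroup.eq_zero_iff f).2 hf,
      (QuotientAddGroup.eq_zero_iff f').2 hf', add_zero, add_zero] at h3
    exact h3
  subst h2
  have h4 : f = f' := add_left_cancel h1
  subst h4
  rfl

theorem Lift_int (N va vb vc vd : ℤ) (h : N ∣ (va + vb) - (vc + vd))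
    (ha : 0 ≤ va ∧ va < N) (hb : 0 ≤ vb ∧ vb < N) (hc : 0 ≤ vc ∧ vc < N) (hd : 0 ≤ vd ∧ vd < N)
    (h1 : 2 * va < N ↔ 2 * vb < N) (h2 : 2 * vb < N ↔ 2 * vc < N) (h3 : 2 * vc < N ↔ 2 * vd < N) :
    va + vb = vc + vd := by
  have h4 : |(va + vb) - (vc + vd)| < N := by
    rw [abs_lt]
    by_cases h5 : 2 * va < N
    · have := h1.1 h5
      have := h2.1 this
      have := h3.1 this
      constructor <;> omega
    · have h6 : ¬ 2 * vb < N := fun h => h5 (h1.2 h)
      have h7 : ¬ 2 * vc < N := fun h => h6 (h2.2 h)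
      have h8 : ¬ 2 * vd < N := fun h => h7 (h3.2 h)
      constructor <;> omega
  have := Int.eq_zero_of_abs_lt_dvd h h4
  omega

theorem lift (T : Type) [AddCommGroup T] [Finite T] (m k : ℕ) (hm : 1 ≤ m)
    (hT : ∀ τ : T, m ^ k • τ = 0) (F : AddSubgroup T) :
    ∃ (ι : Type) (_ : Fintype ι) (ω : T → ι → ℤ) (φ : T → F) (β : T → ι → Bool),
      2 ^ Fintype.card ι * Nat.card F ≤ Nat.card (divS m F) ∧
      (∀ a b, ω a = ω b ↔ a - b ∈ F) ∧ (∀ a b, a - b ∈ F → β a = β b) ∧
      (∀ a b c d, β a = β b → β b = β c → β c = β d →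
        (a + b = c + d ↔ ω a + ω b = ω c + ω d ∧ φ a + φ b = φ c + φ d)) := by
  have hQ : ∀ q : T ⧸ F, m ^ k • q = 0 := by
    intro q
    obtain ⟨τ, rfl⟩ := QuotientAddGroup.mk_surjective q
    rw [← QuotientAddGroup.mk_nsmul, hT, QuotientAddGroup.mk_zero]
  obtain ⟨ι, hι, N, hN, ⟨e⟩, hcard⟩ := cyc (T ⧸ F) m k hm hQ
  classical
  have hNZ : ∀ i, NeZero (N i) := fun i => ⟨by have := hN i; omega⟩
  set π : T → ∀ i, ZMod (N i) := fun τ => e (QuotientAddGroup.mk τ) with hπ
  have hπadd : ∀ a b, π (a + b) = π a + π b := by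
    intro a b
    simp only [hπ, QuotientAddGroup.mk_add, map_add]
  have hπeq : ∀ a b, π a = π b ↔ a - b ∈ F := by
    intro a b
    simp only [hπ]
    rw [e.injective.eq_iff, eq_comm, QuotientAddGroup.eq, neg_add_eq_sub]
  set ω : T → ι → ℤ := fun τ i => ((π τ i).val : ℤ) with hω
  have hωcast : ∀ τ i, ((ω τ i : ℤ) : ZMod (N i)) = π τ i := by
    intro τ i
    have := hNZ i
    simp [hω]
  have hωrange : ∀ τ i, 0 ≤ ω τ i ∧ ω τ i < N i := by
    intro τ i
    have := hNZ i
    simp only [hω]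
    exact ⟨by positivity, by exact_mod_cast ZMod.val_lt (π τ i)⟩
  have hωeq : ∀ a b, ω a = ω b ↔ a - b ∈ F := by
    intro a b
    rw [← hπeq]
    constructor
    · intro h
      funext i
      rw [← hωcast a i, ← hωcast b i, h]
    · intro h
      simp only [hω, h]
  set t : ι → T := fun i => Quotient.out (e.symm (Pi.single i 1)) with ht
  have hmk : ∀ τ : T, (QuotientAddGroup.mk τ : T ⧸ F)
      = QuotientAddGroup.mk (∑ i, ω τ i • t i) := by
    intro τ
    apply e.injective
    have h1 : (QuotientAddGroup.mk (∑ i, ω τ i • t i) : T ⧸ F)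
        = ∑ i, ω τ i • e.symm (Pi.single i 1) := by
      rw [← QuotientAddGroup.mk'_apply, map_sum]
      refine Finset.sum_congr rfl (fun i _ => ?_)
      rw [map_zsmul]
      simp only [ht, QuotientAddGroup.mk'_apply, QuotientAddGroup.out_eq']
    rw [h1, map_sum]
    funext j
    rw [Finset.sum_apply, Finset.sum_eq_single j]
    · rw [map_zsmul, AddEquiv.apply_symm_apply, Pi.smul_apply, Pi.single_eq_same, zsmul_one,
        hωcast]
    · intro i _ hij
      rw [map_zsmul, AddEquiv.apply_symm_apply, Pi.smul_apply, Pi.single_eq_of_ne (Ne.symm hij),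
        smul_zero]
    · intro h
      exact absurd (Finset.mem_univ _) h
  have hφmem : ∀ τ : T, τ - ∑ i, ω τ i • t i ∈ F := by
    intro τ
    rw [← QuotientAddGroup.eq_zero_iff, QuotientAddGroup.mk_sub, ← hmk τ, sub_self]
  set φ : T → F := fun τ => ⟨τ - ∑ i, ω τ i • t i, hφmem τ⟩ with hφ
  set β : T → ι → Bool := fun τ i => decide (2 * ω τ i < N i) with hβ
  have hφadd : ∀ a b, ((φ a + φ b : F) : T) = a + b - ∑ i, (ω a + ω b) i • t i := by
    intro a b
    simp only [hφ, AddSubgroup.coe_add, Pi.add_apply, add_zsmul, Finset.sum_add_distrib]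
    abel
  refine ⟨ι, hι, ω, φ, β, ?_, hωeq, ?_, ?_⟩
  · exact (Nat.mul_le_mul_right _ hcard).trans (Lift_card T m F)
  · intro a b hab
    have h1 := (hωeq a b).2 hab
    simp only [hβ, h1]
  · intro a b c d h1 h2 h3
    constructor
    · intro h
      have h4 : ω a + ω b = ω c + ω d := by
        funext i
        have hb1 := congrFun h1 i
        have hb2 := congrFun h2 i
        have hb3 := congrFun h3 i
        simp only [hβ, decide_eq_decide] at hb1 hb2 hb3
        have hz : (N i : ℤ) ∣ (ω a i + ω b i) - (ω c i + ω d i) := by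
          rw [← ZMod.intCast_zmod_eq_zero_iff_dvd]
          push_cast
          rw [hωcast, hωcast, hωcast, hωcast]
          have h5 : π a i + π b i = π c i + π d i := by
            have h6 : π (a + b) = π (c + d) := by rw [h]
            rw [hπadd, hπadd] at h6
            exact congrFun h6 i
          rw [h5, sub_self]
        exact Lift_int _ _ _ _ _ hz (hωrange a i) (hωrange b i) (hωrange c i) (hωrange d i)
          hb1 hb2 hb3
      refine ⟨h4, ?_⟩
      ext
      rw [hφadd, hφadd, h, h4]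
    · rintro ⟨h4, h5⟩
      have h6 : ((φ a + φ b : F) : T) = ((φ c + φ d : F) : T) := by rw [h5]
      rw [hφadd, hφadd, h4] at h6
      exact sub_left_injective h6

end Pool.Agent.WPF
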