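import Pool.Agent.WPF.CondPfr
set_option autoImplicit false

/-!
# Module Low.

Among the subgroups `V ≤ W` (finitely many) choose one minimising
`Φ(V) = (lc W - lc V) + Dq x V + Dq y V`.  Comparing with `V = W`: second claim (`Dq_nonneg`).
For the first: `cond_pfr` for `V` (`m • V = 0`) gives `V' ≤ V` with
`Dq x V' + Dq y V' + δ ≤ cP m * cq x y V`, `δ = (hq x V' - hq x V) + (hq y V' - hq y V)`.
By definition `Dq x V - Dq x V' = (lc V - lc V') - (hq x V' - hq x V)`, so `Φ(V) ≤ Φ(V')` says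
`2 (lc V - lc V') - δ ≤ lc V - lc V'`, that is `lc V - lc V' ≤ δ`, and then
`Dq x V + Dq y V = Dq x V' + Dq y V' + 2 (lc V - lc V') - δ ≤ Dq x V' + Dq y V' + δ`.
-/
namespace Pool.Agent.WPF
open Finset Pool.Agent.Ldc
variable {G : Type} [AddCommGroup G] [Fintype G] {x y : G → ℝ}

theorem low {m : ℕ} (hm : 3 ≤ m) (hx : IsP x) (hy : IsP y) (W : AddSubgroup G)
    (hW : ∀ w ∈ W, m • w = 0) :
    ∃ V ≤ W, Dq x V + Dq y V ≤ (cP m : ℝ) * cq x y V ∧ lc W - lc V ≤ Dq x W + Dq y W := by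
  have hfin : ({V | V ≤ W} : Set (AddSubgroup G)).Finite := Set.toFinite _
  obtain ⟨V, hV, hmin⟩ := Set.exists_min_image {V : AddSubgroup G | V ≤ W}
    (fun V => (lc W - lc V) + Dq x V + Dq y V) hfin ⟨W, show W ≤ W from le_rfl⟩
  have hVW : V ≤ W := hV
  refine ⟨V, hVW, ?_, ?_⟩
  · obtain ⟨V', hV', h1⟩ := cond_pfr hm hx hy V (fun w hw => hW w (hVW hw))
    have h2 := hmin V' (show V' ≤ W from hV'.trans hVW)
    simp only [Dq] at h1 h2 ⊢
    linarith
  · have h2 := hmin W (show W ≤ W from le_rfl)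
    have h3 := Dq_nonneg hx V
    have h4 := Dq_nonneg hy V
    beta_reduce at h2
    linarith

end Pool.Agent.WPF
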