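import Pool.Agent.WPF.Fib
set_option autoImplicit false

/-!
# Module Push.  Push-forward to a quotient group.

`φ : G →+ Q` surjective, `Q` finite; `pr x (fun g => φ g)` is the law of `φ(X)`.
* `hq_pr`: `H_law`, and `qm V (φ g)` and `qm (V.comap φ) g` are functions of one another
  (`H_congr`; use e.g. `Quotient.out`, or two `H_comp_le`-type inequalities).
* `ent_pr`: `H_law`/`ent_eq_H`; `φ g` and `qm φ.ker g` are functions of one another (or `hq_pr` with
  `V = ⊥`, `hq_bot`, `pr_isP`).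
* `dq_pr`, `rd_pr`: `X, Y` independent, so `φ X, φ Y` are (`Indep.comp`, `H_fun_of_indep`):
  `H (pp (pr x φ) (pr y φ)) F = H (pp x y) (fun u => F (φ u.1, φ u.2))`.
* `lc_comap`: `|φ⁻¹ V| = |V| |ker φ|` (e.g. `AddSubgroup.card_comap_of_surjective`-type lemma or first
  isomorphism theorem for the restriction of `φ` to `φ⁻¹ V`).
* `dq_nonneg`: apply `rd_nonneg` to the push-forwards under `QuotientAddGroup.mk' W`
  (with `Fintype.ofFinite (G ⧸ W)`).
-/
namespace Pool.Agent.WPF
open Finset Pool.Agent.Ldc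
variable {G : Type} [AddCommGroup G] [Fintype G] {x y : G → ℝ}
variable {Q : Type} [AddCommGroup Q] [Fintype Q]

private theorem Push_ker {Ω' α β : Type} [Fintype Ω'] (p : Ω' → ℝ) (f : Ω' → α) (g : Ω' → β)
    (h : ∀ ω ω', f ω = f ω' ↔ g ω = g ω') : H p f = H p g := by
  unfold H
  congr 1
  refine Finset.sum_congr rfl fun ω _ => ?_
  have h1 : (fun ω' => f ω' = f ω) = (fun ω' => g ω' = g ω) := funext fun ω' => propext (h ω' ω)
  unfold pr
  rw [h1]

private theorem Push_two {Ω₁ Ω₂ α δ : Type} [Fintype Ω₁] [Fintype Ω₂] [Fintype α] {p₁ : Ω₁ → ℝ}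
    {p₂ : Ω₂ → ℝ} (h1 : IsP p₁) (h2 : IsP p₂) (f : Ω₁ → α) (g : Ω₂ → α) (φ : α × α → δ) :
    H (pp p₁ p₂) (fun x => φ (f x.1, g x.2)) = H (pp (pr p₁ f) (pr p₂ g)) φ := by
  rw [H_fun_of_indep (indep_pp h1 h2 f g) φ, pr_pp_fst h2, pr_pp_snd h1]

private theorem Push_qm {A : Type} [AddCommGroup A] (W : AddSubgroup A) (a b : A) :
    qm W a = qm W b ↔ -a + b ∈ W := by
  unfold qm
  exact QuotientAddGroup.eq

theorem hq_pr (hx : IsP x) (φ : G →+ Q) (hφ : Function.Surjective φ) (V : AddSubgroup Q) :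
    hq (pr x (fun g => φ g)) V = hq x (V.comap φ) := by
  unfold hq
  rw [H_law]
  refine Push_ker _ _ _ fun a b => ?_
  rw [Push_qm, Push_qm, AddSubgroup.mem_comap, map_add, map_neg]

theorem ent_pr (hx : IsP x) (φ : G →+ Q) (hφ : Function.Surjective φ) :
    ent (pr x (fun g => φ g)) = hq x φ.ker := by
  rw [← H_eq_ent]
  unfold hq
  refine Push_ker _ _ _ fun a b => ?_
  rw [Push_qm, AddMonoidHom.mem_ker, map_add, map_neg, neg_add_eq_zero]

theorem dq_pr (hx : IsP x) (hy : IsP y) (φ : G →+ Q) (hφ : Function.Surjective φ)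
    (V : AddSubgroup Q) :
    dq (pr x (fun g => φ g)) (pr y (fun g => φ g)) V = dq x y (V.comap φ) := by
  unfold dq
  rw [hq_pr hx φ hφ V, hq_pr hy φ hφ V,
    ← Push_two hx hy (fun g => φ g) (fun g => φ g) (fun u => qm V (u.1 - u.2))]
  congr 2
  refine Push_ker _ _ _ fun a b => ?_
  simp only [Push_qm, AddSubgroup.mem_comap, map_add, map_neg, map_sub]

theorem rd_pr (hx : IsP x) (hy : IsP y) (φ : G →+ Q) (hφ : Function.Surjective φ) :
    rd (pr x (fun g => φ g)) (pr y (fun g => φ g)) = dq x y φ.ker := by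
  unfold dq rd
  rw [ent_pr hx φ hφ, ent_pr hy φ hφ,
    ← Push_two hx hy (fun g => φ g) (fun g => φ g) (fun u => u.1 - u.2)]
  congr 2
  refine Push_ker _ _ _ fun a b => ?_
  simp only [Push_qm, AddMonoidHom.mem_ker, map_add, map_neg, map_sub]
  rw [neg_add_eq_zero]

theorem lc_comap (φ : G →+ Q) (hφ : Function.Surjective φ) (V : AddSubgroup Q) :
    lc (V.comap φ) = lc φ.ker + lc V := by
  have h1 := AddSubgroup.card_mul_index (V.comap φ)
  rw [AddSubgroup.index_comap_of_surjective V hφ] at h1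
  have h2 := AddSubgroup.card_mul_index V
  have h3 := AddSubgroup.card_mul_index φ.ker
  rw [AddSubgroup.index_ker, AddMonoidHom.range_eq_top.mpr hφ, AddSubgroup.card_top] at h3
  have hV : (0 : ℝ) < Nat.card V := by exact_mod_cast Nat.card_pos
  have hI : (0 : ℝ) < V.index := by
    have : 0 < V.index := Nat.pos_of_ne_zero AddSubgroup.index_ne_zero_of_finite
    exact_mod_cast this
  have hC : (0 : ℝ) < Nat.card (V.comap φ) := by exact_mod_cast Nat.card_pos
  have hK : (0 : ℝ) < Nat.card φ.ker := by exact_mod_cast Nat.card_pos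
  have h4 : (Nat.card (V.comap φ) : ℝ) = Nat.card φ.ker * Nat.card V := by
    have h5 : Nat.card (V.comap φ) * V.index = Nat.card φ.ker * Nat.card V * V.index := by
      rw [h1, ← h3, ← h2, mul_assoc]
    have h6 : (Nat.card (V.comap φ) : ℝ) * V.index = Nat.card φ.ker * Nat.card V * V.index := by
      exact_mod_cast h5
    exact mul_right_cancel₀ hI.ne' h6
  unfold lc
  rw [h4, Real.log_mul hK.ne' hV.ne']

theorem Dq_comap (hx : IsP x) (φ : G →+ Q) (hφ : Function.Surjective φ) (V : AddSubgroup Q) :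
    Dq x (V.comap φ) = Dq x φ.ker + Dq (pr x (fun g => φ g)) V := by
  unfold Dq
  rw [lc_comap φ hφ V, hq_pr hx φ hφ V, ent_pr hx φ hφ]
  ring

theorem dq_nonneg (hx : IsP x) (hy : IsP y) (W : AddSubgroup G) : 0 ≤ dq x y W := by
  haveI : Fintype (G ⧸ W) := Fintype.ofFinite _
  have h := rd_nonneg (pr_isP hx (fun g => QuotientAddGroup.mk' W g))
    (pr_isP hy (fun g => QuotientAddGroup.mk' W g))
  rw [rd_pr hx hy (QuotientAddGroup.mk' W) (QuotientAddGroup.mk'_surjective W),
    QuotientAddGroup.ker_mk'] at h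
  exact h

end Pool.Agent.WPF
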