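import Pool.Agent.WPF.Fib
import Pool.Agent.WPF.PfrW
set_option autoImplicit false

/-!
# Module Step.  Passing to fibres of uniform laws on sets.

* `ent_unif`: `H_unif` with `f = id`.
* `rd_unif_image`: `unif (A.image f) = pr (unif A) f` for injective `f` (compute), then `rd_pr_inj`.
* `step`: with `x = unif A`, `y = unif B`: for `pr x (qm Hs) a > 0`, `cnd x (qm Hs) a = unif A_a`, `A_a =
  A.filter (fun g => qm Hs g = a)`, so by `ent_sub_hq`
  `∑ a, pr x (qm Hs) a * log |A_a| = log |A| - hq x Hs` and the same for `B`; by `cq_eq_sum`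
  `∑ a, ∑ b, P(a) P(b) (c * rd (unif A_a) (unif B_b) - log |A_a| - log |B_b|) = c * cq x y Hs - log |A| + hq x Hs
  - log |B| + hq y Hs ≤ c * cq x y Hs + c * dq x y Hs - log |A| - log |B| ≤ c * rd x y - log |A| - log |B|`
  (`dq_add_cq_le`).  Some `(a, b)` with positive probabilities is at most the average (`exists_le_avg` twice, or
  once for `pp x y`).
-/
namespace Pool.Agent.WPF
open Finset Pool.Agent.Ldc
variable {G : Type} [AddCommGroup G] [Fintype G]

theorem ent_unif (A : Finset G) (hA : A.Nonempty) : ent (unif A) = Real.log (A.card : ℝ) := by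
  rw [ent_eq_H]
  exact H_unif A hA _ (fun a _ b _ h => h)

open Classical in
theorem Step_pr {Ω α : Type} [Fintype Ω] (p : Ω → ℝ) (f : Ω → α) (b : α) :
    pr p f b = ∑ ω, if f ω = b then p ω else 0 := by
  unfold pr pe
  rfl

open Classical in
theorem Step_pr_inj {G' : Type} [Fintype G'] (f : G' → G) (hf : Function.Injective f)
    (A : Finset G') : pr (unif A) f = unif (A.image f) := by
  funext b
  rw [Step_pr]
  unfold unif
  rw [Finset.card_image_of_injective _ hf]
  by_cases hb : b ∈ A.image f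
  · obtain ⟨a, ha, rfl⟩ := Finset.mem_image.1 hb
    rw [if_pos hb, Finset.sum_eq_single a]
    · rw [if_pos rfl, if_pos ha]
    · intro c _ hc
      rw [if_neg]
      intro h
      exact hc (hf h)
    · intro h
      exact absurd (Finset.mem_univ a) h
  · rw [if_neg hb]
    apply Finset.sum_eq_zero
    intro c _
    by_cases h : f c = b
    · rw [if_pos h, if_neg]
      intro hc
      exact hb (Finset.mem_image.2 ⟨c, hc, h⟩)
    · rw [if_neg h]

open Classical in
theorem rd_unif_image {G' : Type} [AddCommGroup G'] [Fintype G'] (i : G' →+ G)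
    (hi : Function.Injective i) (a₀ b₀ : G) (A B : Finset G') (hA : A.Nonempty) (hB : B.Nonempty) :
    rd (unif (A.image (fun g => a₀ + i g))) (unif (B.image (fun g => b₀ + i g)))
      = rd (unif A) (unif B) := by
  have h1 : ∀ c : G, Function.Injective (fun g => c + i g) := by
    intro c g g' h
    exact hi (add_left_cancel h)
  rw [← Step_pr_inj _ (h1 a₀) A, ← Step_pr_inj _ (h1 b₀) B]
  exact rd_pr_inj (unif_isP A hA) (unif_isP B hB) i hi a₀ b₀

open Classical in
/-- the part of `A` in the coset `a` -/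
theorem Step_cnd (A : Finset G) (hA : A.Nonempty) (Hs : AddSubgroup G) (a : G ⧸ Hs)
    (ha : 0 < pr (unif A) (qm Hs) a) :
    (A.filter (fun g => qm Hs g = a)).Nonempty ∧
      cnd (unif A) (qm Hs) a = unif (A.filter (fun g => qm Hs g = a)) := by
  have hne : (A.filter (fun g => qm Hs g = a)).Nonempty := by
    obtain ⟨ω, hω, hωa⟩ := exists_of_pr_pos (unif_isP A hA) (qm Hs) ha
    refine ⟨ω, Finset.mem_filter.2 ⟨?_, hωa⟩⟩
    by_contra hcon
    unfold unif at hω
    rw [if_neg hcon] at hω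
    exact lt_irrefl _ hω
  refine ⟨hne, ?_⟩
  have hcA : (0 : ℝ) < (A.card : ℝ) := by exact_mod_cast hA.card_pos
  have hcF : (0 : ℝ) < ((A.filter (fun g => qm Hs g = a)).card : ℝ) := by
    exact_mod_cast hne.card_pos
  have hpr : pr (unif A) (qm Hs) a =
      ((A.filter (fun g => qm Hs g = a)).card : ℝ) / (A.card : ℝ) := by
    rw [Step_pr]
    unfold unif
    trans ∑ ω : G, if ω ∈ A.filter (fun g => qm Hs g = a) then 1 / (A.card : ℝ) else 0
    · apply Finset.sum_congr rfl
      intro ω _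
      by_cases h2 : qm Hs ω = a <;> by_cases h3 : ω ∈ A <;> simp [h2, h3]
    rw [← Finset.sum_filter]
    have h4 : (Finset.univ.filter fun ω => ω ∈ A.filter (fun g => qm Hs g = a)) =
        A.filter (fun g => qm Hs g = a) := by
      ext ω
      simp
    rw [h4, Finset.sum_const, nsmul_eq_mul]
    ring
  funext ω
  unfold cnd
  rw [hpr]
  unfold unif
  by_cases h2 : qm Hs ω = a
  · by_cases h3 : ω ∈ A
    · rw [if_pos h2, if_pos h3, if_pos (Finset.mem_filter.2 ⟨h3, h2⟩)]
      field_simp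
    · rw [if_pos h2, if_neg h3, zero_div, if_neg]
      intro h
      exact h3 (Finset.mem_filter.1 h).1
  · rw [if_neg h2, if_neg]
    intro h
    exact h2 (Finset.mem_filter.1 h).2

theorem step (A B : Finset G) (hA : A.Nonempty) (hB : B.Nonempty) (Hs : AddSubgroup G) (c : ℝ)
    (hc : 0 ≤ c) (h : hq (unif A) Hs + hq (unif B) Hs ≤ c * dq (unif A) (unif B) Hs) :
    ∃ A' B' : Finset G, A' ⊆ A ∧ B' ⊆ B ∧ A'.Nonempty ∧ B'.Nonempty ∧
      (∀ a ∈ A', ∀ a' ∈ A', a - a' ∈ Hs) ∧ (∀ b ∈ B', ∀ b' ∈ B', b - b' ∈ Hs) ∧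
      c * rd (unif A') (unif B') - Real.log (A'.card : ℝ) - Real.log (B'.card : ℝ)
        ≤ c * rd (unif A) (unif B) - Real.log (A.card : ℝ) - Real.log (B.card : ℝ) := by
  classical
  have hfin : Fintype (G ⧸ Hs) := Fintype.ofFinite _
  have hx := unif_isP A hA
  have hy := unif_isP B hB
  obtain ⟨P, hP⟩ : ∃ P : G ⧸ Hs → ℝ, P = pr (unif A) (qm Hs) := ⟨_, rfl⟩
  obtain ⟨Q, hQ⟩ : ∃ Q : G ⧸ Hs → ℝ, Q = pr (unif B) (qm Hs) := ⟨_, rfl⟩
  have hP1 : ∑ a, P a = 1 := by
    rw [hP]
    exact (pr_isP hx (qm Hs)).2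
  have hQ1 : ∑ a, Q a = 1 := by
    rw [hQ]
    exact (pr_isP hy (qm Hs)).2
  obtain ⟨u, hu⟩ : ∃ u : G ⧸ Hs → G ⧸ Hs → ℝ, u = fun a b =>
      c * rd (cnd (unif A) (qm Hs) a) (cnd (unif B) (qm Hs) b) - ent (cnd (unif A) (qm Hs) a)
        - ent (cnd (unif B) (qm Hs) b) := ⟨_, rfl⟩
  obtain ⟨T, hT⟩ : ∃ T : ℝ, T = c * rd (unif A) (unif B) - Real.log (A.card : ℝ)
      - Real.log (B.card : ℝ) := ⟨_, rfl⟩
  have e1 := ent_sub_hq hx Hs
  have e2 := ent_sub_hq hy Hs
  have e3 := cq_eq_sum hx hy Hs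
  rw [← hP] at e1 e3
  rw [← hQ] at e2 e3
  have havg : ∑ a, P a * ∑ b, Q b * u a b ≤ T := by
    have h1 : ∑ a, P a * ∑ b, Q b * u a b = c * cq (unif A) (unif B) Hs
        - (ent (unif A) - hq (unif A) Hs) - (ent (unif B) - hq (unif B) Hs) := by
      have h2 : ∀ a, P a * ∑ b, Q b * u a b =
          c * (∑ b, P a * Q b * rd (cnd (unif A) (qm Hs) a) (cnd (unif B) (qm Hs) b))
          - P a * ent (cnd (unif A) (qm Hs) a)
          - P a * ∑ b, Q b * ent (cnd (unif B) (qm Hs) b) := by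
        intro a
        have h3 : ∀ b, Q b * u a b =
            c * (Q b * rd (cnd (unif A) (qm Hs) a) (cnd (unif B) (qm Hs) b))
            - Q b * ent (cnd (unif A) (qm Hs) a) - Q b * ent (cnd (unif B) (qm Hs) b) := by
          intro b
          rw [hu]
          ring
        rw [Finset.sum_congr rfl (fun b _ => h3 b), Finset.sum_sub_distrib,
          Finset.sum_sub_distrib, ← Finset.mul_sum, ← Finset.sum_mul, hQ1]
        have h4 : ∑ b, P a * Q b * rd (cnd (unif A) (qm Hs) a) (cnd (unif B) (qm Hs) b) =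
            P a * ∑ b, Q b * rd (cnd (unif A) (qm Hs) a) (cnd (unif B) (qm Hs) b) := by
          rw [Finset.mul_sum]
          exact Finset.sum_congr rfl fun b _ => by ring
        rw [h4]
        ring
      rw [Finset.sum_congr rfl (fun a _ => h2 a), Finset.sum_sub_distrib, Finset.sum_sub_distrib,
        ← Finset.mul_sum, ← e3, ← e1, ← Finset.sum_mul, hP1, ← e2]
      ring
    rw [h1, hT, ent_unif A hA, ent_unif B hB]
    have h5 := dq_add_cq_le hx hy Hs
    have h6 : c * (dq (unif A) (unif B) Hs + cq (unif A) (unif B) Hs) ≤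
        c * rd (unif A) (unif B) := mul_le_mul_of_nonneg_left h5 hc
    linarith
  rw [hP] at havg
  obtain ⟨a, ha, ha2⟩ := exists_le_avg hx (qm Hs) (fun a => ∑ b, Q b * u a b) T havg
  rw [hQ] at ha2
  obtain ⟨b, hb, hb2⟩ := exists_le_avg hy (qm Hs) (fun b => u a b) T ha2
  obtain ⟨hAne, hAc⟩ := Step_cnd A hA Hs a ha
  obtain ⟨hBne, hBc⟩ := Step_cnd B hB Hs b hb
  refine ⟨A.filter (fun g => qm Hs g = a), B.filter (fun g => qm Hs g = b),
    Finset.filter_subset _ _, Finset.filter_subset _ _, hAne, hBne, ?_, ?_, ?_⟩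
  · intro g hg g' hg'
    have h1 : qm Hs g = qm Hs g' := by
      rw [(Finset.mem_filter.1 hg).2, (Finset.mem_filter.1 hg').2]
    exact QuotientAddGroup.eq_iff_sub_mem.1 h1
  · intro g hg g' hg'
    have h1 : qm Hs g = qm Hs g' := by
      rw [(Finset.mem_filter.1 hg).2, (Finset.mem_filter.1 hg').2]
    exact QuotientAddGroup.eq_iff_sub_mem.1 h1
  · have h1 : u a b ≤ T := hb2
    rw [hu] at h1
    simp only [hAc, hBc] at h1
    rw [ent_unif _ hAne, ent_unif _ hBne, hT] at h1
    exact h1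

end Pool.Agent.WPF
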