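import Pool.Agent.WPF.Upper
import Pool.Agent.WPF.Step
set_option autoImplicit false

/-!
# Module Term.  Terminal pair.

Strong induction on `A.card + B.card`, for all finite groups `G` at once.  Let `a₀ ∈ A`, `b₀ ∈ B` and
`G₁ = AddSubgroup.closure ({a - a₀ : a ∈ A} ∪ {b - b₀ : b ∈ B})` (as a type `↥G₁`), `i₁` the inclusion and
`A₁ = {g : G₁ | a₀ + g ∈ A}`, `B₁ = {g : G₁ | b₀ + g ∈ B}`; `A = A₁.image (a₀ + ·)`, so `|A₁| = |A|`, `|B₁| = |B|` and
`rd (unif A₁) (unif B₁) = rd (unif A) (unif B)` by `rd_unif_image`.  Apply `upper` in `G₁`: `Hs`.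
* `Hs = ⊤`: then `lc ⊤ - lc (mulG m G₁) ≤ ...` gives
  `df m x + df m y = 2 (lc ⊤ - lc (mulG m G₁)) - hq x (mulG) - hq y (mulG) ≤ cP m * dq x y (mulG) ≤ cP m * rd x y`
  (`dq_le_rd`); take `G₂ = G₁`.
* `Hs ≠ ⊤`: `step` in `G₁` with `c = cP m` gives `A', B'`; they are inside cosets of `Hs`.  If `A' = A₁` and `B' = B₁`
  then all `a - a₀`, `b - b₀` are in `Hs` (note `0 ∈ A₁`, `0 ∈ B₁`), so `Hs = ⊤` (the closure; pull back to `G₁`),
  contradiction; so `|A'| + |B'| < |A| + |B|`; induction hypothesis for `(G₁, A', B')` gives `(G₂, i, a, b, A₂, B₂)`; answer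
  `(G₂, i₁ ∘ i, a₀ + a, b₀ + b, A₂, B₂)`.
-/
namespace Pool.Agent.WPF
open Finset Pool.Agent.Ldc

theorem terminal {m : ℕ} (hm : 3 ≤ m) (n : ℕ) : ∀ (G : Type) [AddCommGroup G] [Fintype G]
    (A B : Finset G), A.Nonempty → B.Nonempty → A.card + B.card ≤ n →
    ∃ (G₂ : Type) (_ : AddCommGroup G₂) (_ : Fintype G₂) (i : G₂ →+ G) (a₀ b₀ : G)
      (A₂ B₂ : Finset G₂), Function.Injective i ∧ A₂.Nonempty ∧ B₂.Nonempty ∧
      (∀ g ∈ A₂, a₀ + i g ∈ A) ∧ (∀ g ∈ B₂, b₀ + i g ∈ B) ∧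
      df m (unif A₂) + df m (unif B₂) ≤ (cP m : ℝ) * rd (unif A₂) (unif B₂) ∧
      (cP m : ℝ) * rd (unif A₂) (unif B₂) - Real.log (A₂.card : ℝ) - Real.log (B₂.card : ℝ)
        ≤ (cP m : ℝ) * rd (unif A) (unif B) - Real.log (A.card : ℝ) - Real.log (B.card : ℝ) := by
  classical
  induction n with
  | zero =>
    intro G _ _ A B hA hB hcard
    have := hA.card_pos
    omega
  | succ n ih =>
    intro G _ _ A B hA hB hcard
    obtain ⟨a₀, ha₀⟩ := hA
    obtain ⟨b₀, hb₀⟩ := hB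
    let G₁ : AddSubgroup G := AddSubgroup.closure
      ({g | ∃ a ∈ A, g = a - a₀} ∪ {g | ∃ b ∈ B, g = b - b₀})
    have hAG : ∀ a ∈ A, a - a₀ ∈ G₁ := fun a ha =>
      AddSubgroup.subset_closure (Or.inl ⟨a, ha, rfl⟩)
    have hBG : ∀ b ∈ B, b - b₀ ∈ G₁ := fun b hb =>
      AddSubgroup.subset_closure (Or.inr ⟨b, hb, rfl⟩)
    let _ : Fintype G₁ := Fintype.ofFinite _
    have hi₁ : Function.Injective G₁.subtype := Subtype.val_injective
    let A₁ : Finset G₁ := univ.filter (fun g => a₀ + (g : G) ∈ A)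
    let B₁ : Finset G₁ := univ.filter (fun g => b₀ + (g : G) ∈ B)
    have hmA : ∀ g : G₁, g ∈ A₁ ↔ a₀ + (g : G) ∈ A := fun g => by simp [A₁]
    have hmB : ∀ g : G₁, g ∈ B₁ ↔ b₀ + (g : G) ∈ B := fun g => by simp [B₁]
    have h0A : (0 : G₁) ∈ A₁ := by
      rw [hmA]
      simpa using ha₀
    have h0B : (0 : G₁) ∈ B₁ := by
      rw [hmB]
      simpa using hb₀
    have hA₁ : A₁.Nonempty := ⟨0, h0A⟩
    have hB₁ : B₁.Nonempty := ⟨0, h0B⟩
    have hAi : A₁.image (fun g => a₀ + G₁.subtype g) = A := by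
      ext a
      rw [mem_image]
      constructor
      · rintro ⟨g, hg, rfl⟩
        exact (hmA g).1 hg
      · intro ha
        refine ⟨⟨a - a₀, hAG a ha⟩, ?_, ?_⟩
        · rw [hmA]
          simpa using ha
        · simp
    have hBi : B₁.image (fun g => b₀ + G₁.subtype g) = B := by
      ext b
      rw [mem_image]
      constructor
      · rintro ⟨g, hg, rfl⟩
        exact (hmB g).1 hg
      · intro hb
        refine ⟨⟨b - b₀, hBG b hb⟩, ?_, ?_⟩
        · rw [hmB]
          simpa using hb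
        · simp
    have hcA : A₁.card = A.card := by
      rw [← hAi, card_image_of_injective]
      · intro g g' h
        exact hi₁ (add_left_cancel h)
    have hcB : B₁.card = B.card := by
      rw [← hBi, card_image_of_injective]
      · intro g g' h
        exact hi₁ (add_left_cancel h)
    have hrd : rd (unif A₁) (unif B₁) = rd (unif A) (unif B) := by
      have h1 := rd_unif_image G₁.subtype hi₁ a₀ b₀ A₁ B₁ hA₁ hB₁
      rw [← h1]
      exact congrArg₂ (fun (s t : Finset G) => rd (unif s) (unif t)) (by convert hAi)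
        (by convert hBi)
    have hxP := unif_isP A₁ hA₁
    have hyP := unif_isP B₁ hB₁
    have hcP0 : (0 : ℝ) ≤ (cP m : ℝ) := Nat.cast_nonneg _
    obtain ⟨Hs, -, hH2, hH3⟩ := upper hm hxP hyP
    by_cases hHs : Hs = ⊤
    · refine ⟨G₁, inferInstance, inferInstance, G₁.subtype, a₀, b₀, A₁, B₁, hi₁, hA₁, hB₁,
        fun g hg => (hmA g).1 hg, fun g hg => (hmB g).1 hg, ?_, ?_⟩
      · rw [hHs] at hH3
        have h1 := dq_le_rd hxP hyP (mulG m G₁)
        have h2 : (cP m : ℝ) * dq (unif A₁) (unif B₁) (mulG m G₁) ≤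
            (cP m : ℝ) * rd (unif A₁) (unif B₁) := mul_le_mul_of_nonneg_left h1 hcP0
        unfold df
        linarith
      · rw [hrd, hcA, hcB]
    · obtain ⟨A', B', hA's, hB's, hA', hB', hdA, hdB, hle⟩ :=
        step A₁ B₁ hA₁ hB₁ Hs (cP m : ℝ) hcP0 hH2
      have hlt : A'.card + B'.card < A₁.card + B₁.card := by
        by_contra hcon
        push Not at hcon
        have c1 := card_le_card hA's
        have c2 := card_le_card hB's
        have e1 : A' = A₁ := eq_of_subset_of_card_le hA's (by omega)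
        have e2 : B' = B₁ := eq_of_subset_of_card_le hB's (by omega)
        apply hHs
        rw [eq_top_iff]
        intro g _
        have hcl : G₁ ≤ Hs.map G₁.subtype := by
          refine (AddSubgroup.closure_le _).2 ?_
          rintro g (⟨a, ha, rfl⟩ | ⟨b, hb, rfl⟩)
          · refine ⟨⟨a - a₀, hAG a ha⟩, ?_, rfl⟩
            have h1 : (⟨a - a₀, hAG a ha⟩ : G₁) ∈ A₁ := by
              rw [hmA]
              simpa using ha
            have h2 := hdA _ (e1 ▸ h1) 0 (e1 ▸ h0A)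
            rwa [sub_zero] at h2
          · refine ⟨⟨b - b₀, hBG b hb⟩, ?_, rfl⟩
            have h1 : (⟨b - b₀, hBG b hb⟩ : G₁) ∈ B₁ := by
              rw [hmB]
              simpa using hb
            have h2 := hdB _ (e2 ▸ h1) 0 (e2 ▸ h0B)
            rwa [sub_zero] at h2
        obtain ⟨h, hh, hhg⟩ := hcl g.2
        have : h = g := hi₁ hhg
        rw [← this]
        exact hh
      obtain ⟨G₂, i1, i2, i, a, b, A₂, B₂, hi, hA₂, hB₂, k1, k2, k3, k4⟩ :=
        ih G₁ A' B' hA' hB' (by omega)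
      refine ⟨G₂, i1, i2, G₁.subtype.comp i, a₀ + G₁.subtype a, b₀ + G₁.subtype b, A₂, B₂,
        hi₁.comp hi, hA₂, hB₂, ?_, ?_, k3, ?_⟩
      · intro g hg
        have h1 := (hmA _).1 (hA's (k1 g hg))
        simpa [add_assoc] using h1
      · intro g hg
        have h1 := (hmB _).1 (hB's (k2 g hg))
        simpa [add_assoc] using h1
      · rw [hrd, hcA, hcB] at hle
        exact k4.trans hle

end Pool.Agent.WPF
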