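import Pool.Agent.WPF.Push
set_option autoImplicit false

/-!
# Module Tor.  `|G[m]| |m G| = |G|`, and the deficit `df` under quotients.

* `lc_tor`: first isomorphism theorem for multiplication by `m` (`lc_comap`-type count; `torG` is
  the kernel and `mulG` the range of `nsmulAddMonoidHom m`).
* `df_nonneg`: `hq_sub_le` with `mulG m G ≤ ⊤` and `hq_top`.
* `df_pr`: `(mulG m Q).comap φ = mulG m G ⊔ φ.ker =: M ≥ mulG m G`; by `hq_pr` and `lc_comap` (for `⊤` and for
  `mulG m Q`) `df m (pr x φ) = lc ⊤ - lc M - hq x M`, and `hq x (mulG m G) - hq x M ≤ lc M - lc (mulG m G)`.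
  (only `mulG m G ≤ (mulG m Q).comap φ` is needed.)
-/
namespace Pool.Agent.WPF
open Finset Pool.Agent.Ldc
variable {G : Type} [AddCommGroup G] [Fintype G] {x y : G → ℝ}
variable {Q : Type} [AddCommGroup Q] [Fintype Q]

theorem lc_tor (m : ℕ) : lc (torG m G) + lc (mulG m G) = lc (⊤ : AddSubgroup G) := by
  have h3 := AddSubgroup.card_mul_index (nsmulAddMonoidHom (α := G) m).ker
  rw [AddSubgroup.index_ker] at h3
  have hK : (0 : ℝ) < Nat.card (nsmulAddMonoidHom (α := G) m).ker := by exact_mod_cast Nat.card_pos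
  have hR : (0 : ℝ) < Nat.card (nsmulAddMonoidHom (α := G) m).range := by
    exact_mod_cast Nat.card_pos
  unfold lc torG mulG
  rw [← Real.log_mul hK.ne' hR.ne', AddSubgroup.card_top, ← h3]
  push_cast
  rfl

theorem df_nonneg (m : ℕ) (hx : IsP x) : 0 ≤ df m x := by
  have h := hq_sub_le hx (le_top : mulG m G ≤ ⊤)
  rw [hq_top hx] at h
  unfold df
  linarith

theorem df_pr (m : ℕ) (hx : IsP x) (φ : G →+ Q) (hφ : Function.Surjective φ) :
    df m (pr x (fun g => φ g)) ≤ df m x := by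
  have hM : mulG m G ≤ (mulG m Q).comap φ := by
    rintro g ⟨a, rfl⟩
    rw [AddSubgroup.mem_comap]
    exact ⟨φ a, by simp⟩
  have h1 := hq_sub_le hx hM
  have h2 := lc_comap φ hφ (⊤ : AddSubgroup Q)
  have h3 := lc_comap φ hφ (mulG m Q)
  rw [AddSubgroup.comap_top] at h2
  unfold df
  rw [hq_pr hx φ hφ]
  linarith

end Pool.Agent.WPF
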