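import Pool.Agent.WPF.CondPfr
import Pool.Agent.WPF.Push
set_option autoImplicit false

/-!
# Module Upper.

Among the subgroups `Hs ≥ m G` choose one minimising `Ψ(Hs) = (lc Hs - lc (mulG m G)) + hq x Hs + hq y Hs`.

(★) For every subgroup `Hs ≥ m G` there is `H' ≥ Hs` with, writing `D = Dq_x + Dq_y` for the relative
deficits `Dq x H' - Dq x Hs` and `Dq y H' - Dq y Hs` (both `≥ 0`, `Dq_comap`, `Dq_nonneg`):
`D + hq x H' + hq y H' ≤ cP m * dq x y Hs`.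
Proof: `Q = G ⧸ Hs` is killed by `m`; apply `cond_pfr` in `Q` with `W = ⊤` to the push-forwards; there
`hq _ ⊤ = 0`, and `cq p q ⊤ ≤ rd p q` (`dq_add_cq_le`, `dq_nonneg`), `rd_pr` (`ker = Hs`), `H' = V.comap φ`,
`hq_pr`, `Dq_comap`.
Now `Dq x H' - Dq x Hs = (lc H' - lc Hs) - (hq x Hs - hq x H')`, so
`2 (lc H' - lc Hs) = D + (hq x Hs + hq y Hs) - (hq x H' + hq y H')`.
Minimality `Ψ(Hs) ≤ Ψ(H')` gives `hq x Hs + hq y Hs ≤ (lc H' - lc Hs) + hq x H' + hq y H'`, hence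
`hq x Hs + hq y Hs ≤ D + hq x H' + hq y H' ≤ cP m * dq x y Hs`.
For the last claim apply (★) to `m G` itself, getting `H₁`: `Ψ(Hs) ≤ Ψ(H₁) =
½ D + ½ (hq x (mG) + hq y (mG)) + ½ (hq x H₁ + hq y H₁)`, and `hq x Hs + hq y Hs ≥ 0`.
-/
namespace Pool.Agent.WPF
open Finset Pool.Agent.Ldc
variable {G : Type} [AddCommGroup G] [Fintype G] {x y : G → ℝ}

theorem Upper_star {m : ℕ} (hm : 3 ≤ m) (hx : IsP x) (hy : IsP y) (Hs : AddSubgroup G)
    (hHs : mulG m G ≤ Hs) :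
    ∃ H' : AddSubgroup G, Hs ≤ H' ∧
      (Dq x H' - Dq x Hs) + (Dq y H' - Dq y Hs) + hq x H' + hq y H' ≤ (cP m : ℝ) * dq x y Hs := by
  classical
  haveI : Fintype (G ⧸ Hs) := Fintype.ofFinite _
  obtain ⟨φ, hφ⟩ : ∃ φ : G →+ G ⧸ Hs, φ = QuotientAddGroup.mk' Hs := ⟨_, rfl⟩
  have hsurj : Function.Surjective φ := by
    rw [hφ]
    exact QuotientAddGroup.mk'_surjective Hs
  have hker : φ.ker = Hs := by
    rw [hφ]
    exact QuotientAddGroup.ker_mk' Hs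
  have hp : IsP (pr x (fun g => φ g)) := pr_isP hx _
  have hq' : IsP (pr y (fun g => φ g)) := pr_isP hy _
  have htor : ∀ w ∈ (⊤ : AddSubgroup (G ⧸ Hs)), m • w = 0 := by
    intro w _
    obtain ⟨g, rfl⟩ := hsurj w
    rw [← map_nsmul, ← AddMonoidHom.mem_ker, hker]
    exact hHs ⟨g, rfl⟩
  obtain ⟨V, -, hV⟩ := cond_pfr hm hp hq' ⊤ htor
  rw [hq_top hp, hq_top hq'] at hV
  have h1 := dq_add_cq_le hp hq' ⊤
  have h2 := dq_nonneg hp hq' ⊤
  have h3 := rd_pr hx hy φ hsurj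
  rw [hker] at h3
  have h4 := hq_pr hx φ hsurj V
  have h5 := hq_pr hy φ hsurj V
  have h6 := Dq_comap hx φ hsurj V
  have h7 := Dq_comap hy φ hsurj V
  rw [hker] at h6 h7
  refine ⟨V.comap φ, ?_, ?_⟩
  · intro g hg
    rw [AddSubgroup.mem_comap]
    have : φ g = 0 := by
      rw [← AddMonoidHom.mem_ker, hker]
      exact hg
    rw [this]
    exact V.zero_mem
  · have hc : (cP m : ℝ) * cq (pr x fun g => φ g) (pr y fun g => φ g) ⊤ ≤
        (cP m : ℝ) * dq x y Hs := by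
      apply mul_le_mul_of_nonneg_left _ (Nat.cast_nonneg _)
      linarith
    linarith

theorem upper {m : ℕ} (hm : 3 ≤ m) (hx : IsP x) (hy : IsP y) :
    ∃ Hs : AddSubgroup G, mulG m G ≤ Hs ∧ hq x Hs + hq y Hs ≤ (cP m : ℝ) * dq x y Hs ∧
      lc Hs - lc (mulG m G) ≤ (hq x (mulG m G) + hq y (mulG m G)) / 2
        + (cP m : ℝ) / 2 * dq x y (mulG m G) := by
  classical
  haveI : Finite (AddSubgroup G) := inferInstance
  haveI : Nonempty {W : AddSubgroup G // mulG m G ≤ W} := ⟨⟨mulG m G, le_rfl⟩⟩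
  obtain ⟨⟨Hs, hHs⟩, hmin⟩ := Finite.exists_min
    (fun W : {W : AddSubgroup G // mulG m G ≤ W} => lc W.1 + hq x W.1 + hq y W.1)
  have hmin' : ∀ W : AddSubgroup G, mulG m G ≤ W →
      lc Hs + hq x Hs + hq y Hs ≤ lc W + hq x W + hq y W := fun W hW => hmin ⟨W, hW⟩
  refine ⟨Hs, hHs, ?_, ?_⟩
  · obtain ⟨H', hH', h⟩ := Upper_star hm hx hy Hs hHs
    have h1 := hmin' H' (hHs.trans hH')
    unfold Dq at h
    linarith
  · obtain ⟨H₁, hH₁, h⟩ := Upper_star hm hx hy (mulG m G) le_rfl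
    have h1 := hmin' H₁ hH₁
    have h2 := hq_nonneg hx Hs
    have h3 := hq_nonneg hy Hs
    unfold Dq at h
    linarith

end Pool.Agent.WPF
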