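import Pool.Agent.WPF.Term
import Pool.Agent.WPF.ExF
set_option autoImplicit false

/-!
# Module Weak.  Weak PFR for sets, modulo `m`.

`d = rd (unif A) (unif A) ≤ 2 log K`: `H(X - X') ≤ log |A - A|` (`H_le_log_card`), `ent_unif`,
`|A - A| ≤ K² |A|` (`Finset.pluennecke_ruzsa_inequality_nsmul_sub_nsmul_add` with `1, 1`; see
`dbl_of_doubling` in MP_ce784b_co/SquarefreeOrders).  `terminal` for `A, A`: `G₂, i, a₀, A₂, B₂`; since
`|A₂|, |B₂| ≤ |A|` (injectivity), `d₂ = rd (unif A₂) (unif B₂) ≤ d` (if `cP m > 0`) and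
`log |A| - log |A₂| ≤ cP d ≤ 2 cP log K`.  `exists_F` in `G₂`: `Dq (unif A₂) F ≤ cP d₂` (`Dq_nonneg` for the other)
and `lc (divS m F) - lc F ≤ (cP + 8 m + 4) d₂ ≤ (2 cP + 16 m + 8) log K`.
Let `f(g) = #{g' ∈ A₂ : g' - g ∈ F} ≤ |F|`.  By `ent_sub_hq` (or `H_cond_sum`) and `cnd (unif A₂) = unif` of the
fibre, `Dq (unif A₂) F = (1/|A₂|) ∑_{g ∈ A₂} log (|F| / f(g))`.  All terms are `≥ 0`, so the set of `g` with
`log (|F| / f(g)) > 4 cP log K` has at most `|A₂| / 2` elements (Markov; if `log K = 0` all terms vanish).  Let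
`A₃ ⊆ A₂` be the other elements; `A₃` is a union of whole fibres, so the fibre counts in `A₃` and in `A₂` agree.
-/
namespace Pool.Agent.WPF
open Finset Pool.Agent.Ldc
open scoped Pointwise

theorem Weak_le {a b K : ℝ} (n : ℕ) (ha : 0 < a) (hb : 0 < b) (hK : 0 < K)
    (h : Real.log a - Real.log b ≤ (n : ℝ) * Real.log K) : a ≤ K ^ n * b := by
  have h1 : Real.log a ≤ Real.log (K ^ n * b) := by
    rw [Real.log_mul (pow_pos hK n).ne' hb.ne', Real.log_pow]
    linarith
  exact (Real.log_le_log_iff ha (mul_pos (pow_pos hK n) hb)).mp h1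

theorem Weak_unif_pos {α : Type} {s : Finset α} {a : α} (h : 0 < unif s a) : a ∈ s := by
  by_contra ha
  unfold unif at h
  rw [if_neg ha] at h
  exact lt_irrefl _ h

theorem Weak_ent {α : Type} [Fintype α] (s : Finset α) (hs : s.Nonempty) :
    ent (unif s) = Real.log (s.card : ℝ) := by
  rw [ent_eq_H]
  exact H_unif s hs _ (fun a _ b _ h => h)

theorem Weak_rd {G : Type} [AddCommGroup G] [Fintype G] [DecidableEq G] (A : Finset G)
    (hA : A.Nonempty) {K : ℝ} (hK1 : 1 ≤ K)
    (hK : ((A + A).card : ℝ) ≤ K * (A.card : ℝ)) :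
    rd (unif A) (unif A) ≤ 2 * Real.log K := by
  have hApos : (0 : ℝ) < A.card := by exact_mod_cast hA.card_pos
  have h0 : ((A - A).card : ℝ) ≤ K ^ 2 * A.card := by
    have h1 := Finset.pluennecke_ruzsa_inequality_nsmul_sub_nsmul_add hA A 1 1
    rw [one_nsmul] at h1
    have h3 := (NNRat.cast_le (K := ℝ)).2 h1
    push_cast at h3
    have h4 : ((A + A).card : ℝ) / A.card ≤ K := by
      rw [div_le_iff₀ hApos]
      exact hK
    calc ((A - A).card : ℝ) ≤ (((A + A).card : ℝ) / A.card) ^ (1 + 1) * A.card := h3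
      _ ≤ K ^ (1 + 1) * A.card := by gcongr
      _ = K ^ 2 * A.card := by norm_num
  have h1 : H (pp (unif A) (unif A)) (fun x : G × G => x.1 - x.2)
      ≤ Real.log ((A - A).card : ℝ) := by
    refine H_le_log_card (pp_isP (unif_isP A hA) (unif_isP A hA)) _ (A - A) ?_
    rintro ⟨a, b⟩ hab
    have hn := (unif_isP A hA).1
    have h2 : 0 < unif A a * unif A b := hab
    have h3 : 0 < unif A a := by
      rcases (hn a).lt_or_eq with h | h
      · exact h
      · rw [← h, zero_mul] at h2; exact absurd h2 (lt_irrefl _)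
    have h4 : 0 < unif A b := by
      rcases (hn b).lt_or_eq with h | h
      · exact h
      · rw [← h, mul_zero] at h2; exact absurd h2 (lt_irrefl _)
    exact Finset.sub_mem_sub (Weak_unif_pos h3) (Weak_unif_pos h4)
  have h2 : (0 : ℝ) < (A - A).card := by
    exact_mod_cast (hA.sub hA).card_pos
  have h3 : Real.log ((A - A).card : ℝ) ≤ 2 * Real.log K + Real.log (A.card : ℝ) := by
    have h4 := Real.log_le_log h2 h0
    rw [Real.log_mul (by positivity) hApos.ne', Real.log_pow] at h4
    push_cast at h4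
    exact h4
  unfold rd
  rw [Weak_ent A hA]
  linarith

open Classical in
theorem Weak_pr {G : Type} [AddCommGroup G] [Fintype G] (A : Finset G) (F : AddSubgroup G)
    (g : G) : pr (unif A) (qm F) (qm F g)
      = ((A.filter (fun g' => g' - g ∈ F)).card : ℝ) * (1 / (A.card : ℝ)) := by
  have h1 : ∀ ω : G, (qm F ω = qm F g) ↔ ω - g ∈ F := by
    intro ω
    unfold qm
    rw [QuotientAddGroup.eq]
    constructor
    · intro h
      have := F.neg_mem h
      rwa [show -(-ω + g) = ω - g by abel] at this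
    · intro h
      have := F.neg_mem h
      rwa [show -(ω - g) = -ω + g by abel] at this
  unfold pr pe
  refine (Finset.sum_congr rfl (g := fun ω =>
    if ω ∈ (A.filter (fun g' => g' - g ∈ F)) then 1 / (A.card : ℝ) else 0) ?_).trans ?_
  · intro ω _
    by_cases hω : qm F ω = qm F g
    · rw [if_pos hω]
      by_cases hA : ω ∈ A
      · rw [if_pos (Finset.mem_filter.mpr ⟨hA, (h1 ω).mp hω⟩)]
        unfold unif
        rw [if_pos hA]
      · rw [if_neg (fun h => hA (Finset.mem_filter.mp h).1)]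
        unfold unif
        rw [if_neg hA]
    · have h3 : ω ∉ (A.filter (fun g' => g' - g ∈ F)) :=
        fun h => hω ((h1 ω).mpr (Finset.mem_filter.mp h).2)
      rw [if_neg hω, if_neg h3]
  · rw [Finset.sum_ite_mem, Finset.univ_inter, Finset.sum_const, nsmul_eq_mul]

open Classical in
theorem Weak_Dq {G : Type} [AddCommGroup G] [Fintype G] (A : Finset G) (hA : A.Nonempty)
    (F : AddSubgroup G) : (A.card : ℝ) * Dq (unif A) F
      = ∑ g ∈ A, (lc F - Real.log ((A.filter (fun g' => g' - g ∈ F)).card : ℝ)) := by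
  have hApos : (0 : ℝ) < A.card := by exact_mod_cast hA.card_pos
  have h1 : (A.card : ℝ) * hq (unif A) F
      = ∑ g ∈ A, (Real.log (A.card : ℝ)
        - Real.log ((A.filter (fun g' => g' - g ∈ F)).card : ℝ)) := by
    unfold hq H
    rw [mul_neg, Finset.mul_sum, ← Finset.sum_neg_distrib]
    have h2 : ∀ ω ∈ (Finset.univ : Finset G), ω ∉ A →
        -((A.card : ℝ) * (unif A ω * Real.log (pr (unif A) (qm F) (qm F ω)))) = 0 := by
      intro ω _ hω
      have : unif A ω = 0 := by unfold unif; rw [if_neg hω]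
      rw [this, zero_mul, mul_zero, neg_zero]
    rw [← Finset.sum_subset (Finset.subset_univ A) h2]
    refine Finset.sum_congr rfl ?_
    intro g hg
    have h3 : unif A g = 1 / (A.card : ℝ) := by unfold unif; rw [if_pos hg]
    have h4 : (0 : ℝ) < ((A.filter (fun g' => g' - g ∈ F)).card : ℝ) := by
      have : (A.filter (fun g' => g' - g ∈ F)).Nonempty :=
        ⟨g, by rw [Finset.mem_filter]; exact ⟨hg, by rw [sub_self]; exact F.zero_mem⟩⟩
      exact_mod_cast this.card_pos
    rw [h3, Weak_pr, Real.log_mul h4.ne' (by positivity), one_div, Real.log_inv]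
    field_simp
    ring
  unfold Dq
  rw [Weak_ent A hA, mul_sub, mul_sub, h1, Finset.sum_sub_distrib, Finset.sum_sub_distrib,
    Finset.sum_const, Finset.sum_const, nsmul_eq_mul, nsmul_eq_mul]
  ring

open Classical in
theorem weak {m : ℕ} (hm : 3 ≤ m) {G : Type} [AddCommGroup G] [Fintype G]
    (A : Finset G) (hA : A.Nonempty) (K : ℝ) (hK : ((A + A).card : ℝ) ≤ K * (A.card : ℝ)) :
    ∃ (G₂ : Type) (_ : AddCommGroup G₂) (_ : Fintype G₂) (i : G₂ →+ G) (a₀ : G)
      (A₂ : Finset G₂) (F : AddSubgroup G₂), Function.Injective i ∧ A₂.Nonempty ∧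
      (∀ g ∈ A₂, a₀ + i g ∈ A) ∧ (A.card : ℝ) ≤ 2 * K ^ (2 * cP m) * (A₂.card : ℝ) ∧
      (∃ k : ℕ, ∀ f ∈ F, m ^ k • f = 0) ∧
      (Nat.card (divS m F) : ℝ) ≤ K ^ (2 * cP m + 16 * m + 8) * (Nat.card F : ℝ) ∧
      ∀ g ∈ A₂, (Nat.card F : ℝ) ≤ K ^ (4 * cP m) * ((A₂.filter (fun g' => g' - g ∈ F)).card : ℝ) := by
  have hApos : (0 : ℝ) < A.card := by exact_mod_cast hA.card_pos
  have hK1 : 1 ≤ K := by
    have h5 : (A.card : ℝ) ≤ (A + A).card := by exact_mod_cast Finset.card_le_card_add_self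
    by_contra hlt
    push Not at hlt
    have : K * (A.card : ℝ) < 1 * A.card := by gcongr
    linarith
  have hKpos : 0 < K := by linarith
  have hlogK : 0 ≤ Real.log K := Real.log_nonneg hK1
  have hcP : (1 : ℝ) ≤ (cP m : ℝ) := by
    have : 1 ≤ cP m := by unfold cP; omega
    exact_mod_cast this
  have hd := Weak_rd A hA hK1 hK
  obtain ⟨G₂, _, _, i, a₀, b₀, A₂, B₂, hi, hA2, hB2, hA2A, hB2A, hdf, hlog⟩ :=
    terminal hm (A.card + A.card) G A A hA hA le_rfl
  have hA2pos : (0 : ℝ) < A₂.card := by exact_mod_cast hA2.card_pos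
  have hB2pos : (0 : ℝ) < B₂.card := by exact_mod_cast hB2.card_pos
  have hcA : A₂.card ≤ A.card := by
    refine Finset.card_le_card_of_injOn (fun g => a₀ + i g) (fun g hg => hA2A g hg) ?_
    intro g _ g' _ h
    exact hi (add_left_cancel h)
  have hcB : B₂.card ≤ A.card := by
    refine Finset.card_le_card_of_injOn (fun g => b₀ + i g) (fun g hg => hB2A g hg) ?_
    intro g _ g' _ h
    exact hi (add_left_cancel h)
  have hlA : Real.log (A₂.card : ℝ) ≤ Real.log (A.card : ℝ) :=
    Real.log_le_log hA2pos (by exact_mod_cast hcA)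
  have hlB : Real.log (B₂.card : ℝ) ≤ Real.log (A.card : ℝ) :=
    Real.log_le_log hB2pos (by exact_mod_cast hcB)
  have hx := unif_isP A₂ hA2
  have hy := unif_isP B₂ hB2
  have hd2 := rd_nonneg hx hy
  set d := rd (unif A) (unif A) with hd_def
  set d2 := rd (unif A₂) (unif B₂) with hd2_def
  have hdd : d2 ≤ d := by
    have : (cP m : ℝ) * d2 ≤ (cP m : ℝ) * d := by linarith
    exact le_of_mul_le_mul_left this (by linarith)
  have hd2K : (cP m : ℝ) * d2 ≤ 2 * (cP m : ℝ) * Real.log K := by nlinarith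
  have hdK : (cP m : ℝ) * d ≤ 2 * (cP m : ℝ) * Real.log K := by nlinarith
  have hcard2 : (A.card : ℝ) ≤ K ^ (2 * cP m) * (A₂.card : ℝ) := by
    refine Weak_le _ hApos hA2pos hKpos ?_
    push_cast
    have : 0 ≤ (cP m : ℝ) * d2 := by positivity
    linarith
  obtain ⟨F, hk, hDq, hlc⟩ := exists_F hm hx hy
  have hF : (0 : ℝ) < Nat.card F := by
    have : 0 < Nat.card F := Nat.card_pos
    exact_mod_cast this
  have hdF : (0 : ℝ) < Nat.card (divS m F) := by
    have : 0 < Nat.card (divS m F) := Nat.card_pos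
    exact_mod_cast this
  have hdiv : (Nat.card (divS m F) : ℝ) ≤ K ^ (2 * cP m + 16 * m + 8) * (Nat.card F : ℝ) := by
    refine Weak_le _ hdF hF hKpos ?_
    have h1 : lc (divS m F) - lc F ≤ ((cP m : ℝ) + 8 * m + 4) * d2 := by
      have : ((cP m : ℝ) + 8 * m + 4) * d2 = (cP m : ℝ) * d2 + (8 * (m : ℝ) + 4) * d2 := by ring
      rw [this]
      linarith
    have h2 : ((cP m : ℝ) + 8 * m + 4) * d2 ≤ ((cP m : ℝ) + 8 * m + 4) * (2 * Real.log K) := by
      have : d2 ≤ 2 * Real.log K := hdd.trans hd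
      gcongr
    unfold lc at h1
    push_cast
    have h3 : ((cP m : ℝ) + 8 * m + 4) * (2 * Real.log K)
        = (2 * (cP m : ℝ) + 16 * m + 8) * Real.log K := by ring
    linarith
  have hDx : Dq (unif A₂) F ≤ 2 * (cP m : ℝ) * Real.log K := by
    have := Dq_nonneg hy F
    linarith
  -- fibre counts
  set f : G₂ → ℝ := fun g => ((A₂.filter (fun g' => g' - g ∈ F)).card : ℝ) with hf
  have hfpos : ∀ g ∈ A₂, 0 < f g := by
    intro g hg
    have : (A₂.filter (fun g' => g' - g ∈ F)).Nonempty :=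
      ⟨g, by rw [Finset.mem_filter]; exact ⟨hg, by rw [sub_self]; exact F.zero_mem⟩⟩
    show (0 : ℝ) < ((A₂.filter (fun g' => g' - g ∈ F)).card : ℝ)
    exact_mod_cast this.card_pos
  have hfle : ∀ g, f g ≤ (Nat.card F : ℝ) := by
    intro g
    have h1 : (A₂.filter (fun g' => g' - g ∈ F)).card ≤ Nat.card F := by
      have h0 : Nat.card F = (F : Set G₂).toFinset.card := Nat.card_eq_card_toFinset _
      rw [h0]
      refine Finset.card_le_card_of_injOn (fun g' => g' - g) ?_ ?_
      · intro g' hg'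
        rw [Finset.mem_coe, Finset.mem_filter] at hg'
        simpa using hg'.2
      · intro a _ b _ h
        exact sub_left_injective h
    show ((A₂.filter (fun g' => g' - g ∈ F)).card : ℝ) ≤ (Nat.card F : ℝ)
    exact_mod_cast h1
  have hterm : ∀ g ∈ A₂, 0 ≤ lc F - Real.log (f g) := by
    intro g hg
    have := Real.log_le_log (hfpos g hg) (hfle g)
    unfold lc
    linarith
  have hsum : ∑ g ∈ A₂, (lc F - Real.log (f g)) ≤ (A₂.card : ℝ) * (2 * (cP m : ℝ) * Real.log K) := by
    rw [← Weak_Dq A₂ hA2 F]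
    gcongr
  set A₃ := A₂.filter (fun g => lc F - Real.log (f g) ≤ 4 * (cP m : ℝ) * Real.log K) with hA3
  set B₃ := A₂.filter (fun g => ¬ lc F - Real.log (f g) ≤ 4 * (cP m : ℝ) * Real.log K) with hB3
  have hcard3 : A₃.card + B₃.card = A₂.card := Finset.card_filter_add_card_filter_not _
  have hB3c : 2 * B₃.card ≤ A₂.card := by
    rcases hlogK.eq_or_lt with h0 | h0
    · have hB0 : B₃ = ∅ := by
        rw [Finset.eq_empty_iff_forall_notMem]
        intro g hg
        rw [hB3, Finset.mem_filter] at hg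
        apply hg.2
        rw [← h0, mul_zero]
        have h1 := Finset.single_le_sum (f := fun g => lc F - Real.log (f g)) hterm hg.1
        rw [← h0, mul_zero, mul_zero] at hsum
        exact h1.trans hsum
      rw [hB0, Finset.card_empty]
      omega
    · have h1 : (B₃.card : ℝ) * (4 * (cP m : ℝ) * Real.log K) ≤ ∑ g ∈ B₃, (lc F - Real.log (f g)) := by
        rw [← nsmul_eq_mul]
        refine Finset.card_nsmul_le_sum _ _ _ ?_
        intro g hg
        rw [hB3, Finset.mem_filter] at hg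
        exact (not_le.mp hg.2).le
      have h2 : ∑ g ∈ B₃, (lc F - Real.log (f g)) ≤ ∑ g ∈ A₂, (lc F - Real.log (f g)) := by
        refine Finset.sum_le_sum_of_subset_of_nonneg (Finset.filter_subset _ _) ?_
        intro g hg _
        exact hterm g hg
      have h3 : (2 * (B₃.card : ℝ)) * (2 * (cP m : ℝ) * Real.log K)
          ≤ (A₂.card : ℝ) * (2 * (cP m : ℝ) * Real.log K) := by linarith
      have h4 : 2 * (B₃.card : ℝ) ≤ (A₂.card : ℝ) := le_of_mul_le_mul_right h3 (by positivity)
      exact_mod_cast h4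
  have hA3c : (A₂.card : ℝ) ≤ 2 * (A₃.card : ℝ) := by
    have : A₂.card ≤ 2 * A₃.card := by omega
    exact_mod_cast this
  have hA3pos : 0 < A₃.card := by
    have := hA2.card_pos
    omega
  refine ⟨G₂, inferInstance, inferInstance, i, a₀, A₃, F, hi, Finset.card_pos.mp hA3pos, ?_, ?_,
    hk, hdiv, ?_⟩
  · intro g hg
    exact hA2A g (Finset.mem_filter.mp hg).1
  · calc (A.card : ℝ) ≤ K ^ (2 * cP m) * (A₂.card : ℝ) := hcard2
      _ ≤ K ^ (2 * cP m) * (2 * (A₃.card : ℝ)) := by gcongr
      _ = 2 * K ^ (2 * cP m) * (A₃.card : ℝ) := by ring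
  · intro g hg
    rw [hA3, Finset.mem_filter] at hg
    have h1 : A₃.filter (fun g' => g' - g ∈ F) = A₂.filter (fun g' => g' - g ∈ F) := by
      ext g'
      simp only [hA3, Finset.mem_filter]
      constructor
      · rintro ⟨⟨h1, _⟩, h3⟩
        exact ⟨h1, h3⟩
      · rintro ⟨h1, h3⟩
        refine ⟨⟨h1, ?_⟩, h3⟩
        have h4 : f g' = f g := by
          rw [hf]
          show ((A₂.filter (fun z => z - g' ∈ F)).card : ℝ) = ((A₂.filter (fun z => z - g ∈ F)).card : ℝ)
          congr 2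
          ext z
          rw [Finset.mem_filter, Finset.mem_filter]
          have e1 : z - g ∈ F ↔ z - g' ∈ F := by
            constructor
            · intro h
              have := F.sub_mem h h3
              rwa [show z - g - (g' - g) = z - g' by abel] at this
            · intro h
              have := F.add_mem h h3
              rwa [show z - g' + (g' - g) = z - g by abel] at this
          rw [e1]
        rw [h4]
        exact hg.2
    rw [h1]
    refine Weak_le _ hF (hfpos g hg.1) hKpos ?_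
    push_cast
    have := hg.2
    unfold lc at this
    linarith

end Pool.Agent.WPF
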